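import Pool.Agent.Helper72.Pent.Lattice

set_option linter.all false

namespace Pool.Agent.Helper72.Pent

open MeasureTheory Set Metric Filter Topology Submodule
open scoped ENNReal Pointwise

theorem lin_indep {w1 w2 : ℂ} (hw : cross w1 w2 ≠ 0) : LinearIndependent ℝ ![w1, w2] := by
  rw [LinearIndependent.pair_iff]
  intro a b hab
  have h1 : a * w1.re + b * w2.re = 0 := by
    have := congrArg Complex.re hab; simpa using this
  have h2 : a * w1.im + b * w2.im = 0 := by
    have := congrArg Complex.im hab; simpa using this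
  have h3 : a * cross w1 w2 = 0 := by
    simp only [cross]; linear_combination w2.im * h1 - w2.re * h2
  have h4 : b * cross w1 w2 = 0 := by
    simp only [cross]; linear_combination w1.re * h2 - w1.im * h1
  exact ⟨(mul_eq_zero.1 h3).resolve_right hw, (mul_eq_zero.1 h4).resolve_right hw⟩

noncomputable def lb {w1 w2 : ℂ} (hw : cross w1 w2 ≠ 0) : Module.Basis (Fin 2) ℝ ℂ :=
  basisOfLinearIndependentOfCardEqFinrank (lin_indep hw) (by rw [Complex.finrank_real_complex]; rfl)

theorem lb_coe {w1 w2 : ℂ} (hw : cross w1 w2 ≠ 0) : ⇑(lb hw) = ![w1, w2] :=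
  coe_basisOfLinearIndependentOfCardEqFinrank _ _

theorem lb_det {w1 w2 : ℂ} (hw : cross w1 w2 ≠ 0) : Complex.basisOneI.det (lb hw) = cross w1 w2 := by
  rw [lb_coe, Module.Basis.det_apply, Matrix.det_fin_two]
  simp [Module.Basis.toMatrix_apply, cross]
  ring

noncomputable def V0 : ℝ≥0∞ := volume (ZSpan.fundamentalDomain Complex.basisOneI)

theorem V0_ne : V0 ≠ 0 := ZSpan.measure_fundamentalDomain_ne_zero _

theorem V0_top : V0 ≠ ⊤ := ((ZSpan.fundamentalDomain_isBounded Complex.basisOneI).measure_lt_top).ne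

theorem vol_F {w1 w2 : ℂ} (hw : cross w1 w2 ≠ 0) :
    volume (ZSpan.fundamentalDomain (lb hw)) = ENNReal.ofReal |cross w1 w2| * V0 := by
  rw [ZSpan.measure_fundamentalDomain (lb hw) volume Complex.basisOneI, lb_det, V0]

noncomputable def φ {w1 w2 : ℂ} (hw : cross w1 w2 ≠ 0) : ℤ × ℤ ≃ (span ℤ (Set.range (lb hw))).toAddSubgroup :=
  ((finTwoArrowEquiv ℤ).symm.trans ((lb hw).restrictScalars ℤ).equivFun.symm.toEquiv : ℤ × ℤ ≃ span ℤ (Set.range (lb hw)))

theorem φ_coe {w1 w2 : ℂ} (hw : cross w1 w2 ≠ 0) (p : ℤ × ℤ) : ((φ hw p : (span ℤ (Set.range (lb hw))).toAddSubgroup) : ℂ) = tr w1 w2 p := by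
  have h0 : lb hw 0 = w1 := by rw [lb_coe]; rfl
  have h1 : lb hw 1 = w2 := by rw [lb_coe]; rfl
  show ((((lb hw).restrictScalars ℤ).equivFun.symm ((finTwoArrowEquiv ℤ).symm p) : span ℤ (Set.range (lb hw))) : ℂ) = _
  simp only [Module.Basis.equivFun_symm_apply, Fin.sum_univ_two]
  simp [tr, Module.Basis.restrictScalars_apply, h0, h1]

variable {K : ℕ} {w1 w2 : ℂ} {g : Fin K → ℂ ≃ᵢ ℂ} {o : Fin K → Bool}

theorem T_fam (p : ℤ × ℤ) (k : Fin K) (hw : cross w1 w2 ≠ 0) :
    T (fam w1 w2 g) (p, k) = (φ hw p) +ᵥ (g k '' P) := by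
  ext z
  rw [T, Set.mem_vadd_set]
  constructor
  · rintro ⟨x, hx, rfl⟩
    refine ⟨g k x, ⟨x, hx, rfl⟩, ?_⟩
    rw [fam_apply, AddSubgroup.vadd_def, φ_coe, vadd_eq_add]; ring
  · rintro ⟨_, ⟨x, hx, rfl⟩, rfl⟩
    refine ⟨x, hx, ?_⟩
    rw [fam_apply, AddSubgroup.vadd_def, φ_coe, vadd_eq_add]; ring

theorem area_sum (hw : cross w1 w2 ≠ 0) :
    ∑' i, volume (T (fam w1 w2 g) i ∩ ZSpan.fundamentalDomain (lb hw)) = K * volume P := by
  rw [ENNReal.tsum_prod', ENNReal.tsum_comm, tsum_fintype]
  haveI : Countable (span ℤ (range (lb hw))).toAddSubgroup := (φ hw).symm.injective.countable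
  have h1 : ∀ k : Fin K, ∑' p : ℤ × ℤ, volume (T (fam w1 w2 g) (p, k) ∩ ZSpan.fundamentalDomain (lb hw)) = volume P := by
    intro k
    have h2 := (ZSpan.isAddFundamentalDomain' (lb hw) volume).measure_eq_tsum (g k '' P)
    rw [iso_vol] at h2
    rw [h2, ← (φ hw).tsum_eq]
    apply tsum_congr
    intro p
    rw [T_fam p k hw]
  simp only [h1, Finset.sum_const, Finset.card_univ, Fintype.card_fin, nsmul_eq_mul]

theorem area_fam (hw : cross w1 w2 ≠ 0) (ho : ∀ k, Oriented (g k) (o k)) {δ : Fin K → Fin 5 → (ℤ × ℤ) × Fin K × Fin 5}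
    (h : Table w1 w2 g o δ) {z0 : ℂ} (hz0 : z0 ∉ Vset (fam w1 w2 g)) {m : ℝ} (hm : S (fam w1 w2 g) z0 = Real.pi * m) :
    ENNReal.ofReal m * (ENNReal.ofReal |cross w1 w2| * V0) = K * volume P := by
  classical
  set f := fam w1 w2 g with hf
  have hlf : LocallyFinite (T f) := fam_locFin w1 w2 g hw
  have hV : ∀ᵐ z ∂(volume : Measure ℂ), z ∉ Vset f := measure_eq_zero_iff_ae_notMem.1 ((Vset_countable f).measure_zero volume)
  have hfr : ∀ᵐ z ∂(volume : Measure ℂ), ∀ i, z ∉ frontier (T f i) := by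
    rw [ae_all_iff]
    intro i
    exact measure_eq_zero_iff_ae_notMem.1 (frontier_T_null (f i))
  have hN : ∀ᵐ z ∂(volume : Measure ℂ), ∑' i, (T f i).indicator (1 : ℂ → ℝ≥0∞) z = ENNReal.ofReal m := by
    filter_upwards [hV, hfr] with z h1 h2
    have h3 : S f z = Real.pi * m := by rw [← hm]; exact S_const_fam hw ho h h1 hz0
    have hfin := hlf.point_finite z
    set J := hfin.toFinset with hJ
    have hJm : ∀ i, i ∈ J ↔ z ∈ T f i := fun i => by simp [hJ]
    have h4 : S f z = ∑ i ∈ J, densT (f i) z := by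
      apply finsum_eq_sum_of_support_subset
      intro i hi
      rw [Function.mem_support] at hi
      by_contra hn
      exact hi (densT_out (fun h => hn ((hJm i).2 h)))
    have h5 : ∀ i ∈ J, densT (f i) z = Real.pi := by
      intro i hi
      have h6 : z ∈ interior (T f i) := by
        by_contra hn
        exact h2 i ⟨subset_closure ((hJm i).1 hi), hn⟩
      rw [T, interior_T, mem_image_iff] at h6
      exact dens_sP h6
    rw [Finset.sum_congr rfl h5, Finset.sum_const, nsmul_eq_mul] at h4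
    have h7 : m = J.card := by
      have : Real.pi * m = Real.pi * J.card := by rw [← h3, h4]; ring
      exact mul_left_cancel₀ Real.pi_ne_zero this
    rw [tsum_eq_sum (s := J)]
    · rw [Finset.sum_congr rfl (g := fun _ => (1 : ℝ≥0∞)), Finset.sum_const, nsmul_eq_mul, mul_one, h7, ENNReal.ofReal_natCast]
      intro i hi
      rw [indicator_of_mem ((hJm i).1 hi)]; rfl
    · intro i hi
      rw [indicator_of_notMem (fun h => hi ((hJm i).2 h))]
  have h1 : ∫⁻ z in ZSpan.fundamentalDomain (lb hw), ∑' i, (T f i).indicator (1 : ℂ → ℝ≥0∞) z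
      = ENNReal.ofReal m * volume (ZSpan.fundamentalDomain (lb hw)) := by
    rw [lintegral_congr_ae (g := fun _ => ENNReal.ofReal m) (ae_restrict_of_ae hN), setLIntegral_const]
  rw [lintegral_tsum] at h1
  · rw [← vol_F hw, ← h1, ← area_sum (g := g) hw]
    apply tsum_congr
    intro i
    rw [lintegral_indicator_one₀, Measure.restrict_apply]
    · exact (isClosed_Ti f i).measurableSet
    · exact (isClosed_Ti f i).measurableSet.nullMeasurableSet
  · intro i
    exact (measurable_one.indicator (isClosed_Ti f i).measurableSet).aemeasurable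

/-- disjointness and covering from total density π -/
theorem tiling_of_S (hw : cross w1 w2 ≠ 0) (hS : ∀ z, z ∉ Vset (fam w1 w2 g) → S (fam w1 w2 g) z = Real.pi) :
    DisjInt (fam w1 w2 g) ∧ ∀ z, ∃ i, z ∈ T (fam w1 w2 g) i := by
  classical
  set f := fam w1 w2 g with hf
  have hlf : LocallyFinite (T f) := fam_locFin w1 w2 g hw
  have hdense : Dense (Vset f)ᶜ := (Vset_countable f).dense_compl ℝ
  have hsupp : ∀ z, (Function.support fun i => densT (f i) z).Finite := by
    intro z
    apply (hlf.point_finite z).subset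
    intro i hi
    rw [Function.mem_support] at hi
    by_contra hn
    exact hi (densT_out hn)
  constructor
  · intro i j hij
    show Disjoint (interior (T f i)) (interior (T f j))
    rw [Set.disjoint_iff_inter_eq_empty]
    by_contra hne
    obtain ⟨z, hz, hzV⟩ := hdense.inter_open_nonempty _ (isOpen_interior.inter isOpen_interior) (nonempty_iff_ne_empty.2 hne)
    have h1 : densT (f i) z = Real.pi := by
      have := hz.1; rw [T, interior_T, mem_image_iff] at this; exact dens_sP this
    have h2 : densT (f j) z = Real.pi := by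
      have := hz.2; rw [T, interior_T, mem_image_iff] at this; exact dens_sP this
    have h3 := hS z hzV
    rw [S, finsum_eq_sum _ (hsupp z)] at h3
    have h4 : ({i, j} : Finset _) ⊆ (hsupp z).toFinset := by
      intro x hx
      rw [Set.Finite.mem_toFinset, Function.mem_support]
      rcases Finset.mem_insert.1 hx with rfl | hx
      · rw [h1]; exact Real.pi_ne_zero
      · rw [Finset.mem_singleton.1 hx, h2]; exact Real.pi_ne_zero
    have h5 := Finset.sum_le_sum_of_subset_of_nonneg h4 (f := fun i => densT (f i) z) (fun i _ _ => densT_nonneg _ _)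
    rw [Finset.sum_pair hij, h1, h2, h3] at h5
    linarith [Real.pi_pos]
  · intro z
    by_contra hn
    push Not at hn
    have h1 := hlf.eventually_subset (isClosed_Ti f) z
    obtain ⟨U, hU, hUo, hzU⟩ := _root_.eventually_nhds_iff.1 h1
    obtain ⟨y, hy, hyV⟩ := hdense.inter_open_nonempty U hUo ⟨z, hzU⟩
    have h2 : S f y = 0 := by
      rw [S]
      rw [finsum_congr (g := fun _ => (0:ℝ)), finsum_zero]
      intro i
      exact densT_out (fun h => hn i (hU y hy h))
    rw [hS y hyV] at h2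
    exact Real.pi_ne_zero h2

end Pool.Agent.Helper72.Pent
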