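import Mathlib

namespace Pool.Agent.Helper72.Pent

open Complex

/-- existence of the small root -/
theorem exists_s : ∃ s : ℝ, 0.127 < s ∧ s < 0.1271 ∧ 8 * s ^ 3 - 8 * s + 1 = 0 := by
  have hc : ContinuousOn (fun x : ℝ => -(8 * x ^ 3 - 8 * x + 1)) (Set.Icc 0.127 0.1271) := by fun_prop
  have h := intermediate_value_Ioo (by norm_num : (0.127 : ℝ) ≤ 0.1271) hc
  have h0 : (0 : ℝ) ∈ Set.Ioo (-(8 * (0.127:ℝ) ^ 3 - 8 * 0.127 + 1)) (-(8 * (0.1271:ℝ) ^ 3 - 8 * 0.1271 + 1)) := by
    constructor <;> norm_num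
  obtain ⟨x, hx, hx2⟩ := h h0
  exact ⟨x, hx.1, hx.2, by linarith [show -(8 * x ^ 3 - 8 * x + 1) = 0 from hx2]⟩

noncomputable def s : ℝ := Classical.choose exists_s

theorem s_lb : 0.127 < s := (Classical.choose_spec exists_s).1
theorem s_ub : s < 0.1271 := (Classical.choose_spec exists_s).2.1
theorem s_eq : 8 * s ^ 3 - 8 * s + 1 = 0 := (Classical.choose_spec exists_s).2.2
theorem s_pos : 0 < s := lt_trans (by norm_num) s_lb

noncomputable def c : ℝ := Real.sqrt (1 - s ^ 2)

theorem c_sq : c ^ 2 = 1 - s ^ 2 := by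
  rw [c, Real.sq_sqrt]
  nlinarith [s_lb, s_ub]

theorem c_pos : 0 < c := by
  rw [c]; apply Real.sqrt_pos.2; nlinarith [s_lb, s_ub]

theorem c_lb : 0.9918 < c := by
  have := c_sq; nlinarith [s_lb, s_ub, c_pos]

theorem c_ub : c < 0.992 := by
  have := c_sq; nlinarith [s_lb, s_ub, c_pos]

/-- height of the pentagon -/
noncomputable def h : ℝ := 2 * c * (1 - 2 * s ^ 2)

theorem h_lb : 1.919 < h := by
  have h1 := c_lb; have h2 := s_ub; have h3 := s_lb
  have : s ^ 2 < 0.01616 := by nlinarith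
  unfold h; nlinarith

theorem h_ub : h < 1.921 := by
  have h1 := c_ub; have h2 := s_ub; have h3 := s_lb
  have : 0.01612 < s ^ 2 := by nlinarith
  have := c_pos
  unfold h; nlinarith

/-- the angle u with sin u = s -/
noncomputable def u : ℝ := Real.arcsin s

theorem sin_u : Real.sin u = s := Real.sin_arcsin (by linarith [s_lb]) (by linarith [s_ub])
theorem cos_u : Real.cos u = c := by
  rw [u, Real.cos_arcsin, c]

theorem sin_3u : Real.sin (3 * u) = 1 / 2 - s := by
  rw [Real.sin_three_mul, sin_u]; linarith [s_eq]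

theorem cos_3u : Real.cos (3 * u) = h - c := by
  rw [Real.cos_three_mul, cos_u, h]
  have := c_sq
  have h4 : 4 * c ^ 3 = 4 * c * (1 - s ^ 2) := by rw [← this]; ring
  rw [h4]; ring

theorem u_lb : Real.pi / 26 < u := by
  have h1 : Real.sin (Real.pi / 26) < s := by
    have h2 : Real.sin (Real.pi / 26) < Real.pi / 26 := Real.sin_lt (by positivity)
    have h3 := Real.pi_lt_d4
    linarith [s_lb]
  rw [u]
  rw [Real.lt_arcsin_iff_sin_lt']
  · exact h1
  · constructor
    · linarith [Real.pi_pos]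
    · linarith [Real.pi_pos]

theorem u_ub : u < Real.pi / 22 := by
  have h1 : s < Real.sin (Real.pi / 22) := by
    have h3 := Real.pi_gt_d4
    have h4 := Real.pi_lt_d4
    have h2 := Real.sin_gt_sub_cube (x := Real.pi / 22) (by positivity)
    have : (Real.pi/22)^3/6 < 0.0005 := by
      have : Real.pi / 22 < 0.1429 := by linarith
      have h5 : 0 < Real.pi / 22 := by positivity
      have : (Real.pi/22)^3 < 0.1429^3 := by gcongr
      norm_num at this ⊢
      linarith
    linarith [s_ub]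
  rw [u]
  rw [Real.arcsin_lt_iff_lt_sin']
  · exact h1
  · constructor
    · linarith [Real.pi_pos]
    · linarith [Real.pi_pos]

theorem h_eq : h = 2 * c - 4 * c * s ^ 2 := by unfold h; ring

end Pool.Agent.Helper72.Pent
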