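import Mathlib

namespace Pool.Agent.Helper72.Pent

open MeasureTheory Set Metric
open scoped ENNReal

/-- planar cross product -/
def cross (a b : ℂ) : ℝ := a.re * b.im - a.im * b.re

theorem cross_add_right (a b d : ℂ) : cross a (b + d) = cross a b + cross a d := by
  simp [cross]; ring
theorem cross_sub_right (a b d : ℂ) : cross a (b - d) = cross a b - cross a d := by
  simp [cross]; ring
theorem cross_neg_left (a b : ℂ) : cross (-a) b = - cross a b := by
  simp [cross]; ring
theorem cross_neg_right (a b : ℂ) : cross a (-b) = - cross a b := by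
  simp [cross]; ring

theorem continuous_cross (a : ℂ) : Continuous (fun z => cross a z) := by
  unfold cross; fun_prop

theorem lint_r (ε : ℝ) (hε : 0 ≤ ε) : ∫⁻ r in Ioc (0:ℝ) ε, ENNReal.ofReal r = ENNReal.ofReal (ε ^ 2 / 2) := by
  rw [← ofReal_integral_eq_lintegral_ofReal]
  · congr 1
    rw [← intervalIntegral.integral_of_le hε]
    rw [integral_id]; ring
  · exact (continuous_id.integrableOn_Icc (a := 0) (b := ε)).mono_set Ioc_subset_Icc_self
  · filter_upwards [ae_restrict_mem measurableSet_Ioc] with r hr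
    exact hr.1.le

/-- area of a sector described in polar coordinates -/
theorem polar_area (S : Set ℂ) (hS : MeasurableSet S) (ε : ℝ) (hε : 0 ≤ ε) (Ψ : Set ℝ) (hΨ : MeasurableSet Ψ)
    (hΨ2 : Ψ ⊆ Ioo (-Real.pi) Real.pi)
    (hmem : ∀ r ψ : ℝ, 0 < r → ψ ∈ Ioo (-Real.pi) Real.pi →
      (((r : ℂ) * (Real.cos ψ + Real.sin ψ * Complex.I)) ∈ S ↔ r ≤ ε ∧ ψ ∈ Ψ)) :
    volume S = ENNReal.ofReal (ε ^ 2 / 2) * volume Ψ := by
  have h1 : volume S = ∫⁻ z, S.indicator 1 z := by
    rw [lintegral_indicator_one hS]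
  rw [h1, ← Complex.lintegral_comp_polarCoord_symm]
  have h2 : ∫⁻ p in polarCoord.target, ENNReal.ofReal p.1 • S.indicator 1 (Complex.polarCoord.symm p)
      = ∫⁻ p in polarCoord.target, ((Ioc 0 ε ×ˢ Ψ : Set (ℝ × ℝ)).indicator (fun p => ENNReal.ofReal p.1)) p := by
    apply setLIntegral_congr_fun
    · exact polarCoord.open_target.measurableSet
    · rintro ⟨r, ψ⟩ hp
      rw [polarCoord_target] at hp
      have hr : 0 < r := hp.1
      have hψ : ψ ∈ Ioo (-Real.pi) Real.pi := hp.2
      have := hmem r ψ hr hψ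
      simp only [Complex.polarCoord_symm_apply]
      by_cases hz : ((r : ℂ) * (Real.cos ψ + Real.sin ψ * Complex.I)) ∈ S
      · rw [indicator_of_mem hz, indicator_of_mem]
        · simp
        · have h3 := this.1 hz
          exact ⟨⟨hr, h3.1⟩, h3.2⟩
      · rw [indicator_of_notMem hz, indicator_of_notMem]
        · simp
        · rintro ⟨h3, h4⟩
          exact hz (this.2 ⟨h3.2, h4⟩)
  rw [h2, lintegral_indicator (measurableSet_Ioc.prod hΨ), Measure.restrict_restrict (measurableSet_Ioc.prod hΨ)]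
  have h3 : (Ioc 0 ε ×ˢ Ψ : Set (ℝ × ℝ)) ∩ polarCoord.target = Ioc 0 ε ×ˢ Ψ := by
    rw [inter_eq_left, polarCoord_target]
    exact prod_mono (fun x hx => hx.1) hΨ2
  rw [h3, Measure.volume_eq_prod, ← Measure.prod_restrict, lintegral_prod _ (by fun_prop)]
  simp only [lintegral_const, Measure.restrict_apply MeasurableSet.univ, univ_inter]
  rw [lintegral_mul_const _ (by fun_prop), lint_r ε hε]


/-- unit vector -/
noncomputable def e (α : ℝ) : ℂ := ⟨Real.cos α, Real.sin α⟩

theorem e_eq (α : ℝ) : e α = Complex.exp (α * Complex.I) := by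
  rw [Complex.exp_mul_I]; apply Complex.ext <;> simp [e, Complex.cos_ofReal_re, Complex.sin_ofReal_re, Complex.cos_ofReal_im, Complex.sin_ofReal_im]

theorem norm_e (α : ℝ) : ‖e α‖ = 1 := by rw [e_eq, Complex.norm_exp_ofReal_mul_I]

theorem cross_e_polar (α r ψ : ℝ) : cross (e α) ((r : ℂ) * (Real.cos ψ + Real.sin ψ * Complex.I)) = r * Real.sin (ψ - α) := by
  simp [cross, e, Real.sin_sub, Complex.cos_ofReal_re, Complex.sin_ofReal_re, Complex.cos_ofReal_im, Complex.sin_ofReal_im]; ring

theorem norm_polar (r ψ : ℝ) (hr : 0 < r) : ‖((r : ℂ) * (Real.cos ψ + Real.sin ψ * Complex.I))‖ = r := by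
  have := Complex.norm_polarCoord_symm (r, ψ)
  simp only [Complex.polarCoord_symm_apply] at this
  rw [this, abs_of_pos hr]

theorem meas_cone (a b : ℂ) : MeasurableSet {z : ℂ | 0 ≤ cross a z ∧ cross b z ≤ 0} :=
  ((isClosed_le continuous_const (continuous_cross a)).inter (isClosed_le (continuous_cross b) continuous_const)).measurableSet

theorem meas_cone' (a b : ℂ) : MeasurableSet {z : ℂ | 0 < cross a z ∧ cross b z < 0} :=
  ((isOpen_lt continuous_const (continuous_cross a)).inter (isOpen_lt (continuous_cross b) continuous_const)).measurableSet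

theorem cone_std (θ ε : ℝ) (hθ : 0 < θ) (hθ2 : θ < Real.pi) (hε : 0 ≤ ε) :
    volume ({z : ℂ | 0 ≤ cross (e 0) z ∧ cross (e θ) z ≤ 0} ∩ closedBall 0 ε) = ENNReal.ofReal (θ / 2 * ε ^ 2) := by
  rw [polar_area _ ((meas_cone _ _).inter isClosed_closedBall.measurableSet) ε hε (Icc 0 θ) measurableSet_Icc]
  · rw [Real.volume_Icc, ← ENNReal.ofReal_mul (by positivity)]
    congr 1; ring
  · intro x hx
    exact ⟨by linarith [hx.1, Real.pi_pos], by linarith [hx.2]⟩
  · intro r ψ hr hψ
    simp only [mem_inter_iff, mem_ofPred_eq, mem_closedBall_zero_iff, cross_e_polar, norm_polar r ψ hr, mem_Icc, sub_zero]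
    constructor
    · rintro ⟨⟨h1, h2⟩, h3⟩
      have h1' : 0 ≤ Real.sin ψ := nonneg_of_mul_nonneg_right h1 hr
      have h2' : Real.sin (ψ - θ) ≤ 0 := by
        by_contra hc; push Not at hc; nlinarith [mul_pos hr hc]
      have h4 : 0 ≤ ψ := by
        by_contra hc; push Not at hc
        have := Real.sin_neg_of_neg_of_neg_pi_lt hc hψ.1
        linarith
      refine ⟨h3, h4, ?_⟩
      by_contra hc; push Not at hc
      have := Real.sin_pos_of_pos_of_lt_pi (show 0 < ψ - θ by linarith) (by linarith [hψ.2])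
      linarith
    · rintro ⟨h3, h4, h5⟩
      refine ⟨⟨?_, ?_⟩, h3⟩
      · exact mul_nonneg hr.le (Real.sin_nonneg_of_nonneg_of_le_pi h4 hψ.2.le)
      · have := Real.sin_nonneg_of_nonneg_of_le_pi (show 0 ≤ θ - ψ by linarith) (by linarith)
        rw [show ψ - θ = -(θ - ψ) by ring, Real.sin_neg]
        nlinarith

theorem cone_std' (θ ε : ℝ) (hθ : 0 < θ) (hθ2 : θ < Real.pi) (hε : 0 ≤ ε) :
    volume ({z : ℂ | 0 < cross (e 0) z ∧ cross (e θ) z < 0} ∩ closedBall 0 ε) = ENNReal.ofReal (θ / 2 * ε ^ 2) := by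
  rw [polar_area _ ((meas_cone' _ _).inter isClosed_closedBall.measurableSet) ε hε (Ioo 0 θ) measurableSet_Ioo]
  · rw [Real.volume_Ioo, ← ENNReal.ofReal_mul (by positivity)]
    congr 1; ring
  · intro x hx
    exact ⟨by linarith [hx.1, Real.pi_pos], by linarith [hx.2]⟩
  · intro r ψ hr hψ
    simp only [mem_inter_iff, mem_ofPred_eq, mem_closedBall_zero_iff, cross_e_polar, norm_polar r ψ hr, mem_Ioo, sub_zero]
    constructor
    · rintro ⟨⟨h1, h2⟩, h3⟩
      have h1' : 0 < Real.sin ψ := (mul_pos_iff_of_pos_left hr).1 h1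
      have h2' : Real.sin (ψ - θ) < 0 := by
        by_contra hc; push Not at hc; nlinarith [mul_nonneg hr.le hc]
      have h4 : 0 < ψ := by
        by_contra hc; push Not at hc
        have := Real.sin_nonpos_of_nonpos_of_neg_pi_le hc hψ.1.le
        linarith
      refine ⟨h3, h4, ?_⟩
      by_contra hc; push Not at hc
      have := Real.sin_nonneg_of_nonneg_of_le_pi (show 0 ≤ ψ - θ by linarith) (by linarith [hψ.2])
      linarith
    · rintro ⟨h3, h4, h5⟩
      refine ⟨⟨?_, ?_⟩, h3⟩
      · exact mul_pos hr (Real.sin_pos_of_pos_of_lt_pi h4 hψ.2)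
      · have := Real.sin_pos_of_pos_of_lt_pi (show 0 < θ - ψ by linarith) (by linarith)
        rw [show ψ - θ = -(θ - ψ) by ring, Real.sin_neg]
        nlinarith

theorem half_std (ε : ℝ) (hε : 0 ≤ ε) :
    volume ({z : ℂ | 0 ≤ cross (e 0) z} ∩ closedBall 0 ε) = ENNReal.ofReal (Real.pi / 2 * ε ^ 2) := by
  rw [polar_area _ ((isClosed_le continuous_const (continuous_cross _)).measurableSet.inter isClosed_closedBall.measurableSet) ε hε (Ico 0 Real.pi) measurableSet_Ico]
  · rw [Real.volume_Ico, ← ENNReal.ofReal_mul (by positivity)]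
    congr 1; ring
  · intro x hx
    exact ⟨by linarith [hx.1, Real.pi_pos], by linarith [hx.2]⟩
  · intro r ψ hr hψ
    simp only [mem_inter_iff, mem_ofPred_eq, mem_closedBall_zero_iff, cross_e_polar, norm_polar r ψ hr, mem_Ico, sub_zero]
    constructor
    · rintro ⟨h1, h3⟩
      have h1' : 0 ≤ Real.sin ψ := nonneg_of_mul_nonneg_right h1 hr
      refine ⟨h3, ?_, hψ.2⟩
      by_contra hc; push Not at hc
      have := Real.sin_neg_of_neg_of_neg_pi_lt hc hψ.1
      linarith
    · rintro ⟨h3, h4, h5⟩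
      exact ⟨mul_nonneg hr.le (Real.sin_nonneg_of_nonneg_of_le_pi h4 h5.le), h3⟩

/-- rigid motion moving the standard frame to (w, direction α) -/
theorem mp_motion (w : ℂ) (α : ℝ) : MeasurePreserving (fun z : ℂ => e α * z + w) volume volume := by
  have h1 : MeasurePreserving (fun z : ℂ => e α * z) volume volume := by
    have h2 : (fun z : ℂ => e α * z) = ⇑(rotation (Circle.exp α)) := by
      funext z
      rw [rotation_apply, e_eq, Circle.coe_exp]
    rw [h2]
    exact (rotation (Circle.exp α)).measurePreserving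
  exact (measurePreserving_add_right volume w).comp h1

theorem cross_mul_e (α β : ℝ) (z : ℂ) : cross (e (α + β)) (e α * z) = cross (e β) z := by
  simp only [cross, e, Complex.mul_re, Complex.mul_im, Real.cos_add, Real.sin_add]
  have := Real.sin_sq_add_cos_sq α
  linear_combination (z.im * Real.cos β - z.re * Real.sin β) * this

theorem cone_area (w : ℂ) (α θ ε : ℝ) (hθ : 0 < θ) (hθ2 : θ < Real.pi) (hε : 0 ≤ ε) :
    volume ({z : ℂ | 0 ≤ cross (e α) (z - w) ∧ cross (e (α + θ)) (z - w) ≤ 0} ∩ closedBall w ε)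
      = ENNReal.ofReal (θ / 2 * ε ^ 2) := by
  rw [← cone_std θ ε hθ hθ2 hε]
  have hm : MeasurableSet ({z : ℂ | 0 ≤ cross (e α) (z - w) ∧ cross (e (α + θ)) (z - w) ≤ 0} ∩ closedBall w ε) := by
    have : Continuous (fun z : ℂ => z - w) := by fun_prop
    exact (this.measurable (meas_cone _ _)).inter isClosed_closedBall.measurableSet
  rw [← (mp_motion w α).measure_preimage hm.nullMeasurableSet]
  congr 1
  ext z
  have h1 := cross_mul_e α 0 z
  have h2 := cross_mul_e α θ z
  rw [add_zero] at h1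
  simp only [mem_preimage, mem_inter_iff, mem_ofPred_eq, add_sub_cancel_right, h1, h2, mem_closedBall, dist_eq_norm, norm_mul, norm_e, one_mul, sub_zero]

theorem cone_area' (w : ℂ) (α θ ε : ℝ) (hθ : 0 < θ) (hθ2 : θ < Real.pi) (hε : 0 ≤ ε) :
    volume ({z : ℂ | 0 < cross (e α) (z - w) ∧ cross (e (α + θ)) (z - w) < 0} ∩ closedBall w ε)
      = ENNReal.ofReal (θ / 2 * ε ^ 2) := by
  rw [← cone_std' θ ε hθ hθ2 hε]
  have hm : MeasurableSet ({z : ℂ | 0 < cross (e α) (z - w) ∧ cross (e (α + θ)) (z - w) < 0} ∩ closedBall w ε) := by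
    have : Continuous (fun z : ℂ => z - w) := by fun_prop
    exact (this.measurable (meas_cone' _ _)).inter isClosed_closedBall.measurableSet
  rw [← (mp_motion w α).measure_preimage hm.nullMeasurableSet]
  congr 1
  ext z
  have h1 := cross_mul_e α 0 z
  have h2 := cross_mul_e α θ z
  rw [add_zero] at h1
  simp only [mem_preimage, mem_inter_iff, mem_ofPred_eq, add_sub_cancel_right, h1, h2, mem_closedBall, dist_eq_norm, norm_mul, norm_e, one_mul, sub_zero]

theorem half_area (w : ℂ) (α ε : ℝ) (hε : 0 ≤ ε) :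
    volume ({z : ℂ | 0 ≤ cross (e α) (z - w)} ∩ closedBall w ε)
      = ENNReal.ofReal (Real.pi / 2 * ε ^ 2) := by
  rw [← half_std ε hε]
  have hm : MeasurableSet ({z : ℂ | 0 ≤ cross (e α) (z - w)} ∩ closedBall w ε) := by
    have : Continuous (fun z : ℂ => cross (e α) (z - w)) := (continuous_cross _).comp (by fun_prop)
    exact (isClosed_le continuous_const this).measurableSet.inter isClosed_closedBall.measurableSet
  rw [← (mp_motion w α).measure_preimage hm.nullMeasurableSet]
  congr 1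
  ext z
  have h1 := cross_mul_e α 0 z
  rw [add_zero] at h1
  simp only [mem_preimage, mem_inter_iff, mem_ofPred_eq, add_sub_cancel_right, h1, mem_closedBall, dist_eq_norm, norm_mul, norm_e, one_mul, sub_zero]

theorem ball_area (w : ℂ) (ε : ℝ) : volume (closedBall w ε) = ENNReal.ofReal (Real.pi * ε ^ 2) ∨ ε < 0 := by
  by_cases hε : 0 ≤ ε
  · left
    rw [Complex.volume_closedBall, ENNReal.ofReal_mul Real.pi_pos.le, mul_comm, ← ENNReal.ofReal_pow hε]
    congr 1
    exact (ENNReal.ofReal_coe_nnreal (p := NNReal.pi)).symm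
  · right; linarith

end Pool.Agent.Helper72.Pent
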