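import Mathlib

namespace Pool.Agent.Helper72.Pent

/-- `v : Fin n → ℂ` lists, in cyclic order, the vertices of a simple closed polygonal curve:
distinct vertices, consecutive sides meet only in their common vertex, other sides are disjoint. -/
def IsSimplePolygon {n : ℕ} [NeZero n] (v : Fin n → ℂ) : Prop :=
  3 ≤ n ∧ Function.Injective v ∧
  ∀ i j : Fin n, i ≠ j →
    segment ℝ (v i) (v (i + 1)) ∩ segment ℝ (v j) (v (j + 1)) ⊆ {z | (z = v j ∧ j = i + 1) ∨ (z = v i ∧ i = j + 1)}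

/-- `P` is the closed region bounded by the simple closed polygonal curve with vertices `v`, and
every vertex is a corner (interior angle different from π), so `P` is a polygon with exactly `n`
corners, whose sides are the segments `[v i, v (i+1)]`. (A compact set with nonempty interior whose
frontier is a Jordan curve is the closed region bounded by that curve.) -/
def IsPolygon {n : ℕ} [NeZero n] (v : Fin n → ℂ) (P : Set ℂ) : Prop :=
  IsSimplePolygon v ∧ (∀ i : Fin n, ¬ Collinear ℝ {v i, v (i + 1), v (i + 1 + 1)}) ∧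
  IsCompact P ∧ (interior P).Nonempty ∧ frontier P = ⋃ i : Fin n, segment ℝ (v i) (v (i + 1))

/-- `𝒯` is a (normal) monohedral tiling of the plane with prototile `P`. -/
def IsTiling (P : Set ℂ) (𝒯 : Set (Set ℂ)) : Prop :=
  𝒯.Countable ∧
  (∀ T ∈ 𝒯, ∃ f : ℂ ≃ᵢ ℂ, T = f '' P) ∧
  ⋃₀ 𝒯 = Set.univ ∧
  (∀ T ∈ 𝒯, ∀ T' ∈ 𝒯, T ≠ T' → Disjoint (interior T) (interior T')) ∧
  (∀ T ∈ 𝒯, Nonempty (T ≃ₜ Metric.closedBall (0 : ℂ) 1)) ∧
  (∃ r R : ℝ, 0 < r ∧ ∀ T ∈ 𝒯, (∃ z, Metric.closedBall z r ⊆ T) ∧ ∃ z, T ⊆ Metric.closedBall z R) ∧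
  (∀ T ∈ 𝒯, ∀ T' ∈ 𝒯, IsPreconnected (T ∩ T'))

/-- `S` is a side of the tile `T`, a congruent copy of the polygon `P` with corners `v`. -/
def IsSideOf {n : ℕ} [NeZero n] (v : Fin n → ℂ) (P T S : Set ℂ) : Prop :=
  ∃ f : ℂ ≃ᵢ ℂ, f '' P = T ∧ ∃ i : Fin n, S = f '' segment ℝ (v i) (v (i + 1))

/-- A tiling is proper if the intersection of any two tiles lies in a side of each of them. -/
def IsProper {n : ℕ} [NeZero n] (v : Fin n → ℂ) (P : Set ℂ) (𝒯 : Set (Set ℂ)) : Prop :=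
  ∀ T ∈ 𝒯, ∀ T' ∈ 𝒯, T ≠ T' →
    (∃ S, IsSideOf v P T S ∧ T ∩ T' ⊆ S) ∧ (∃ S, IsSideOf v P T' S ∧ T ∩ T' ⊆ S)

/-- A tiling is isohedral if its symmetry group is transitive on the tiles. -/
def IsIsohedral (𝒯 : Set (Set ℂ)) : Prop :=
  ∀ T ∈ 𝒯, ∀ T' ∈ 𝒯, ∃ g : ℂ ≃ᵢ ℂ, (fun S : Set ℂ => g '' S) '' 𝒯 = 𝒯 ∧ g '' T = T'

end Pool.Agent.Helper72.Pent
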