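import Pool.Agent.Helper72.Pent.Pos
import Pool.Agent.Helper72.Pent.Defs

set_option linter.all false

namespace Pool.Agent.Helper72.Pent

open MeasureTheory Set Metric Filter Topology
open scoped ENNReal

theorem precon_of_star {X : Set ℂ} (x : ℂ) (h : ∀ y ∈ X, segment ℝ x y ⊆ X) : IsPreconnected X :=
  isPreconnected_of_forall x fun y hy => ⟨segment ℝ x y, h y hy, left_mem_segment _ _ _, right_mem_segment _ _ _,
    (convex_segment x y).isPreconnected⟩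

theorem precon_T (f : ℂ ≃ᵢ ℂ) : IsPreconnected (f '' P) := by
  apply IsPreconnected.image _ _ f.continuous.continuousOn
  apply precon_of_star ctr
  intro y hy z hz
  rw [segment_symm, segment_eq_image'] at hz
  obtain ⟨t, ⟨h0, h1⟩, rfl⟩ := hz
  rcases h0.eq_or_lt with h | h
  · rw [← h]; simpa using hy
  · have := sP_subset (star_P hy h h1)
    simpa using this

variable {K C : ℕ} {w1 w2 : ℂ} {g : Fin K → ℂ ≃ᵢ ℂ} {o : Fin K → Bool} {R : Fin C → ℂ}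
  {cls : Fin K → Fin 5 → Fin C} {off : Fin K → Fin 5 → ℤ × ℤ} {δ : Fin K → Fin 5 → (ℤ × ℤ) × Fin K × Fin 5}

/-- vertex s of tile k is shared with the tile (d, l) -/
def ShV (cls : Fin K → Fin 5 → Fin C) (off : Fin K → Fin 5 → ℤ × ℤ) (k l : Fin K) (d : ℤ × ℤ) (s : Fin 5) : Prop :=
  ∃ t, cls l t = cls k s ∧ off k s - off l t = d

/-- side s of tile k is shared with the tile (d, l) -/
def ShS (δ : Fin K → Fin 5 → (ℤ × ℤ) × Fin K × Fin 5) (k l : Fin K) (d : ℤ × ℤ) (s : Fin 5) : Prop :=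
  (δ k s).1 = d ∧ (δ k s).2.1 = l

instance (k l : Fin K) (d : ℤ × ℤ) (s : Fin 5) : Decidable (ShV cls off k l d s) := by
  unfold ShV; infer_instance

instance (k l : Fin K) (d : ℤ × ℤ) (s : Fin 5) : Decidable (ShS δ k l d s) := by
  unfold ShS; infer_instance

def ConnC (cls : Fin K → Fin 5 → Fin C) (off : Fin K → Fin 5 → ℤ × ℤ) (δ : Fin K → Fin 5 → (ℤ × ℤ) × Fin K × Fin 5)
    (k l : Fin K) (d : ℤ × ℤ) : Prop :=
  ∃ s0 : Fin 5, (∀ s, ShS δ k l d s → s = s0 ∨ s + 1 = s0) ∧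
    (∀ s, ShV cls off k l d s → s = s0 ∨ (s = s0 + 1 ∧ ShS δ k l d s0) ∨ (s0 = s + 1 ∧ ShS δ k l d s))

def PropC (cls : Fin K → Fin 5 → Fin C) (off : Fin K → Fin 5 → ℤ × ℤ) (δ : Fin K → Fin 5 → (ℤ × ℤ) × Fin K × Fin 5)
    (k l : Fin K) (d : ℤ × ℤ) : Prop :=
  ∃ s0 : Fin 5, (∀ s, ShS δ k l d s → s = s0) ∧ (∀ s, ShV cls off k l d s → s = s0 ∨ s = s0 + 1)

instance (k l : Fin K) (d : ℤ × ℤ) : Decidable (ConnC cls off δ k l d) := by
  unfold ConnC; infer_instance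

instance (k l : Fin K) (d : ℤ × ℤ) : Decidable (PropC cls off δ k l d) := by
  unfold PropC; infer_instance

/-- table condition for connected intersections -/
def ConnCond (cls : Fin K → Fin 5 → Fin C) (off : Fin K → Fin 5 → ℤ × ℤ) (δ : Fin K → Fin 5 → (ℤ × ℤ) × Fin K × Fin 5) : Prop :=
  ∀ k s1 l t1, cls l t1 = cls k s1 → (off k s1 - off l t1, l) ≠ (0, k) → ConnC cls off δ k l (off k s1 - off l t1)

/-- table condition for properness -/
def PropCond (cls : Fin K → Fin 5 → Fin C) (off : Fin K → Fin 5 → ℤ × ℤ) (δ : Fin K → Fin 5 → (ℤ × ℤ) × Fin K × Fin 5) : Prop :=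
  ∀ k s1 l t1, cls l t1 = cls k s1 → (off k s1 - off l t1, l) ≠ (0, k) → PropC cls off δ k l (off k s1 - off l t1)

instance : Decidable (ConnCond cls off δ) := by
  unfold ConnCond; infer_instance

instance : Decidable (PropCond cls off δ) := by
  unfold PropCond; infer_instance

/-- two tiles which meet share a vertex, recorded in the table -/
theorem meet_star (hcomb : Comb K C o cls off δ) (hpos : ∀ k s, g k (v s) = R (cls k s) + tr w1 w2 (off k s))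
    (hst : StarTable w1 w2 g (starOf cls off))
    (hd : DisjInt (fam w1 w2 g)) (hc : ∀ z, ∃ i, z ∈ T (fam w1 w2 g) i) {p q : ℤ × ℤ} {k l : Fin K}
    (hij : (q, l) ≠ (p, k)) {z : ℂ} (hi : z ∈ T (fam w1 w2 g) (p, k)) (hj : z ∈ T (fam w1 w2 g) (q, l)) :
    ∃ s t, cls l t = cls k s ∧ q = p + (off k s - off l t) := by
  have htab := table_of_comb hcomb hpos
  rcases pair_cases htab hcomb.ne hst hd hc hij hi hj with ⟨s, h1, h2⟩ | ⟨s, h1, x, hx, h2⟩
  · have h3 : fam w1 w2 g (p, k) (v s) ∈ T (fam w1 w2 g) (q, l) := by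
      rw [h2]; exact across_mem htab p k s ⟨v s, left_mem_segment _ _ _, rfl⟩
    obtain ⟨x, hx, h4, h5⟩ := star_mem hst hd hc h3
    obtain ⟨h6, h7⟩ := mem_starOf.1 hx
    refine ⟨s, x.2.2, ?_, ?_⟩
    · rw [h5]; exact h6
    · rw [h4, h7, h5]
  · obtain ⟨h6, h7⟩ := mem_starOf.1 hx
    simp only [Prod.mk.injEq] at h2
    refine ⟨s, x.2.2, ?_, ?_⟩
    · rw [h2.2]; exact h6
    · rw [h2.1, h7, h2.2]

theorem meet_cases (hcomb : Comb K C o cls off δ) (hpos : ∀ k s, g k (v s) = R (cls k s) + tr w1 w2 (off k s))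
    (hst : StarTable w1 w2 g (starOf cls off))
    (hd : DisjInt (fam w1 w2 g)) (hc : ∀ z, ∃ i, z ∈ T (fam w1 w2 g) i) {p d : ℤ × ℤ} {k l : Fin K}
    (hij : (d, l) ≠ (0, k)) {z : ℂ} (hi : z ∈ T (fam w1 w2 g) (p, k)) (hj : z ∈ T (fam w1 w2 g) (p + d, l)) :
    (∃ s, z ∈ fam w1 w2 g (p, k) '' O s ∧ (δ k s).1 = d ∧ (δ k s).2.1 = l) ∨
    (∃ s, z = fam w1 w2 g (p, k) (v s) ∧ ∃ t, cls l t = cls k s ∧ off k s - off l t = d) := by
  have htab := table_of_comb hcomb hpos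
  have hne : (p + d, l) ≠ (p, k) := by
    intro h; apply hij
    simp only [Prod.mk.injEq, add_eq_left] at h
    rw [h.1, h.2]
  rcases pair_cases htab hcomb.ne hst hd hc hne hi hj with ⟨s, h1, h2⟩ | ⟨s, h1, x, hx, h2⟩
  · simp only [Prod.mk.injEq, add_right_inj] at h2
    exact Or.inl ⟨s, h1, h2.1.symm, h2.2.symm⟩
  · obtain ⟨h6, h7⟩ := mem_starOf.1 hx
    simp only [Prod.mk.injEq, add_right_inj] at h2
    refine Or.inr ⟨s, h1, x.2.2, ?_, ?_⟩
    · rw [h2.2]; exact h6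
    · rw [h2.1, h7, h2.2]

theorem O_to_left {f : ℂ ≃ᵢ ℂ} {s : Fin 5} {z : ℂ} (hz : z ∈ f '' O s) :
    segment ℝ (f (v s)) z ⊆ f '' segment ℝ (v s) (v (s + 1)) := by
  rw [image_seg]
  apply (convex_segment _ _).segment_subset (left_mem_segment _ _ _)
  rw [← image_seg]
  exact image_mono (openSegment_subset_segment _ _ _) hz

theorem O_to_right {f : ℂ ≃ᵢ ℂ} {s : Fin 5} {z : ℂ} (hz : z ∈ f '' O s) :
    segment ℝ (f (v (s + 1))) z ⊆ f '' segment ℝ (v s) (v (s + 1)) := by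
  rw [image_seg]
  apply (convex_segment _ _).segment_subset (right_mem_segment _ _ _)
  rw [← image_seg]
  exact image_mono (openSegment_subset_segment _ _ _) hz

theorem conn_of_cond (hcomb : Comb K C o cls off δ) (hpos : ∀ k s, g k (v s) = R (cls k s) + tr w1 w2 (off k s))
    (hst : StarTable w1 w2 g (starOf cls off))
    (hd : DisjInt (fam w1 w2 g)) (hc : ∀ z, ∃ i, z ∈ T (fam w1 w2 g) i) (hcond : ConnCond cls off δ)
    (i j : (ℤ × ℤ) × Fin K) : IsPreconnected (T (fam w1 w2 g) i ∩ T (fam w1 w2 g) j) := by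
  by_cases hij : j = i
  · rw [hij, inter_self]; exact precon_T _
  obtain ⟨p, k⟩ := i
  obtain ⟨q, l⟩ := j
  rcases (T (fam w1 w2 g) (p, k) ∩ T (fam w1 w2 g) (q, l)).eq_empty_or_nonempty with he | ⟨z0, hz1, hz2⟩
  · rw [he]; exact isPreconnected_empty
  obtain ⟨s1, t1, hcl, hq⟩ := meet_star hcomb hpos hst hd hc hij hz1 hz2
  have hne : (off k s1 - off l t1, l) ≠ (0, k) := by
    intro h; apply hij
    simp only [Prod.mk.injEq] at h
    rw [hq, h.1, h.2, add_zero]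
  obtain ⟨s0, hN, hV⟩ := hcond k s1 l t1 hcl hne
  have htab := table_of_comb hcomb hpos
  have hside : ∀ s, ShS δ k l (off k s1 - off l t1) s →
      fam w1 w2 g (p, k) '' segment ℝ (v s) (v (s + 1)) ⊆ T (fam w1 w2 g) (p, k) ∩ T (fam w1 w2 g) (q, l) := by
    rintro s ⟨h1, h2⟩
    apply subset_inter
    · exact image_mono (seg_sub_P s)
    · have := across_mem htab p k s
      rw [h1, h2, ← hq] at this
      exact this
  apply precon_of_star (fam w1 w2 g (p, k) (v s0))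
  rintro z ⟨hz1, hz2⟩
  have hz2' := hz2
  rw [hq] at hz2'
  rcases meet_cases hcomb hpos hst hd hc hne hz1 hz2' with ⟨s, h1, h2, h3⟩ | ⟨s, h1, t, h2, h3⟩
  · refine Subset.trans ?_ (hside s ⟨h2, h3⟩)
    rcases hN s ⟨h2, h3⟩ with h4 | h4
    · rw [← h4]; exact O_to_left h1
    · rw [← h4]; exact O_to_right h1
  · rcases hV s ⟨t, h2, h3⟩ with h4 | ⟨h4, h5⟩ | ⟨h4, h5⟩
    · rw [h1, h4, segment_same, singleton_subset_iff]
      rw [h1, h4] at hz1 hz2
      exact ⟨hz1, hz2⟩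
    · rw [h1, h4, ← image_seg]
      exact hside s0 h5
    · rw [h1, h4, segment_symm, ← image_seg]
      exact hside s h5

theorem side_of_cond (hcomb : Comb K C o cls off δ) (hpos : ∀ k s, g k (v s) = R (cls k s) + tr w1 w2 (off k s))
    (hst : StarTable w1 w2 g (starOf cls off))
    (hd : DisjInt (fam w1 w2 g)) (hc : ∀ z, ∃ i, z ∈ T (fam w1 w2 g) i) (hcond : PropCond cls off δ)
    {i j : (ℤ × ℤ) × Fin K} (hij : j ≠ i) :
    ∃ S, IsSideOf v P (T (fam w1 w2 g) i) S ∧ T (fam w1 w2 g) i ∩ T (fam w1 w2 g) j ⊆ S := by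
  obtain ⟨p, k⟩ := i
  obtain ⟨q, l⟩ := j
  rcases (T (fam w1 w2 g) (p, k) ∩ T (fam w1 w2 g) (q, l)).eq_empty_or_nonempty with he | ⟨z0, hz1, hz2⟩
  · rw [he]
    exact ⟨_, ⟨fam w1 w2 g (p, k), rfl, 0, rfl⟩, empty_subset _⟩
  obtain ⟨s1, t1, hcl, hq⟩ := meet_star hcomb hpos hst hd hc hij hz1 hz2
  have hne : (off k s1 - off l t1, l) ≠ (0, k) := by
    intro h; apply hij
    simp only [Prod.mk.injEq] at h
    rw [hq, h.1, h.2, add_zero]
  obtain ⟨s0, hN, hV⟩ := hcond k s1 l t1 hcl hne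
  refine ⟨_, ⟨fam w1 w2 g (p, k), rfl, s0, rfl⟩, ?_⟩
  rintro z ⟨hz1, hz2⟩
  rw [hq] at hz2
  rcases meet_cases hcomb hpos hst hd hc hne hz1 hz2 with ⟨s, h1, h2, h3⟩ | ⟨s, h1, t, h2, h3⟩
  · have := hN s ⟨h2, h3⟩
    rw [← this]
    exact image_mono (openSegment_subset_segment _ _ _) h1
  · rcases hV s ⟨t, h2, h3⟩ with h4 | h4
    · rw [h1, h4]; exact ⟨v s0, left_mem_segment _ _ _, rfl⟩
    · rw [h1, h4]; exact ⟨v (s0 + 1), right_mem_segment _ _ _, rfl⟩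

theorem proper_of_cond (hcomb : Comb K C o cls off δ) (hpos : ∀ k s, g k (v s) = R (cls k s) + tr w1 w2 (off k s))
    (hst : StarTable w1 w2 g (starOf cls off))
    (hd : DisjInt (fam w1 w2 g)) (hc : ∀ z, ∃ i, z ∈ T (fam w1 w2 g) i) (hcond : PropCond cls off δ) :
    IsProper v P (Set.range (T (fam w1 w2 g))) := by
  rintro _ ⟨i, rfl⟩ _ ⟨j, rfl⟩ hne
  have hij : i ≠ j := fun h => hne (by rw [h])
  refine ⟨side_of_cond hcomb hpos hst hd hc hcond hij.symm, ?_⟩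
  rw [inter_comm]
  exact side_of_cond hcomb hpos hst hd hc hcond hij

theorem isTiling_of_fam {ι : Type*} [Countable ι] {f : ι → ℂ ≃ᵢ ℂ} (hd : DisjInt f) (hc : ∀ z, ∃ i, z ∈ T f i)
    (hP : Nonempty (P ≃ₜ Metric.closedBall (0 : ℂ) 1)) (hconn : ∀ i j, IsPreconnected (T f i ∩ T f j)) :
    IsTiling P (Set.range (T f)) := by
  refine ⟨countable_range _, ?_, ?_, ?_, ?_, ?_, ?_⟩
  · rintro _ ⟨i, rfl⟩; exact ⟨f i, rfl⟩
  · rw [eq_univ_iff_forall]
    intro z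
    obtain ⟨i, hi⟩ := hc z
    exact ⟨T f i, ⟨i, rfl⟩, hi⟩
  · rintro _ ⟨i, rfl⟩ _ ⟨j, rfl⟩ hne
    exact hd (fun h => hne (by rw [h]))
  · rintro _ ⟨i, rfl⟩
    obtain ⟨φ⟩ := hP
    exact ⟨((f i).toHomeomorph.image P).symm.trans φ⟩
  · obtain ⟨r, hr, hb⟩ := Metric.isOpen_iff.1 isOpen_sP ctr ctr_mem
    refine ⟨r / 2, 3, by positivity, ?_⟩
    rintro _ ⟨i, rfl⟩
    refine ⟨⟨f i ctr, ?_⟩, ⟨f i 0, T_sub_ball (f i)⟩⟩
    intro z hz
    rw [T, mem_image_iff]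
    apply sP_subset
    apply hb
    rw [mem_ball, ← (f i).dist_eq, IsometryEquiv.apply_symm_apply]
    rw [mem_closedBall] at hz
    linarith
  · rintro _ ⟨i, rfl⟩ _ ⟨j, rfl⟩
    exact hconn i j

end Pool.Agent.Helper72.Pent
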