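import Pool.Agent.Helper72.Pent.Shape2

set_option linter.all false

namespace Pool.Agent.Helper72.Pent

open MeasureTheory Set Metric Filter Topology
open scoped ENNReal

/-- the set S has area density d at z (d = half of the opening angle) -/
def HasDens (S : Set ℂ) (z : ℂ) (d : ℝ) : Prop :=
  ∀ᶠ ε in 𝓝[>] (0:ℝ), volume (S ∩ closedBall z ε) = ENNReal.ofReal (d * ε ^ 2)

theorem HasDens.congr {S S' : Set ℂ} {z : ℂ} {d : ℝ} (h : ∀ᶠ y in 𝓝 z, (y ∈ S ↔ y ∈ S')) (hd : HasDens S' z d) :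
    HasDens S z d := by
  obtain ⟨δ, hδ, hb⟩ := Metric.eventually_nhds_iff_ball.1 h
  have h1 : ∀ᶠ ε in 𝓝[>] (0:ℝ), ε < δ := by
    apply eventually_nhdsWithin_of_eventually_nhds
    exact gt_mem_nhds hδ
  filter_upwards [hd, h1] with ε h2 h3
  rw [← h2]
  congr 1
  ext y
  constructor
  · rintro ⟨h4, h5⟩
    exact ⟨(hb y (lt_of_le_of_lt h5 h3)).1 h4, h5⟩
  · rintro ⟨h4, h5⟩
    exact ⟨(hb y (lt_of_le_of_lt h5 h3)).2 h4, h5⟩

theorem ev_pos_ε : ∀ᶠ ε in 𝓝[>] (0:ℝ), 0 < ε := eventually_mem_nhdsWithin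

theorem HasDens.unique {S : Set ℂ} {z : ℂ} {d d' : ℝ} (h : HasDens S z d) (h' : HasDens S z d') (hd : 0 ≤ d) (hd' : 0 ≤ d') :
    d = d' := by
  obtain ⟨ε, h1, h2, h3⟩ := (h.and (h'.and ev_pos_ε)).exists
  rw [h1, ENNReal.ofReal_eq_ofReal_iff (by positivity) (by positivity)] at h2
  have : ε ^ 2 ≠ 0 := by positivity
  exact mul_right_cancel₀ this h2

theorem v_inj : Function.Injective v := by
  intro j k hjk
  have h0 : (v j).im = (v k).im := by rw [hjk]
  have h1 : (v j).re = (v k).re := by rw [hjk]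
  have hc := c_pos; have hs := s_pos; have hh := h_pos; have a1 := k1; have a2 := k2; have a3 := k3; have a4 := k4; have a5 := k5; have a6 := k6; have a7 := k7
  have := h_lb; have := c_ub; have := c_lb; have := s_ub
  fin_cases j <;> fin_cases k <;> first
    | rfl
    | (exfalso; simp [v] at h0 h1; linarith)
    | (exfalso; simp [v] at h0 h1)

/-- densities at the vertices -/
noncomputable def dv : Fin 5 → ℝ :=
  ![(Real.pi / 2 - u) / 2, (Real.pi / 2 - 3 * u) / 2, (Real.pi + 2 * u) / 2, 2 * u, (Real.pi - 2 * u) / 2]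

open Classical in
/-- density function of the pentagon -/
noncomputable def dens (z : ℂ) : ℝ :=
  if h : ∃ k, z = v k then dv h.choose else if z ∈ sP then Real.pi else if z ∈ P then Real.pi / 2 else 0

theorem dens_v (k : Fin 5) : dens (v k) = dv k := by
  have h : ∃ j, v k = v j := ⟨k, rfl⟩
  rw [dens, dif_pos h, ← v_inj h.choose_spec]

theorem sP_ne_v {z : ℂ} (hz : z ∈ sP) : ¬ ∃ k, z = v k := by
  rintro ⟨k, rfl⟩; exact v_not_sP k hz

theorem O_ne_v {k : Fin 5} {z : ℂ} (hz : z ∈ O k) : ¬ ∃ k, z = v k := by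
  rintro ⟨j, rfl⟩; exact v_not_O hz

theorem dens_sP {z : ℂ} (hz : z ∈ sP) : dens z = Real.pi := by
  rw [dens, dif_neg (sP_ne_v hz), if_pos hz]

theorem dens_O {k : Fin 5} {z : ℂ} (hz : z ∈ O k) : dens z = Real.pi / 2 := by
  rw [dens, dif_neg (O_ne_v hz), if_neg (O_not_sP hz), if_pos (O_sub_P hz)]

theorem dens_out {z : ℂ} (hz : z ∉ P) : dens z = 0 := by
  have h1 : ¬ ∃ k, z = v k := by
    rintro ⟨k, rfl⟩; exact hz (v_mem_P k)
  rw [dens, dif_neg h1, if_neg (fun h => hz (sP_subset h)), if_neg hz]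

/-- directions of the sides -/
noncomputable def dir : Fin 5 → ℝ :=
  ![0, Real.pi / 2 + 3 * u, Real.pi / 2 + u, -(Real.pi / 2 + 3 * u), -(Real.pi / 2 + u)]

theorem dir_eq (k : Fin 5) : v (k + 1) - v k = e (dir k) := by
  fin_cases k
  · show v 1 - v 0 = e 0
    rw [v1, v0]; apply Complex.ext <;> simp [e]
  · show v 2 - v 1 = e (Real.pi / 2 + 3 * u)
    rw [v2, v1]
    apply Complex.ext
    · simp only [Complex.sub_re, Complex.one_re, e, add_comm (Real.pi / 2), Real.cos_add_pi_div_two, sin_3u]; ring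
    · simp only [Complex.sub_im, Complex.one_im, e, add_comm (Real.pi / 2), Real.sin_add_pi_div_two, cos_3u]; ring
  · show v 3 - v 2 = e (Real.pi / 2 + u)
    rw [v3, v2]
    apply Complex.ext
    · simp only [Complex.sub_re, e, add_comm (Real.pi / 2), Real.cos_add_pi_div_two, sin_u]; ring
    · simp only [Complex.sub_im, e, add_comm (Real.pi / 2), Real.sin_add_pi_div_two, cos_u]; ring
  · show v 4 - v 3 = e (-(Real.pi / 2 + 3 * u))
    rw [v4, v3]
    apply Complex.ext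
    · simp only [Complex.sub_re, e, Real.cos_neg, add_comm (Real.pi / 2), Real.cos_add_pi_div_two, sin_3u]; ring
    · simp only [Complex.sub_im, e, Real.sin_neg, add_comm (Real.pi / 2), Real.sin_add_pi_div_two, cos_3u]; ring
  · show v 0 - v 4 = e (-(Real.pi / 2 + u))
    rw [v0, v4]
    apply Complex.ext
    · simp only [Complex.sub_re, Complex.zero_re, e, Real.cos_neg, add_comm (Real.pi / 2), Real.cos_add_pi_div_two, sin_u]; ring
    · simp only [Complex.sub_im, Complex.zero_im, e, Real.sin_neg, add_comm (Real.pi / 2), Real.sin_add_pi_div_two, cos_u]; ring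

theorem L_dir (k : Fin 5) (y : ℂ) : L k y = cross (e (dir k)) (y - v k) := by
  rw [L, dir_eq]

theorem L_base {k : Fin 5} {z : ℂ} (hz : L k z = 0) (y : ℂ) : L k y = cross (e (dir k)) (y - z) := by
  rw [L_dir] at hz ⊢
  rw [show y - v k = (y - z) + (z - v k) by ring, cross_add_right, hz, add_zero]

theorem L_next (k : Fin 5) : L k (v (k + 1)) = 0 := by
  simp only [L, cross]; ring

theorem L_self (k : Fin 5) : L k (v k) = 0 := by
  rw [L]; simp [cross]

theorem hasDens_O {k : Fin 5} {z : ℂ} (hz : z ∈ O k) (hloc : ∀ᶠ y in 𝓝 z, (y ∈ P ↔ 0 ≤ L k y)) (hL : L k z = 0) :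
    HasDens P z (Real.pi / 2) := by
  apply HasDens.congr (S' := {y : ℂ | 0 ≤ cross (e (dir k)) (y - z)})
  · filter_upwards [hloc] with y hy
    rw [hy, L_base hL]
  · filter_upwards [ev_pos_ε] with ε hε
    exact half_area z (dir k) ε hε.le

theorem loc_O {k : Fin 5} {z : ℂ} (hz : z ∈ O k) :
    L k z = 0 ∧ (∀ᶠ y in 𝓝 z, (y ∈ P ↔ 0 ≤ L k y)) ∧ (∀ᶠ y in 𝓝 z, (y ∈ sP ↔ 0 < L k y)) := by
  fin_cases k
  · obtain ⟨h0, h3, h4, h1⟩ := O0 hz
    refine ⟨h0, ?_, ?_⟩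
    · filter_upwards [ev_pos h3, ev_pos h4, ev_pos h1] with y y3 y4 y1
      rw [mem_P]; exact ⟨fun h => h.1, fun h => ⟨h, y3.le, y4.le, Or.inl y1.le⟩⟩
    · filter_upwards [ev_pos h3, ev_pos h4, ev_pos h1] with y y3 y4 y1
      rw [mem_sP]; exact ⟨fun h => h.1, fun h => ⟨h, y3, y4, Or.inl y1⟩⟩
  · obtain ⟨h1, h0, h3, h4, h2⟩ := O1 hz
    refine ⟨h1, ?_, ?_⟩
    · filter_upwards [ev_pos h3, ev_pos h4, ev_pos h0, ev_neg h2] with y y3 y4 y0 y2
      rw [mem_P]; exact ⟨fun h => h.2.2.2.resolve_right (not_le.2 y2), fun h => ⟨y0.le, y3.le, y4.le, Or.inl h⟩⟩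
    · filter_upwards [ev_pos h3, ev_pos h4, ev_pos h0, ev_neg h2] with y y3 y4 y0 y2
      rw [mem_sP]; exact ⟨fun h => h.2.2.2.resolve_right (not_lt.2 y2.le), fun h => ⟨y0, y3, y4, Or.inl h⟩⟩
  · obtain ⟨h1, h0, h3, h4, h2⟩ := O2 hz
    refine ⟨h1, ?_, ?_⟩
    · filter_upwards [ev_pos h3, ev_pos h4, ev_pos h0, ev_neg h2] with y y3 y4 y0 y2
      rw [mem_P]; exact ⟨fun h => h.2.2.2.resolve_left (not_le.2 y2), fun h => ⟨y0.le, y3.le, y4.le, Or.inr h⟩⟩
    · filter_upwards [ev_pos h3, ev_pos h4, ev_pos h0, ev_neg h2] with y y3 y4 y0 y2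
      rw [mem_sP]; exact ⟨fun h => h.2.2.2.resolve_left (not_lt.2 y2.le), fun h => ⟨y0, y3, y4, Or.inr h⟩⟩
  · obtain ⟨h3, h0, h4, h2⟩ := O3 hz
    refine ⟨h3, ?_, ?_⟩
    · filter_upwards [ev_pos h0, ev_pos h4, ev_pos h2] with y y0 y4 y2
      rw [mem_P]; exact ⟨fun h => h.2.1, fun h => ⟨y0.le, h, y4.le, Or.inr y2.le⟩⟩
    · filter_upwards [ev_pos h0, ev_pos h4, ev_pos h2] with y y0 y4 y2
      rw [mem_sP]; exact ⟨fun h => h.2.1, fun h => ⟨y0, h, y4, Or.inr y2⟩⟩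
  · obtain ⟨h4, h0, h3, h1, h2⟩ := O4 hz
    refine ⟨h4, ?_, ?_⟩
    · filter_upwards [ev_pos h0, ev_pos h3, ev_pos h2] with y y0 y3 y2
      rw [mem_P]; exact ⟨fun h => h.2.2.1, fun h => ⟨y0.le, y3.le, h, Or.inr y2.le⟩⟩
    · filter_upwards [ev_pos h0, ev_pos h3, ev_pos h2] with y y0 y3 y2
      rw [mem_sP]; exact ⟨fun h => h.2.2.1, fun h => ⟨y0, y3, h, Or.inr y2⟩⟩

theorem e_add_pi (α : ℝ) : e (α + Real.pi) = - e α := by
  apply Complex.ext <;> simp [e]

theorem e_sub_pi (α : ℝ) : e (α - Real.pi) = - e α := by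
  apply Complex.ext <;> simp [e]

theorem u_pos : 0 < u := lt_trans (by positivity) u_lb

/-- convex vertex: near v (k+1) the set {0 ≤ L (k+1), 0 ≤ L k} has density θ/2 -/
theorem dens_convex (k : Fin 5) (θ : ℝ) (h0 : 0 < θ) (h1 : θ < Real.pi)
    (hθ : e (dir (k + 1) + θ) = - e (dir k)) (S : Set ℂ)
    (hS : ∀ᶠ y in 𝓝 (v (k + 1)), (y ∈ S ↔ 0 ≤ L (k + 1) y ∧ 0 ≤ L k y)) : HasDens S (v (k + 1)) (θ / 2) := by
  apply HasDens.congr (S' := {y : ℂ | 0 ≤ cross (e (dir (k + 1))) (y - v (k + 1)) ∧ cross (e (dir (k + 1) + θ)) (y - v (k + 1)) ≤ 0})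
  · filter_upwards [hS] with y hy
    rw [hy, L_base (L_self (k + 1)), L_base (L_next k)]
    show _ ↔ 0 ≤ cross (e (dir (k + 1))) (y - v (k + 1)) ∧ cross (e (dir (k + 1) + θ)) (y - v (k + 1)) ≤ 0
    rw [hθ, cross_neg_left, neg_nonpos]
  · filter_upwards [ev_pos_ε] with ε hε
    exact cone_area _ _ _ ε h0 h1 hε.le

theorem u_lt : 3 * u < Real.pi / 2 := by linarith [u_ub, Real.pi_pos]

theorem hd1 : HasDens P (v 1) (dv 1) := by
  apply dens_convex 0 (Real.pi / 2 - 3 * u) (by linarith [u_lt]) (by linarith [u_pos, Real.pi_pos])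
  · show e (Real.pi / 2 + 3 * u + (Real.pi / 2 - 3 * u)) = - e 0
    rw [show Real.pi / 2 + 3 * u + (Real.pi / 2 - 3 * u) = 0 + Real.pi by ring, e_add_pi]
  · have p3 : 0 < L 3 (v 1) := by rw [T31]; exact k5
    have p4 : 0 < L 4 (v 1) := by rw [T41]; exact c_pos
    have p2 : L 2 (v 1) < 0 := by rw [T21]; linarith [k1]
    filter_upwards [ev_pos p3, ev_pos p4, ev_neg p2] with y y3 y4 y2
    rw [mem_P]
    exact ⟨fun h => ⟨h.2.2.2.resolve_right (not_le.2 y2), h.1⟩, fun h => ⟨h.2, y3.le, y4.le, Or.inl h.1⟩⟩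

theorem hd0 : HasDens P (v 0) (dv 0) := by
  apply dens_convex 4 (Real.pi / 2 - u) (by linarith [u_lt, u_pos]) (by linarith [u_pos, Real.pi_pos])
  · show e (0 + (Real.pi / 2 - u)) = - e (-(Real.pi / 2 + u))
    rw [show 0 + (Real.pi / 2 - u) = -(Real.pi / 2 + u) + Real.pi by ring, e_add_pi]
  · have p3 : 0 < L 3 (v 0) := by rw [T30]; exact k1
    have p1 : 0 < L 1 (v 0) := by rw [T10]; exact k2
    show ∀ᶠ y in 𝓝 (v 0), (y ∈ P ↔ 0 ≤ L 0 y ∧ 0 ≤ L 4 y)
    filter_upwards [ev_pos p3, ev_pos p1] with y y3 y1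
    rw [mem_P]
    exact ⟨fun h => ⟨h.1, h.2.2.1⟩, fun h => ⟨h.1, y3.le, h.2, Or.inl y1.le⟩⟩

theorem hd3 : HasDens P (v 3) (dv 3) := by
  have : dv 3 = 4 * u / 2 := by show 2 * u = _; ring
  rw [this]
  apply dens_convex 2 (4 * u) (by linarith [u_pos]) (by linarith [u_pos, Real.pi_pos, u_ub])
  · show e (-(Real.pi / 2 + 3 * u) + 4 * u) = - e (Real.pi / 2 + u)
    rw [show -(Real.pi / 2 + 3 * u) + 4 * u = Real.pi / 2 + u - Real.pi by ring, e_sub_pi]
  · have p0 : 0 < L 0 (v 3) := by rw [T03]; exact h_pos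
    have p4 : 0 < L 4 (v 3) := by rw [T43]; exact k1
    have p1 : L 1 (v 3) < 0 := by rw [T13]; linarith [k1]
    show ∀ᶠ y in 𝓝 (v 3), (y ∈ P ↔ 0 ≤ L 3 y ∧ 0 ≤ L 2 y)
    filter_upwards [ev_pos p0, ev_pos p4, ev_neg p1] with y y0 y4 y1
    rw [mem_P]
    exact ⟨fun h => ⟨h.2.1, h.2.2.2.resolve_left (not_le.2 y1)⟩, fun h => ⟨y0.le, h.1, y4.le, Or.inr h.2⟩⟩

theorem hd4 : HasDens P (v 4) (dv 4) := by
  apply dens_convex 3 (Real.pi - 2 * u) (by linarith [u_lt, u_pos]) (by linarith [u_pos, Real.pi_pos])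
  · show e (-(Real.pi / 2 + u) + (Real.pi - 2 * u)) = - e (-(Real.pi / 2 + 3 * u))
    rw [show -(Real.pi / 2 + u) + (Real.pi - 2 * u) = -(Real.pi / 2 + 3 * u) + Real.pi by ring, e_add_pi]
  · have p0 : 0 < L 0 (v 4) := by rw [T04]; exact c_pos
    have p1 : 0 < L 1 (v 4) := by rw [T14]; exact k6
    show ∀ᶠ y in 𝓝 (v 4), (y ∈ P ↔ 0 ≤ L 4 y ∧ 0 ≤ L 3 y)
    filter_upwards [ev_pos p0, ev_pos p1] with y y0 y1
    rw [mem_P]
    exact ⟨fun h => ⟨h.2.2.1, h.2.1⟩, fun h => ⟨y0.le, h.2, h.1, Or.inl y1.le⟩⟩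

theorem hd2 : HasDens P (v 2) (dv 2) := by
  apply HasDens.congr (S' := {y : ℂ | 0 < cross (e (-(Real.pi / 2) + 3 * u)) (y - v 2) ∧ cross (e (-(Real.pi / 2) + 3 * u + (Real.pi - 2 * u))) (y - v 2) < 0}ᶜ)
  · have p0 : 0 < L 0 (v 2) := by rw [T02]; exact k2
    have p3 : 0 < L 3 (v 2) := by rw [T32]; exact k4
    have p4 : 0 < L 4 (v 2) := by rw [T42]; have := k1; have := c_pos; have := s_pos; positivity
    filter_upwards [ev_pos p0, ev_pos p3, ev_pos p4] with y y0 y3 y4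
    have e1 : e (-(Real.pi / 2) + 3 * u) = - e (dir 1) := by
      show _ = - e (Real.pi / 2 + 3 * u)
      rw [show -(Real.pi / 2) + 3 * u = Real.pi / 2 + 3 * u - Real.pi by ring, e_sub_pi]
    have e2 : e (-(Real.pi / 2) + 3 * u + (Real.pi - 2 * u)) = e (dir 2) := by
      show _ = e (Real.pi / 2 + u)
      congr 1; ring
    have l1 : L 1 y = cross (e (dir 1)) (y - v 2) := L_base (L_next 1) y
    have l2 : L 2 y = cross (e (dir 2)) (y - v 2) := L_base (L_self 2) y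
    rw [mem_P, mem_compl_iff, mem_ofPred_eq, e1, e2, cross_neg_left, ← l1, ← l2]
    constructor
    · rintro ⟨-, -, -, h⟩ ⟨h1, h2⟩
      rcases h with h | h <;> linarith
    · intro h
      refine ⟨y0.le, y3.le, y4.le, ?_⟩
      by_contra hc
      push Not at hc
      exact h ⟨by linarith [hc.1], hc.2⟩
  · filter_upwards [ev_pos_ε] with ε hε
    have h1 := cone_area' (v 2) (-(Real.pi / 2) + 3 * u) (Real.pi - 2 * u) ε (by linarith [u_lt, u_pos]) (by linarith [u_pos, Real.pi_pos]) hε.le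
    set K := {y : ℂ | 0 < cross (e (-(Real.pi / 2) + 3 * u)) (y - v 2) ∧ cross (e (-(Real.pi / 2) + 3 * u + (Real.pi - 2 * u))) (y - v 2) < 0} with hK
    have hKm : MeasurableSet K := by
      have : Continuous (fun z : ℂ => z - v 2) := by fun_prop
      exact this.measurable (meas_cone' _ _)
    have h2 : Kᶜ ∩ closedBall (v 2) ε = closedBall (v 2) ε \ (K ∩ closedBall (v 2) ε) := by
      ext y; simp only [mem_inter_iff, mem_compl_iff, mem_diff]; tauto
    rw [h2, measure_diff inter_subset_right (hKm.inter isClosed_closedBall.measurableSet).nullMeasurableSet, h1,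
      (ball_area (v 2) ε).resolve_right (by linarith), ← ENNReal.ofReal_sub]
    · congr 1
      show _ = (Real.pi + 2 * u) / 2 * ε ^ 2
      ring
    · have := u_lt; have := u_pos
      have : 0 ≤ (Real.pi - 2 * u) / 2 := by linarith
      positivity
    · rw [h1]; exact ENNReal.ofReal_ne_top

theorem hasDens_P (z : ℂ) : HasDens P z (dens z) := by
  by_cases hz : z ∈ P
  · rcases P_cases hz with h | ⟨k, h⟩ | ⟨k, rfl⟩
    · rw [dens_sP h]
      apply HasDens.congr (S' := univ)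
      · filter_upwards [isOpen_sP.mem_nhds h] with y hy
        simp [sP_subset hy]
      · filter_upwards [ev_pos_ε] with ε hε
        rw [univ_inter, (ball_area z ε).resolve_right (by linarith)]
    · rw [dens_O h]
      exact hasDens_O h (loc_O h).2.1 (loc_O h).1
    · rw [dens_v]
      fin_cases k
      · exact hd0
      · exact hd1
      · exact hd2
      · exact hd3
      · exact hd4
  · rw [dens_out hz]
    apply HasDens.congr (S' := ∅)
    · filter_upwards [isClosed_P.isOpen_compl.mem_nhds hz] with y hy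
      simp only [mem_empty_iff_false, iff_false]; exact hy
    · filter_upwards [ev_pos_ε] with ε hε
      simp

end Pool.Agent.Helper72.Pent
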