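import Pool.Agent.Helper72.Pent.Topo

set_option linter.all false

namespace Pool.Agent.Helper72.Pent

open MeasureTheory Set Metric Filter Topology
open scoped ENNReal

/-- clamped coordinate -/
noncomputable def xc (x : ℝ) : ℝ := max (1/2) (min x (1/2 + s))

theorem continuous_xc : Continuous xc := by unfold xc; fun_prop

theorem xc_lb (x : ℝ) : 1/2 ≤ xc x := le_max_left _ _
theorem xc_ub (x : ℝ) : xc x ≤ 1/2 + s := by
  unfold xc; apply max_le
  · linarith [s_pos]
  · exact min_le_right _ _

noncomputable def ρn (x : ℝ) : ℝ := 2 * h * (1 - xc x) * s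
noncomputable def ρd (x : ℝ) : ℝ := s * h - c * (xc x - 1/2)

theorem ρn_pos (x : ℝ) : 0 < ρn x := by
  have := xc_ub x; have := s_ub; have := s_pos; have := h_pos
  have : 0 < 1 - xc x := by linarith
  unfold ρn; positivity

theorem ρd_pos (x : ℝ) : 0 < ρd x := by
  have h1 := xc_ub x; have := s_ub; have h2 := s_pos; have := k2; have h3 := c_pos
  have : c * (xc x - 1/2) ≤ c * s := by apply mul_le_mul_of_nonneg_left _ h3.le; linarith
  unfold ρd; nlinarith

/-- scaling factor -/
noncomputable def ρ (x : ℝ) : ℝ := ρn x / ρd x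

theorem ρ_pos (x : ℝ) : 0 < ρ x := div_pos (ρn_pos x) (ρd_pos x)

theorem continuous_ρ : Continuous ρ := by
  unfold ρ
  apply Continuous.div
  · unfold ρn; have := continuous_xc; fun_prop
  · unfold ρd; have := continuous_xc; fun_prop
  · intro x; exact (ρd_pos x).ne'

/-- vertical scaling homeomorphism of the plane -/
noncomputable def G : ℂ ≃ₜ ℂ where
  toFun z := ⟨z.re, z.im * ρ z.re⟩
  invFun z := ⟨z.re, z.im / ρ z.re⟩
  left_inv z := by
    apply Complex.ext
    · rfl
    · show z.im * ρ z.re / ρ z.re = z.im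
      have := (ρ_pos z.re).ne'; field_simp
  right_inv z := by
    apply Complex.ext
    · rfl
    · show z.im / ρ z.re * ρ z.re = z.im
      have := (ρ_pos z.re).ne'; field_simp
  continuous_toFun := by
    have h1 := continuous_ρ
    apply Complex.equivRealProdCLM.symm.continuous.comp (f := fun z : ℂ => (z.re, z.im * ρ z.re))
    fun_prop
  continuous_invFun := by
    have h1 := continuous_ρ
    apply Complex.equivRealProdCLM.symm.continuous.comp (f := fun z : ℂ => (z.re, z.im / ρ z.re))
    apply Continuous.prodMk Complex.continuous_re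
    apply Complex.continuous_im.div (h1.comp Complex.continuous_re)
    intro z; exact (ρ_pos _).ne'

theorem G_re (z : ℂ) : (G z).re = z.re := rfl
theorem G_im (z : ℂ) : (G z).im = z.im * ρ z.re := rfl

/-- the convex hull -/
def Q : Set ℂ := {z | 0 ≤ L 0 z ∧ 0 ≤ L 3 z ∧ 0 ≤ L 4 z ∧ 0 ≤ 2 * h * (1 - z.re) - z.im}

theorem ρ_left {x : ℝ} (hx : x ≤ 1/2) : ρ x = 1 := by
  have h1 : xc x = 1/2 := by
    unfold xc; rw [min_eq_left (by linarith [s_pos]), max_eq_left hx]
  have := s_pos; have := h_pos
  rw [ρ, ρn, ρd, h1]; field_simp; ring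

theorem M_mid {x y : ℝ} (h0 : 1/2 ≤ x) (h1 : x ≤ 1/2 + s) :
    2 * h * (1 - x) - y * ρ x = (2 * h * (1 - x) / (s * h - c * (x - 1/2))) * (-s * (y - (h - c)) - c * (x - 1/2 - s)) := by
  have h2 : xc x = x := by
    unfold xc; rw [min_eq_left h1, max_eq_right h0]
  have h3 := ρd_pos x
  rw [ρ, ρn]
  rw [ρd] at h3 ⊢
  rw [h2] at h3 ⊢
  have h4 : -s * (y - (h - c)) - c * (x - 1/2 - s) = (s * h - c * (x - 1/2)) - s * y := by ring
  rw [h4]
  generalize s * h - c * (x - 1/2) = D at h3
  field_simp

theorem M_right {x y : ℝ} (h1 : 1/2 + s ≤ x) :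
    2 * h * (1 - x) - y * ρ x = (2 * h / (h - c)) * ((s - 1/2) * y - (h - c) * (x - 1)) := by
  have h2 : xc x = 1/2 + s := by
    unfold xc; rw [min_eq_right h1, max_eq_right (by linarith [s_pos])]
  have h3 := k2
  have h4 := s_pos
  have h5 : s * h - c * (1/2 + s - 1/2) ≠ 0 := by
    have : s * h - c * (1/2 + s - 1/2) = s * (h - c) := by ring
    rw [this]; positivity
  rw [ρ, ρn, ρd, h2]
  have h6 : s * h - c * (1/2 + s - 1/2) = s * (h - c) := by ring
  rw [h6]
  field_simp
  ring

theorem G_mem (z : ℂ) : z ∈ P ↔ G z ∈ Q := by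
  have hs := s_pos; have hc := c_pos; have hh := h_pos; have a1 := k1; have a2 := k2; have a3 := k3
  have hρ := ρ_pos z.re
  have hy : 0 ≤ (G z).im ↔ 0 ≤ z.im := by
    rw [G_im]; exact mul_nonneg_iff_of_pos_right hρ
  rw [mem_P, Q, mem_ofPred_eq, L0, L0, hy, L3, L3, L4, L4, L1, L2, G_re, G_im]
  set x := z.re
  set y := z.im
  rcases le_total x (1/2) with hx | hx
  · rw [ρ_left hx, mul_one]
    constructor
    · rintro ⟨p0, p3, p4, _⟩
      refine ⟨p0, p3, p4, ?_⟩
      have : y ≤ h := by
        by_contra hcc; push Not at hcc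
        nlinarith [mul_pos a3 (sub_pos.2 hcc), mul_nonneg a2.le (sub_nonneg.2 hx)]
      nlinarith
    · rintro ⟨p0, p3, p4, _⟩
      refine ⟨p0, p3, p4, Or.inr ?_⟩
      have : y ≤ h := by
        by_contra hcc; push Not at hcc
        nlinarith [mul_pos a3 (sub_pos.2 hcc), mul_nonneg a2.le (sub_nonneg.2 hx)]
      nlinarith
  have key : ∀ t, 0 ≤ t → t ≤ h → 0 ≤ (s - 1/2) * (t - h) + (h - c) * (x - 1/2) ∧ 0 ≤ c * x - s * t := by
    intro t ht0 ht
    constructor
    · have : 0 ≤ (h - c) * (x - 1/2) := mul_nonneg a2.le (by linarith)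
      have : 0 ≤ (s - 1/2) * (t - h) := mul_nonneg_of_nonpos_of_nonpos (by linarith) (by linarith)
      linarith
    · nlinarith
  rcases le_total x (1/2 + s) with hx2 | hx2
  · have hd : 0 < 2 * h * (1 - x) / (s * h - c * (x - 1/2)) := by
      apply div_pos
      · apply mul_pos (by positivity)
        linarith [s_ub]
      · have h1 : c * (x - 1/2) ≤ c * s := mul_le_mul_of_nonneg_left (by linarith) hc.le
        nlinarith
    rw [M_mid hx hx2]
    constructor
    · rintro ⟨p0, p3, p4, p12⟩
      have h2 : 0 ≤ -s * (y - (h - c)) - c * (x - 1/2 - s) := by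
        rcases p12 with p | p
        · -- L1 ≥ 0 gives L2 ≥ 0
          have e1 : (1/2 - s) * y ≤ (h - c) * (1 - x) := by linarith
          have e2 : (1/2 - s) * (-s * (y - (h - c)) - c * (x - 1/2 - s)) =
              s * ((h - c) * (1 - x) - (1/2 - s) * y) + (1/2 + s - x) * (c / 2 - s * h) := by ring
          have e3 : 0 ≤ (1/2 - s) * (-s * (y - (h - c)) - c * (x - 1/2 - s)) := by
            rw [e2]
            have := mul_nonneg hs.le (sub_nonneg.2 e1)
            have := mul_nonneg (sub_nonneg.2 hx2) a1.le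
            linarith
          exact nonneg_of_mul_nonneg_right e3 a3
        · exact p
      have h3 := mul_nonneg hd.le h2
      have h4 : y * ρ x ≤ h := by
        rw [← M_mid hx hx2] at h3
        nlinarith
      have h5 : 0 ≤ y * ρ x := mul_nonneg p0 hρ.le
      exact ⟨p0, (key _ h5 h4).1, (key _ h5 h4).2, h3⟩
    · rintro ⟨p0, p3, p4, p12⟩
      have h2 : 0 ≤ -s * (y - (h - c)) - c * (x - 1/2 - s) := nonneg_of_mul_nonneg_right p12 hd
      have h4 : y ≤ h := by
        have : s * y ≤ s * h := by nlinarith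
        exact le_of_mul_le_mul_left this hs
      exact ⟨p0, (key _ p0 h4).1, (key _ p0 h4).2, Or.inr h2⟩
  · have hd : 0 < 2 * h / (h - c) := by positivity
    rw [M_right hx2]
    constructor
    · rintro ⟨p0, p3, p4, p12⟩
      have h2 : 0 ≤ (s - 1/2) * y - (h - c) * (x - 1) := by
        rcases p12 with p | p
        · exact p
        · have e2 : s * ((s - 1/2) * y - (h - c) * (x - 1)) =
              (1/2 - s) * (-s * (y - (h - c)) - c * (x - 1/2 - s)) + (x - 1/2 - s) * (c / 2 - s * h) := by ring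
          have e3 : 0 ≤ s * ((s - 1/2) * y - (h - c) * (x - 1)) := by
            rw [e2]
            have := mul_nonneg a3.le p
            have : 0 ≤ (x - 1/2 - s) * (c / 2 - s * h) := mul_nonneg (by linarith) a1.le
            linarith
          exact nonneg_of_mul_nonneg_right e3 hs
      have h3 := mul_nonneg hd.le h2
      have h4 : y * ρ x ≤ h := by
        rw [← M_right hx2] at h3
        nlinarith
      have h5 : 0 ≤ y * ρ x := mul_nonneg p0 hρ.le
      exact ⟨p0, (key _ h5 h4).1, (key _ h5 h4).2, h3⟩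
    · rintro ⟨p0, p3, p4, p12⟩
      have h2 : 0 ≤ (s - 1/2) * y - (h - c) * (x - 1) := nonneg_of_mul_nonneg_right p12 hd
      have h4 : y ≤ h := by
        have e1 : (1/2 - s) * y ≤ (1/2 - s) * h := by nlinarith
        exact le_of_mul_le_mul_left e1 a3
      exact ⟨p0, (key _ p0 h4).1, (key _ p0 h4).2, Or.inl h2⟩

theorem G_image : G '' P = Q := by
  ext w
  constructor
  · rintro ⟨z, hz, rfl⟩; exact (G_mem z).1 hz
  · intro hw
    refine ⟨G.symm w, ?_, G.apply_symm_apply w⟩
    rw [G_mem, G.apply_symm_apply]; exact hw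

/-- the fifth line form -/
noncomputable def M (z : ℂ) : ℝ := 2 * h * (1 - z.re) - z.im

theorem continuous_M : Continuous M := by unfold M; fun_prop

theorem convex_half (k : Fin 5) : Convex ℝ {z | 0 ≤ L k z} := by
  intro x hx y hy a b ha hb hab
  rw [mem_ofPred_eq] at hx hy ⊢
  have h1 : a • x + b • y = x + (b : ℂ) * (y - x) := by
    have : (a : ℂ) = 1 - b := by rw [← Complex.ofReal_one, ← hab]; push_cast; ring
    rw [Complex.real_smul, Complex.real_smul, this]; ring
  rw [h1, L_affine]
  have : 1 - b = a := by linarith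
  rw [this]; positivity

theorem convex_Q : Convex ℝ Q := by
  have h1 : Convex ℝ {z | 0 ≤ M z} := by
    intro x hx y hy a b ha hb hab
    rw [mem_ofPred_eq] at hx hy ⊢
    have h2 : M (a • x + b • y) = a * M x + b * M y := by
      have : a = 1 - b := by linarith
      simp only [M, Complex.real_smul, Complex.add_re, Complex.add_im, Complex.mul_re, Complex.mul_im, Complex.ofReal_re, Complex.ofReal_im]
      rw [this]; ring
    rw [h2]; positivity
  exact ((convex_half 0).inter ((convex_half 3).inter ((convex_half 4).inter h1)))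

theorem isClosed_Q : IsClosed Q := by
  have := fun k => isClosed_le (continuous_const (y := (0:ℝ))) (continuous_L k)
  exact (this 0).inter ((this 3).inter ((this 4).inter (isClosed_le continuous_const continuous_M)))

theorem Q_ctr : ctr ∈ interior Q := by
  rw [mem_interior]
  refine ⟨{z | 0 < L 0 z ∧ 0 < L 3 z ∧ 0 < L 4 z ∧ 0 < M z}, ?_, ?_, ?_⟩
  · rintro z ⟨h0, h3, h4, h5⟩; exact ⟨h0.le, h3.le, h4.le, h5.le⟩
  · have := fun k => isOpen_lt (continuous_const (y := (0:ℝ))) (continuous_L k)
    exact (this 0).inter ((this 3).inter ((this 4).inter (isOpen_lt continuous_const continuous_M)))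
  · refine ⟨L_ctr 0, L_ctr 3, L_ctr 4, ?_⟩
    have := h_lb
    rw [M, ctr]; norm_num; linarith

theorem bounded_Q : Bornology.IsBounded Q := by
  rw [← G_image]
  exact (isCompact_P.image G.continuous).isBounded

theorem P_disk : Nonempty (P ≃ₜ Metric.closedBall (0 : ℂ) 1) := by
  obtain ⟨e, _, he, _⟩ := exists_homeomorph_image_interior_closure_frontier_eq_unitBall convex_Q ⟨ctr, Q_ctr⟩ bounded_Q
  rw [isClosed_Q.closure_eq] at he
  have h1 : (G.trans e) '' P = closedBall 0 1 := by
    rw [← he, ← G_image, image_image]; rfl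
  rw [← h1]
  exact ⟨(G.trans e).image P⟩

end Pool.Agent.Helper72.Pent
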