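import Pool.Agent.Helper72.Pent.Iso

set_option linter.all false

namespace Pool.Agent.Helper72.Pent

open MeasureTheory Set Metric Filter Topology
open scoped ENNReal

variable {ι : Type*} (f : ι → ℂ ≃ᵢ ℂ)

/-- the tiles of a family of isometries -/
def T (i : ι) : Set ℂ := f i '' P

def DisjInt : Prop := Pairwise fun i j => Disjoint (interior (T f i)) (interior (T f j))

theorem ctr_mem : ctr ∈ sP := ⟨L_ctr 0, L_ctr 3, L_ctr 4, Or.inl (L_ctr 1)⟩

theorem vol_sP_pos : 0 < volume sP := isOpen_sP.measure_pos volume ⟨ctr, ctr_mem⟩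

theorem T_sub_ball (g : ℂ ≃ᵢ ℂ) : g '' P ⊆ closedBall (g 0) 3 := by
  rintro _ ⟨z, hz, rfl⟩
  rw [mem_closedBall, g.dist_eq, dist_zero_right]
  exact P_norm hz

theorem locFin (hd : DisjInt f) : LocallyFinite (T f) := by
  intro z
  refine ⟨ball z 1, ball_mem_nhds z one_pos, ?_⟩
  set J := {i | (T f i ∩ ball z 1).Nonempty} with hJ
  have hsub : ∀ i : J, T f i ⊆ closedBall z 7 := by
    rintro ⟨i, y, hy1, hy2⟩ w hw
    have h1 := T_sub_ball (f i) hy1
    have h2 := T_sub_ball (f i) hw
    rw [mem_closedBall] at *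
    rw [mem_ball] at hy2
    calc dist w z ≤ dist w (f i 0) + dist (f i 0) y + dist y z := dist_triangle4 _ _ _ _
      _ ≤ 3 + 3 + 1 := by rw [dist_comm (f i 0) y]; linarith
      _ = 7 := by norm_num
  have h1 := Measure.finite_const_le_meas_of_disjoint_iUnion (volume : Measure ℂ) (ε := volume sP) vol_sP_pos
    (As := fun i : J => interior (T f i)) (fun i => isOpen_interior.measurableSet)
    (fun i j hij => hd (fun h => hij (Subtype.ext h))) (by
      apply ne_of_lt
      refine lt_of_le_of_lt (measure_mono (iUnion_subset fun i => interior_subset.trans (hsub i))) ?_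
      exact measure_closedBall_lt_top)
  have h2 : {i : J | volume sP ≤ volume (interior (T f i))} = univ := by
    ext i
    simp only [mem_ofPred_eq, mem_univ, iff_true]
    rw [T, interior_T, iso_vol]
  rw [h2] at h1
  exact Set.finite_coe_iff.1 (Set.finite_univ_iff.1 h1)

theorem isClosed_Ti (i : ι) : IsClosed (T f i) := isClosed_T (f i)

/-- the densities of the tiles at any point add up to π -/
theorem sum_dens (hd : DisjInt f) (hc : ∀ z, ∃ i, z ∈ T f i) (z : ℂ) :
    ∃ J : Finset ι, (∀ i, i ∈ J ↔ z ∈ T f i) ∧ ∑ i ∈ J, densT (f i) z = Real.pi := by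
  have hlf := locFin f hd
  have hfin := hlf.point_finite z
  refine ⟨hfin.toFinset, fun i => by simp, ?_⟩
  set J := hfin.toFinset with hJ
  have hJm : ∀ i, i ∈ J ↔ z ∈ T f i := fun i => by simp [hJ]
  have h1 := hlf.eventually_subset (isClosed_Ti f) z
  obtain ⟨δ, hδ, hb⟩ := Metric.eventually_nhds_iff_ball.1 h1
  have h2 : ∀ᶠ ε in 𝓝[>] (0:ℝ), ε < δ := by
    apply eventually_nhdsWithin_of_eventually_nhds
    exact gt_mem_nhds hδ
  have h3 : ∀ᶠ ε in 𝓝[>] (0:ℝ), ∀ i ∈ J, volume (T f i ∩ closedBall z ε) = ENNReal.ofReal (densT (f i) z * ε ^ 2) := by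
    rw [Finset.eventually_all]
    intro i _
    exact hasDensT (f i) z
  obtain ⟨ε, h4, h5, h6⟩ := (h2.and (h3.and ev_pos_ε)).exists
  have h7 : closedBall z ε = ⋃ i ∈ J, (T f i ∩ closedBall z ε) := by
    ext y
    simp only [mem_iUnion, mem_inter_iff, exists_prop]
    constructor
    · intro hy
      obtain ⟨i, hi⟩ := hc y
      exact ⟨i, (hJm i).2 (hb y (lt_of_le_of_lt hy h4) hi), hi, hy⟩
    · rintro ⟨i, _, _, hy⟩; exact hy
  have h8 : volume (closedBall z ε) = ∑ i ∈ J, volume (T f i ∩ closedBall z ε) := by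
    conv_lhs => rw [h7]
    apply measure_biUnion_finset₀
    · intro i _ j _ hij
      refine measure_mono_null ?_ (inter_null (hd hij))
      rintro y ⟨⟨h1, _⟩, h2, _⟩
      exact ⟨h1, h2⟩
    · intro i _
      exact ((isClosed_Ti f i).measurableSet.inter isClosed_closedBall.measurableSet).nullMeasurableSet
  rw [(ball_area z ε).resolve_right (by linarith), Finset.sum_congr rfl h5, ← ENNReal.ofReal_sum_of_nonneg,
    ENNReal.ofReal_eq_ofReal_iff, ← Finset.sum_mul] at h8
  · have : ε ^ 2 ≠ 0 := by positivity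
    exact (mul_right_cancel₀ this h8).symm
  · positivity
  · exact Finset.sum_nonneg fun i _ => mul_nonneg (densT_nonneg _ _) (by positivity)
  · exact fun i _ => mul_nonneg (densT_nonneg _ _) (by positivity)

/-- if some tiles through z already have total density π there are no others -/
theorem star_complete (hd : DisjInt f) (hc : ∀ z, ∃ i, z ∈ T f i) (z : ℂ) (F : Finset ι)
    (hF : ∀ i ∈ F, z ∈ T f i) (hs : ∑ i ∈ F, densT (f i) z = Real.pi) {j : ι} (hj : z ∈ T f j) : j ∈ F := by
  classical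
  obtain ⟨J, hJ, hJs⟩ := sum_dens f hd hc z
  by_contra hn
  have h1 : insert j F ⊆ J := by
    intro i hi
    rcases Finset.mem_insert.1 hi with rfl | hi
    · exact (hJ _).2 hj
    · exact (hJ _).2 (hF i hi)
  have h2 := Finset.sum_le_sum_of_subset_of_nonneg h1 (f := fun i => densT (f i) z) (fun i _ _ => densT_nonneg _ _)
  rw [Finset.sum_insert hn, hs, hJs] at h2
  have := densT_pos hj
  linarith

end Pool.Agent.Helper72.Pent
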