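import Pool.Agent.Helper72.Pent.Topo

set_option linter.all false

namespace Pool.Agent.Helper72.Pent

open MeasureTheory Set Metric Filter Topology
open scoped ENNReal

theorem iso_lin (f : ℂ ≃ᵢ ℂ) : ∃ g : ℂ ≃ₗᵢ[ℝ] ℂ, ∀ z, f z = g z + f 0 := by
  refine ⟨f.toRealLinearIsometryEquiv, fun z => ?_⟩
  rw [IsometryEquiv.toRealLinearIsometryEquiv_apply]; ring

/-- canonical form of isometries: orientation preserving (true) or reversing (false) -/
theorem iso_form (f : ℂ ≃ᵢ ℂ) : ∃ a : ℂ, ‖a‖ = 1 ∧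
    ((∀ z, f z = a * z + f 0) ∨ (∀ z, f z = a * (starRingEnd ℂ) z + f 0)) := by
  obtain ⟨g, hg⟩ := iso_lin f
  obtain ⟨a, ha⟩ := linear_isometry_complex g
  refine ⟨a, Circle.norm_coe a, ?_⟩
  rcases ha with ha | ha
  · left; intro z; rw [hg z, ha]; rfl
  · right; intro z; rw [hg z, ha]; rfl

theorem iso_mp (f : ℂ ≃ᵢ ℂ) : MeasurePreserving f volume volume := by
  obtain ⟨g, hg⟩ := iso_lin f
  have h1 : MeasurePreserving g volume volume := g.measurePreserving
  have h2 : (f : ℂ → ℂ) = (fun z => z + f 0) ∘ g := by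
    funext z; exact hg z
  rw [h2]
  exact (measurePreserving_add_right volume (f 0)).comp h1

theorem iso_vol (f : ℂ ≃ᵢ ℂ) (S : Set ℂ) : volume (f '' S) = volume S := by
  have h := (iso_mp f).measure_preimage_emb f.toHomeomorph.measurableEmbedding (f '' S)
  rw [← h]
  rw [preimage_image_eq S f.injective]

theorem HasDens.image {S : Set ℂ} {z : ℂ} {d : ℝ} (h : HasDens S z d) (f : ℂ ≃ᵢ ℂ) : HasDens (f '' S) (f z) d := by
  filter_upwards [h] with ε hε
  rw [← hε, ← iso_vol f (S ∩ closedBall z ε), image_inter f.injective, f.image_closedBall]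

theorem dens_symm {f : ℂ ≃ᵢ ℂ} (hf : f '' P = P) (z : ℂ) : dens (f z) = dens z := by
  have h1 := (hasDens_P z).image f
  rw [hf] at h1
  exact (hasDens_P (f z)).unique h1 (dens_nonneg _) (dens_nonneg _)

theorem eq_v_of_dens {z : ℂ} {k : Fin 5} (hz : dens z = dv k) : z = v k := by
  by_cases hp : z ∈ P
  · rcases P_cases hp with h | ⟨j, h⟩ | ⟨j, rfl⟩
    · rw [dens_sP h] at hz; exact absurd hz (dv_lt k).ne'
    · rw [dens_O h] at hz; exact absurd hz.symm (dv_ne_half k)
    · rw [dens_v] at hz; rw [dv_inj hz]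
  · rw [dens_out hp] at hz; exact absurd hz (dv_pos k).ne

theorem fix_v {f : ℂ ≃ᵢ ℂ} (hf : f '' P = P) (k : Fin 5) : f (v k) = v k := by
  apply eq_v_of_dens
  rw [dens_symm hf, dens_v]

theorem rigid {f : ℂ ≃ᵢ ℂ} (hf : f '' P = P) (z : ℂ) : f z = z := by
  have h0 := fix_v hf 0
  have h1 := fix_v hf 1
  have h2 := fix_v hf 2
  rw [v0] at h0; rw [v1] at h1
  obtain ⟨a, ha, h | h⟩ := iso_form f
  · have : a = 1 := by
      have := h 1; rw [h1, h0] at this; simpa using this.symm
    rw [h z, this, h0]; ring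
  · exfalso
    have ha1 : a = 1 := by
      have := h 1; rw [h1, h0] at this; simpa using this.symm
    have := h (v 2)
    rw [h2, ha1, h0, v2] at this
    have := congrArg Complex.im this
    simp at this
    linarith [k2]

theorem rigid' {f g : ℂ ≃ᵢ ℂ} (hfg : f '' P = g '' P) (z : ℂ) : f z = g z := by
  have h1 : (f.trans g.symm) '' P = P := by
    have h0 : ((f.trans g.symm : ℂ ≃ᵢ ℂ) : ℂ → ℂ) = g.symm ∘ f := rfl
    rw [h0, image_comp, hfg, ← image_comp]
    simp
  have h2 := rigid h1 z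
  have h3 : g.symm (f z) = z := h2
  calc f z = g (g.symm (f z)) := (g.apply_symm_apply _).symm
    _ = g z := by rw [h3]

/-- density of a congruent copy -/
noncomputable def densT (f : ℂ ≃ᵢ ℂ) (z : ℂ) : ℝ := dens (f.symm z)

theorem hasDensT (f : ℂ ≃ᵢ ℂ) (z : ℂ) : HasDens (f '' P) z (densT f z) := by
  have := (hasDens_P (f.symm z)).image f
  simpa [densT] using this

theorem densT_nonneg (f : ℂ ≃ᵢ ℂ) (z : ℂ) : 0 ≤ densT f z := dens_nonneg _

theorem mem_image_iff (f : ℂ ≃ᵢ ℂ) (S : Set ℂ) (z : ℂ) : z ∈ f '' S ↔ f.symm z ∈ S := by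
  constructor
  · rintro ⟨x, hx, rfl⟩; simpa using hx
  · intro h; exact ⟨f.symm z, h, by simp⟩

theorem densT_pos {f : ℂ ≃ᵢ ℂ} {z : ℂ} (hz : z ∈ f '' P) : 0 < densT f z := dens_pos ((mem_image_iff f P z).1 hz)

theorem densT_out {f : ℂ ≃ᵢ ℂ} {z : ℂ} (hz : z ∉ f '' P) : densT f z = 0 := dens_out (fun h => hz ((mem_image_iff f P z).2 h))

theorem isClosed_T (f : ℂ ≃ᵢ ℂ) : IsClosed (f '' P) := (f.toHomeomorph.isClosed_image).2 isClosed_P
theorem isCompact_T (f : ℂ ≃ᵢ ℂ) : IsCompact (f '' P) := isCompact_P.image f.continuous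

theorem interior_T (f : ℂ ≃ᵢ ℂ) : interior (f '' P) = f '' sP := by
  have := f.toHomeomorph.image_interior P
  rw [interior_P] at this
  exact this.symm

theorem frontier_T (f : ℂ ≃ᵢ ℂ) : frontier (f '' P) = f '' frontier P := (f.toHomeomorph.image_frontier P).symm

theorem closure_int_T (f : ℂ ≃ᵢ ℂ) : closure (interior (f '' P)) = f '' P := by
  rw [interior_T]
  have := f.toHomeomorph.image_closure sP
  rw [closure_sP] at this
  exact this.symm

/-- a line segment is a null set in the plane -/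
theorem seg_null (a b : ℂ) : volume (segment ℝ a b) = 0 := by
  have h1 : segment ℝ a b ⊆ (affineSpan ℝ {a, b} : Set ℂ) := by
    rw [← convexHull_pair]; exact convexHull_subset_affineSpan _
  refine measure_mono_null h1 (Measure.addHaar_affineSubspace _ _ ?_)
  intro htop
  have h2 := AffineSubspace.vectorSpan_eq_top_of_affineSpan_eq_top ℝ ℂ ℂ htop
  have h3 := (collinear_iff_finrank_le_one.1 (collinear_pair ℝ a b))
  rw [h2, finrank_top, Complex.finrank_real_complex] at h3
  omega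

theorem frontier_P_null : volume (frontier P) = 0 := by
  rw [frontier_P]
  exact measure_iUnion_null (fun k => seg_null _ _)

theorem frontier_T_null (f : ℂ ≃ᵢ ℂ) : volume (frontier (f '' P)) = 0 := by
  rw [frontier_T, iso_vol, frontier_P_null]

/-- two copies with disjoint interiors meet in a null set -/
theorem inter_null {f g : ℂ ≃ᵢ ℂ} (h : Disjoint (interior (f '' P)) (interior (g '' P))) :
    volume ((f '' P) ∩ (g '' P)) = 0 := by
  refine measure_mono_null ?_ (frontier_T_null f)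
  rintro z ⟨h1, h2⟩
  refine ⟨subset_closure h1, fun h3 => ?_⟩
  rw [← closure_int_T g] at h2
  obtain ⟨y, hy1, hy2⟩ := mem_closure_iff.1 h2 _ isOpen_interior h3
  exact (Set.disjoint_left.1 h) hy1 hy2

end Pool.Agent.Helper72.Pent
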