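import Pool.Agent.Helper72.Pent.Machine

set_option linter.all false

namespace Pool.Agent.Helper72.Pent

open MeasureTheory Set Metric Filter Topology
open scoped ENNReal

theorem cross_abs_le (a b : ℂ) : |cross a b| ≤ ‖a‖ * ‖b‖ := by
  have h1 : cross a b = ((starRingEnd ℂ) a * b).im := by
    simp only [cross, Complex.mul_im, Complex.conj_re, Complex.conj_im]; ring
  rw [h1]
  calc |((starRingEnd ℂ) a * b).im| ≤ ‖(starRingEnd ℂ) a * b‖ := Complex.abs_im_le_norm _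
    _ = ‖a‖ * ‖b‖ := by rw [norm_mul, RCLike.norm_conj]

/-- translation vectors -/
noncomputable def tr (w1 w2 : ℂ) (p : ℤ × ℤ) : ℂ := p.1 * w1 + p.2 * w2

theorem tr_add (w1 w2 : ℂ) (p q : ℤ × ℤ) : tr w1 w2 (p + q) = tr w1 w2 p + tr w1 w2 q := by
  simp only [tr, Prod.fst_add, Prod.snd_add]; push_cast; ring

theorem finite_lattice {w1 w2 : ℂ} (hw : cross w1 w2 ≠ 0) (R : ℝ) : {p : ℤ × ℤ | ‖tr w1 w2 p‖ ≤ R}.Finite := by
  have hpos : 0 < |cross w1 w2| := abs_pos.2 hw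
  set B : ℝ := (R * (‖w1‖ + ‖w2‖)) / |cross w1 w2| with hB
  obtain ⟨N, hN⟩ := exists_nat_gt B
  apply (Set.finite_Icc ((-(N:ℤ), -(N:ℤ)) : ℤ × ℤ) ((N:ℤ), (N:ℤ))).subset
  rintro ⟨m, n⟩ hp
  rw [mem_ofPred_eq] at hp
  have hR : 0 ≤ R := (norm_nonneg _).trans hp
  have h1 : cross (tr w1 w2 (m, n)) w2 = m * cross w1 w2 := by
    simp [cross, tr]; ring
  have h2 : cross w1 (tr w1 w2 (m, n)) = n * cross w1 w2 := by
    simp [cross, tr]; ring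
  have h3 : |(m:ℝ)| * |cross w1 w2| ≤ R * ‖w2‖ := by
    rw [← abs_mul, ← h1]
    exact (cross_abs_le _ _).trans (by gcongr)
  have h4 : |(n:ℝ)| * |cross w1 w2| ≤ R * ‖w1‖ := by
    rw [← abs_mul, ← h2]
    refine (cross_abs_le _ _).trans ?_
    rw [mul_comm]; gcongr
  have h5 : |(m:ℝ)| ≤ N := by
    refine le_trans ?_ hN.le
    rw [hB, le_div_iff₀ hpos]
    refine h3.trans ?_
    have : 0 ≤ R * ‖w1‖ := by positivity
    linarith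
  have h6 : |(n:ℝ)| ≤ N := by
    refine le_trans ?_ hN.le
    rw [hB, le_div_iff₀ hpos]
    refine h4.trans ?_
    have : 0 ≤ R * ‖w2‖ := by positivity
    linarith
  rw [abs_le] at h5 h6
  refine ⟨⟨?_, ?_⟩, ⟨?_, ?_⟩⟩
  · show -(N:ℤ) ≤ m; exact_mod_cast h5.1
  · show -(N:ℤ) ≤ n; exact_mod_cast h6.1
  · show m ≤ (N:ℤ); exact_mod_cast h5.2
  · show n ≤ (N:ℤ); exact_mod_cast h6.2

variable {K : ℕ} (w1 w2 : ℂ) (g : Fin K → ℂ ≃ᵢ ℂ) (o : Fin K → Bool)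

/-- the periodic family generated by g -/
noncomputable def fam (i : (ℤ × ℤ) × Fin K) : ℂ ≃ᵢ ℂ := (g i.2).trans (IsometryEquiv.addRight (tr w1 w2 i.1))

theorem fam_apply (i : (ℤ × ℤ) × Fin K) (z : ℂ) : fam w1 w2 g i z = g i.2 z + tr w1 w2 i.1 := rfl

theorem fam_locFin (hw : cross w1 w2 ≠ 0) : LocallyFinite (T (fam w1 w2 g)) := by
  intro z
  refine ⟨ball z 1, ball_mem_nhds z one_pos, ?_⟩
  obtain ⟨M, hM⟩ : ∃ M : ℝ, ∀ k, ‖g k 0‖ ≤ M := by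
    obtain ⟨M, hM⟩ := (Set.finite_range (fun k => ‖g k 0‖)).bddAbove
    exact ⟨M, fun k => hM ⟨k, rfl⟩⟩
  apply ((finite_lattice hw (‖z‖ + M + 4)).prod (Set.finite_univ (α := Fin K))).subset
  rintro ⟨p, k⟩ ⟨y, hy1, hy2⟩
  refine ⟨?_, mem_univ _⟩
  rw [mem_ofPred_eq]
  have h1 := T_sub_ball (fam w1 w2 g (p, k)) hy1
  rw [mem_closedBall, fam_apply] at h1
  rw [mem_ball] at hy2
  have h2 : tr w1 w2 p = (z + (y - z)) - g k 0 - (y - (g k 0 + tr w1 w2 p)) := by ring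
  have h3 : ‖y - (g k 0 + tr w1 w2 p)‖ ≤ 3 := by rw [← dist_eq_norm]; exact h1
  have h4 : ‖y - z‖ ≤ 1 := by rw [← dist_eq_norm]; exact hy2.le
  rw [h2]
  calc ‖(z + (y - z)) - g k 0 - (y - (g k 0 + tr w1 w2 p))‖
      ≤ ‖(z + (y - z)) - g k 0‖ + ‖y - (g k 0 + tr w1 w2 p)‖ := norm_sub_le _ _
    _ ≤ ‖z + (y - z)‖ + ‖g k 0‖ + ‖y - (g k 0 + tr w1 w2 p)‖ := by gcongr; exact norm_sub_le _ _
    _ ≤ ‖z‖ + ‖y - z‖ + ‖g k 0‖ + ‖y - (g k 0 + tr w1 w2 p)‖ := by gcongr; exact norm_add_le _ _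
    _ ≤ ‖z‖ + M + 4 := by linarith [hM k]

/-- pairing table condition -/
structure Table (δ : Fin K → Fin 5 → (ℤ × ℤ) × Fin K × Fin 5) : Prop where
  inv : ∀ k s, δ (δ k s).2.1 (δ k s).2.2 = (-(δ k s).1, k, s)
  e1 : ∀ k s, (edge (g (δ k s).2.1) (o (δ k s).2.1) (δ k s).2.2).1 + tr w1 w2 (δ k s).1 = (edge (g k) (o k) s).2
  e2 : ∀ k s, (edge (g (δ k s).2.1) (o (δ k s).2.1) (δ k s).2.2).2 + tr w1 w2 (δ k s).1 = (edge (g k) (o k) s).1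

variable {w1 w2 g o}

theorem edge_fam (p : ℤ × ℤ) (k : Fin K) (s : Fin 5) (b : Bool) :
    edge (fam w1 w2 g (p, k)) b s = ((edge (g k) b s).1 + tr w1 w2 p, (edge (g k) b s).2 + tr w1 w2 p) := by
  cases b <;> simp [edge, fam_apply]

theorem tr_neg (w1 w2 : ℂ) (p : ℤ × ℤ) : tr w1 w2 (-p) = - tr w1 w2 p := by
  simp only [tr, Prod.fst_neg, Prod.snd_neg]; push_cast; ring

/-- the induced involution on sides -/
def sig (δ : Fin K → Fin 5 → (ℤ × ℤ) × Fin K × Fin 5) (x : ((ℤ × ℤ) × Fin K) × Fin 5) : ((ℤ × ℤ) × Fin K) × Fin 5 :=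
  ((x.1.1 + (δ x.1.2 x.2).1, (δ x.1.2 x.2).2.1), (δ x.1.2 x.2).2.2)

theorem sig_invol {δ : Fin K → Fin 5 → (ℤ × ℤ) × Fin K × Fin 5} (h : Table w1 w2 g o δ) : Function.Involutive (sig δ) := by
  rintro ⟨⟨p, k⟩, s⟩
  have := h.inv k s
  simp only [sig]
  rw [this]
  simp

theorem oriented_fam (ho : ∀ k, Oriented (g k) (o k)) (i : (ℤ × ℤ) × Fin K) : Oriented (fam w1 w2 g i) (o i.2) := by
  obtain ⟨a, ha, h⟩ := ho i.2
  refine ⟨a, ha, fun z => ?_⟩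
  rw [fam_apply, fam_apply, h z]; ring

theorem S_const_fam (hw : cross w1 w2 ≠ 0) (ho : ∀ k, Oriented (g k) (o k)) {δ : Fin K → Fin 5 → (ℤ × ℤ) × Fin K × Fin 5}
    (h : Table w1 w2 g o δ) {z z' : ℂ} (hz : z ∉ Vset (fam w1 w2 g)) (hz' : z' ∉ Vset (fam w1 w2 g)) :
    S (fam w1 w2 g) z = S (fam w1 w2 g) z' := by
  refine S_const (o := fun i => o i.2) (fun i => oriented_fam ho i) (fam_locFin w1 w2 g hw) (sig_invol h).toPerm ?_ hz hz'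
  rintro ⟨⟨p, k⟩, s⟩
  simp only [Function.Involutive.coe_toPerm, sig]
  rw [edge_fam, edge_fam]
  have h1 := h.e1 k s
  have h2 := h.e2 k s
  ext1
  · simp only [Prod.fst_swap]
    rw [← h1, tr_add]; ring
  · simp only [Prod.snd_swap]
    rw [← h2, tr_add]; ring

end Pool.Agent.Helper72.Pent
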