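import Pool.Agent.Helper72.Pent.Family

set_option linter.all false

namespace Pool.Agent.Helper72.Pent

open MeasureTheory Set Metric Filter Topology
open scoped ENNReal

/-- orientation flag of an isometry -/
def Oriented (g : ℂ ≃ᵢ ℂ) (o : Bool) : Prop :=
  ∃ a : ℂ, ‖a‖ = 1 ∧ ∀ z, g z = a * (if o then z else (starRingEnd ℂ) z) + g 0

/-- oriented side number k of the tile, tile on the left -/
noncomputable def edge (g : ℂ ≃ᵢ ℂ) (o : Bool) (k : Fin 5) : ℂ × ℂ :=
  if o then (g (v k), g (v (k + 1))) else (g (v (k + 1)), g (v k))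

noncomputable def side (e : ℂ × ℂ) (y : ℂ) : ℝ := cross (e.2 - e.1) (y - e.1)

theorem side_swap (e : ℂ × ℂ) (y : ℂ) : side e.swap y = - side e y := by
  simp only [side, cross, Prod.fst_swap, Prod.snd_swap, Complex.sub_re, Complex.sub_im]; ring

theorem cross_unit {a : ℂ} (ha : ‖a‖ = 1) (x y : ℂ) : cross (a * x) (a * y) = cross x y := by
  have h : a.re * a.re + a.im * a.im = 1 := by
    rw [← Complex.normSq_apply, Complex.normSq_eq_norm_sq, ha]; norm_num
  simp only [cross, Complex.mul_re, Complex.mul_im]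
  linear_combination (x.re * y.im - x.im * y.re) * h

theorem cross_conj (x y : ℂ) : cross ((starRingEnd ℂ) x) ((starRingEnd ℂ) y) = - cross x y := by
  simp only [cross, Complex.conj_re, Complex.conj_im]; ring

theorem side_edge {g : ℂ ≃ᵢ ℂ} {o : Bool} (h : Oriented g o) (k : Fin 5) (y : ℂ) :
    side (edge g o k) y = L k (g.symm y) := by
  obtain ⟨a, ha, hg⟩ := h
  set x := g.symm y with hx
  have hy : y = g x := by rw [hx]; simp
  rw [hy]
  cases o
  · simp only [edge, side, Bool.false_eq_true, if_false]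
    rw [hg (v k), hg (v (k + 1)), hg x]
    simp only [Bool.false_eq_true, if_false]
    have e1 : a * (starRingEnd ℂ) (v k) + g 0 - (a * (starRingEnd ℂ) (v (k + 1)) + g 0) = a * (starRingEnd ℂ) (v k - v (k + 1)) := by
      rw [map_sub]; ring
    have e2 : a * (starRingEnd ℂ) x + g 0 - (a * (starRingEnd ℂ) (v (k + 1)) + g 0) = a * (starRingEnd ℂ) (x - v (k + 1)) := by
      rw [map_sub]; ring
    rw [e1, e2, cross_unit ha, cross_conj, L]
    simp only [cross, Complex.sub_re, Complex.sub_im]; ring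
  · simp only [edge, side, if_true]
    rw [hg (v k), hg (v (k + 1)), hg x]
    simp only [if_true]
    have e1 : a * v (k + 1) + g 0 - (a * v k + g 0) = a * (v (k + 1) - v k) := by ring
    have e2 : a * x + g 0 - (a * v k + g 0) = a * (x - v k) := by ring
    rw [e1, e2, cross_unit ha, L]

theorem image_openSeg (g : ℂ ≃ᵢ ℂ) (a b : ℂ) : g '' openSegment ℝ a b = openSegment ℝ (g a) (g b) := by
  have := image_openSegment ℝ (g.toRealAffineIsometryEquiv.toAffineEquiv.toAffineMap) a b
  exact this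

theorem image_seg (g : ℂ ≃ᵢ ℂ) (a b : ℂ) : g '' segment ℝ a b = segment ℝ (g a) (g b) := by
  have := image_segment ℝ (g.toRealAffineIsometryEquiv.toAffineEquiv.toAffineMap) a b
  exact this

theorem mem_edge_iff (g : ℂ ≃ᵢ ℂ) (o : Bool) (k : Fin 5) (y : ℂ) :
    y ∈ openSegment ℝ (edge g o k).1 (edge g o k).2 ↔ g.symm y ∈ O k := by
  have h : openSegment ℝ (edge g o k).1 (edge g o k).2 = g '' O k := by
    rw [O, image_openSeg]
    cases o
    · simp only [edge, Bool.false_eq_true, if_false]; exact openSegment_symm _ _ _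
    · simp only [edge, if_true]
  rw [h]; exact mem_image_iff g _ y

/-- jump term of an oriented edge -/
noncomputable def jump (z0 : ℂ) (e : ℂ × ℂ) (y : ℂ) : ℝ := by
  classical
  exact if z0 ∈ openSegment ℝ e.1 e.2 then (Real.pi / 2) * (SignType.sign (side e y) : ℝ) else 0

theorem jump_swap (z0 : ℂ) (e : ℂ × ℂ) (y : ℂ) : jump z0 e.swap y = - jump z0 e y := by
  classical
  unfold jump
  rw [openSegment_symm ℝ e.swap.1 e.swap.2, side_swap]
  simp only [Prod.fst_swap, Prod.snd_swap]
  split_ifs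
  · rw [Left.sign_neg]; simp
  · simp

theorem dens_not {y : ℂ} (hy : y ∈ P) (h1 : y ∉ sP) (h2 : ¬ ∃ k, y = v k) : dens y = Real.pi / 2 := by
  rcases P_cases hy with h | ⟨k, h⟩ | h
  · exact absurd h h1
  · exact dens_O h
  · exact absurd h h2

/-- local jump formula for the prototile -/
theorem local_jump {z0 : ℂ} (hz : ¬ ∃ k, z0 = v k) :
    ∀ᶠ y in 𝓝 z0, (¬ ∃ k, y = v k) → dens y - dens z0 =
      ∑ k, (by classical exact if z0 ∈ O k then (Real.pi / 2) * (SignType.sign (L k y) : ℝ) else 0) := by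
  classical
  by_cases h1 : z0 ∈ P
  · rcases P_cases h1 with h | ⟨k, h⟩ | h
    · filter_upwards [isOpen_sP.mem_nhds h] with y hy _
      rw [dens_sP h, dens_sP hy, sub_self]
      symm
      apply Finset.sum_eq_zero
      intro k _
      rw [if_neg (fun hk => O_not_sP hk h)]
    · obtain ⟨hL, hP, hsP⟩ := loc_O h
      filter_upwards [hP, hsP] with y h2 h3 h4
      rw [Finset.sum_eq_single k]
      · rw [if_pos h, dens_O h]
        rcases lt_trichotomy 0 (L k y) with h5 | h5 | h5
        · rw [dens_sP (h3.2 h5), sign_pos h5]; simp; ring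
        · rw [← h5, sign_zero, dens_not (h2.2 h5.le) (fun h6 => absurd (h3.1 h6) (by rw [← h5]; exact lt_irrefl _)) h4]; simp
        · rw [dens_out (fun h6 => absurd (h2.1 h6) (not_le.2 h5)), sign_neg h5]; simp
      · intro j _ hj
        rw [if_neg (fun hk => hj (O_disj hk h))]
      · intro hk; exact absurd (Finset.mem_univ k) hk
    · exact absurd h hz
  · filter_upwards [isClosed_P.isOpen_compl.mem_nhds h1] with y hy _
    rw [dens_out h1, dens_out hy, sub_self]
    symm
    apply Finset.sum_eq_zero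
    intro k _
    rw [if_neg (fun hk => h1 (O_sub_P hk))]

/-- local jump formula for a tile -/
theorem local_jumpT {g : ℂ ≃ᵢ ℂ} {o : Bool} (ho : Oriented g o) {z0 : ℂ} (hz : ¬ ∃ k, z0 = g (v k)) :
    ∀ᶠ y in 𝓝 z0, (¬ ∃ k, y = g (v k)) → densT g y - densT g z0 = ∑ k, jump z0 (edge g o k) y := by
  classical
  have h1 : ¬ ∃ k, g.symm z0 = v k := by
    rintro ⟨k, hk⟩; exact hz ⟨k, by rw [← hk]; simp⟩
  have h2 := (g.symm.continuous.tendsto z0).eventually (local_jump h1)
  filter_upwards [h2] with y hy h3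
  have h4 : ¬ ∃ k, g.symm y = v k := by
    rintro ⟨k, hk⟩; exact h3 ⟨k, by rw [← hk]; simp⟩
  rw [densT, densT, hy h4]
  apply Finset.sum_congr rfl
  intro k _
  unfold jump
  simp only [mem_edge_iff, side_edge ho]

variable {ι : Type*} (f : ι → ℂ ≃ᵢ ℂ) (o : ι → Bool)

/-- set of all vertices -/
def Vset : Set ℂ := {z | ∃ i k, z = f i (v k)}

theorem Vset_countable [Countable ι] : (Vset f).Countable := by
  have : Vset f = ⋃ i, ⋃ k, {f i (v k)} := by
    ext z; simp [Vset, eq_comm]
  rw [this]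
  exact countable_iUnion fun i => countable_iUnion fun k => countable_singleton _

noncomputable def S (z : ℂ) : ℝ := ∑ᶠ i, densT (f i) z

variable {f o}

theorem S_locally_const (ho : ∀ i, Oriented (f i) (o i)) (hlf : LocallyFinite (T f))
    (σ : ι × Fin 5 ≃ ι × Fin 5)
    (hσ : ∀ x, edge (f (σ x).1) (o (σ x).1) (σ x).2 = (edge (f x.1) (o x.1) x.2).swap)
    {z0 : ℂ} (hz : z0 ∉ Vset f) : ∀ᶠ y in 𝓝 z0, y ∉ Vset f → S f y = S f z0 := by
  classical
  obtain ⟨U, hU, hfin⟩ := hlf z0
  set J := hfin.toFinset with hJ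
  have hJm : ∀ i y, y ∈ U → y ∈ T f i → i ∈ J := by
    intro i y hy hi
    rw [hJ, Set.Finite.mem_toFinset]
    exact ⟨y, hi, hy⟩
  have hzU : z0 ∈ U := mem_of_mem_nhds hU
  have h1 : ∀ᶠ y in 𝓝 z0, ∀ i ∈ J, (¬ ∃ k, y = f i (v k)) → densT (f i) y - densT (f i) z0 = ∑ k, jump z0 (edge (f i) (o i) k) y := by
    rw [Finset.eventually_all]
    intro i _
    exact local_jumpT (ho i) (fun ⟨k, hk⟩ => hz ⟨i, k, hk⟩)
  have hS : ∀ y ∈ U, S f y = ∑ i ∈ J, densT (f i) y := by
    intro y hy
    apply finsum_eq_sum_of_support_subset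
    intro i hi
    rw [Function.mem_support] at hi
    by_contra hn
    apply hi
    apply densT_out
    intro h; exact hn (hJm i y hy h)
  filter_upwards [h1, hU] with y h2 hyU hyV
  have h3 : ∑ i ∈ J, (densT (f i) y - densT (f i) z0) = 0 := by
    have h4 : ∑ i ∈ J, (densT (f i) y - densT (f i) z0) = ∑ i ∈ J, ∑ k, jump z0 (edge (f i) (o i) k) y := by
      apply Finset.sum_congr rfl
      intro i hi
      exact h2 i hi (fun ⟨k, hk⟩ => hyV ⟨i, k, hk⟩)
    have h5 : ∑ᶠ x : ι × Fin 5, jump z0 (edge (f x.1) (o x.1) x.2) y = ∑ i ∈ J, ∑ k, jump z0 (edge (f i) (o i) k) y := by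
      rw [← Finset.sum_product' J Finset.univ (fun i k => jump z0 (edge (f i) (o i) k) y)]
      apply finsum_eq_sum_of_support_subset
      rintro ⟨i, k⟩ hx
      rw [Function.mem_support] at hx
      simp only [Finset.coe_product, Finset.coe_univ, mem_prod, Finset.mem_coe, mem_univ, and_true]
      by_contra hn
      apply hx
      unfold jump
      rw [if_neg]
      intro h6
      rw [mem_edge_iff] at h6
      exact hn (hJm i z0 hzU ((mem_image_iff _ _ _).2 (O_sub_P h6)))
    have h6 : ∑ᶠ x : ι × Fin 5, jump z0 (edge (f x.1) (o x.1) x.2) y = - ∑ᶠ x : ι × Fin 5, jump z0 (edge (f x.1) (o x.1) x.2) y := by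
      conv_lhs => rw [← finsum_comp_equiv σ]
      rw [← finsum_neg_distrib]
      apply finsum_congr
      intro x
      rw [hσ x, jump_swap]
    rw [h4, ← h5]
    linarith
  rw [hS y hyU, hS z0 hzU]
  rw [Finset.sum_sub_distrib] at h3
  linarith

theorem S_const [Countable ι] (ho : ∀ i, Oriented (f i) (o i)) (hlf : LocallyFinite (T f))
    (σ : ι × Fin 5 ≃ ι × Fin 5)
    (hσ : ∀ x, edge (f (σ x).1) (o (σ x).1) (σ x).2 = (edge (f x.1) (o x.1) x.2).swap)
    {z z' : ℂ} (hz : z ∉ Vset f) (hz' : z' ∉ Vset f) : S f z = S f z' := by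
  have hconn : IsPreconnected (Vset f)ᶜ := by
    have h1 : 1 < Module.rank ℝ ℂ := by rw [Complex.rank_real_complex]; exact Nat.one_lt_ofNat
    exact ((Vset_countable f).isPathConnected_compl_of_one_lt_rank h1).isConnected.isPreconnected
  haveI : PreconnectedSpace ((Vset f)ᶜ : Set ℂ) := isPreconnected_iff_preconnectedSpace.1 hconn
  have hloc : IsLocallyConstant (fun x : ((Vset f)ᶜ : Set ℂ) => S f x.1) := by
    rw [IsLocallyConstant.iff_eventually_eq]
    intro x
    have h1 := S_locally_const ho hlf σ hσ x.2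
    have h2 : Tendsto (fun y : ((Vset f)ᶜ : Set ℂ) => y.1) (𝓝 x) (𝓝 x.1) := continuous_subtype_val.tendsto x
    filter_upwards [h2.eventually h1] with y hy
    exact hy y.2
  exact hloc.apply_eq_of_preconnectedSpace ⟨z, hz⟩ ⟨z', hz'⟩

end Pool.Agent.Helper72.Pent
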