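import Pool.Agent.Helper72.Pent.Family
import Pool.Agent.Helper72.Pent.Defs

set_option linter.all false

namespace Pool.Agent.Helper72.Pent

open MeasureTheory Set Metric Filter Topology
open scoped ENNReal

theorem u_arith {n0 n1 n3 : ℕ} (h0 : n0 ≤ 1) (h1 : n1 ≤ 1)
    (h : (n0 : ℝ) * dv 0 + n1 * dv 1 + n3 * dv 3 = dv 4) : False := by
  change (n0 : ℝ) * ((Real.pi / 2 - u) / 2) + n1 * ((Real.pi / 2 - 3 * u) / 2) + n3 * (2 * u) = (Real.pi - 2 * u) / 2 at h
  have hu := u_pos; have hl := u_lb; have hb := u_ub; have hp := Real.pi_pos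
  have hl' : Real.pi < 26 * u := by linarith
  have hb' : 22 * u < Real.pi := by linarith
  have key : ∀ a : ℝ, a * u = Real.pi → 22 < a ∧ a < 26 := by
    intro a ha
    constructor
    · by_contra hc; push Not at hc; nlinarith
    · by_contra hc; push Not at hc; nlinarith
  interval_cases n0 <;> interval_cases n1
  · have h2 := key (4 * n3 + 2) (by push_cast at h ⊢; linarith)
    obtain ⟨h3, h4⟩ := h2
    have h3' : (22 : ℕ) < 4 * n3 + 2 := by exact_mod_cast h3
    have h4' : 4 * n3 + 2 < (26 : ℕ) := by exact_mod_cast h4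
    omega
  · have h2 := key (8 * n3 - 2) (by push_cast at h ⊢; linarith)
    obtain ⟨h3, h4⟩ := h2
    have h3' : (24 : ℕ) < 8 * n3 := by
      have : (24 : ℝ) < 8 * n3 := by linarith
      exact_mod_cast this
    have h4' : 8 * n3 < (28 : ℕ) := by
      have : (8 : ℝ) * n3 < 28 := by linarith
      exact_mod_cast this
    omega
  · have h2 := key (8 * n3 + 2) (by push_cast at h ⊢; linarith)
    obtain ⟨h3, h4⟩ := h2
    have h3' : (22 : ℕ) < 8 * n3 + 2 := by exact_mod_cast h3
    have h4' : 8 * n3 + 2 < (26 : ℕ) := by exact_mod_cast h4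
    omega
  · have h2 : ((4 * n3 : ℝ) - 2) * u = 0 := by push_cast at h ⊢; linarith
    have h3 : (4 * n3 : ℝ) - 2 = 0 := (mul_eq_zero.1 h2).resolve_right hu.ne'
    have h4 : (4 * n3 : ℝ) = 2 := by linarith
    have h5 : 4 * n3 = 2 := by exact_mod_cast h4
    omega

/-- the combinatorics at a C-corner -/
theorem corner_cases {ι : Type*} [DecidableEq ι] (f : ι → ℂ ≃ᵢ ℂ) (z : ℂ) (J : Finset ι) (i0 : ι) (h0 : i0 ∈ J)
    (hJ : ∀ i ∈ J, z ∈ T f i) (hs : ∑ i ∈ J, densT (f i) z = Real.pi) (hi0 : (f i0).symm z = v 2) :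
    (∃ i ∈ J, ∃ j ∈ J, i ≠ j ∧ ∃ k, (f i).symm z = v k ∧ (f j).symm z = v k) ∨
    (∃ i1 ∈ J, i1 ≠ i0 ∧ J = {i0, i1} ∧ (f i1).symm z = v 4) := by
  have hu := u_pos; have hl := u_lt; have hp := Real.pi_pos
  have hd2 : dv 2 = (Real.pi + 2 * u) / 2 := rfl
  have hd4 : dv 4 = (Real.pi - 2 * u) / 2 := rfl
  have e0 : densT (f i0) z = dv 2 := by rw [densT, hi0, dens_v]
  have hrest : ∑ i ∈ J.erase i0, densT (f i) z = dv 4 := by
    have := Finset.add_sum_erase J (fun i => densT (f i) z) h0
    rw [hs, e0] at this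
    rw [hd2] at this; rw [hd4]; linarith
  have hle : ∀ i ∈ J.erase i0, densT (f i) z ≤ dv 4 := by
    intro i hi
    rw [← hrest]
    exact Finset.single_le_sum (f := fun i => densT (f i) z) (fun _ _ => densT_nonneg _ _) hi
  have hlab : ∀ i ∈ J.erase i0, (f i).symm z = v 0 ∨ (f i).symm z = v 1 ∨ (f i).symm z = v 3 ∨ (f i).symm z = v 4 := by
    intro i hi
    have h1 := hle i hi
    have h2 : (f i).symm z ∈ P := (mem_image_iff _ _ _).1 (hJ i (Finset.mem_of_mem_erase hi))
    rw [densT] at h1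
    rcases P_cases h2 with h | ⟨k, h⟩ | ⟨k, h⟩
    · rw [dens_sP h, hd4] at h1; linarith
    · rw [dens_O h, hd4] at h1; linarith
    · rw [h, dens_v] at h1
      fin_cases k
      · exact Or.inl h
      · exact Or.inr (Or.inl h)
      · exfalso; change dv 2 ≤ dv 4 at h1; rw [hd2, hd4] at h1; linarith
      · exact Or.inr (Or.inr (Or.inl h))
      · exact Or.inr (Or.inr (Or.inr h))
  by_contra hcon
  push Not at hcon
  obtain ⟨hc1, hc2⟩ := hcon
  -- no tile with label 4
  have h4 : ∀ i ∈ J.erase i0, (f i).symm z ≠ v 4 := by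
    intro i hi h
    have h5 : densT (f i) z = dv 4 := by rw [densT, h, dens_v]
    have h6 := Finset.add_sum_erase (J.erase i0) (fun i => densT (f i) z) hi
    rw [hrest, h5] at h6
    have h7 : ∑ j ∈ (J.erase i0).erase i, densT (f j) z = 0 := by linarith
    have h8 : (J.erase i0).erase i = ∅ := by
      rw [Finset.eq_empty_iff_forall_notMem]
      intro j hj
      have := (Finset.sum_eq_zero_iff_of_nonneg (fun j _ => densT_nonneg (f j) z)).1 h7 j hj
      have h9 := densT_pos (hJ j (Finset.mem_of_mem_erase (Finset.mem_of_mem_erase hj)))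
      linarith
    refine hc2 i (Finset.mem_of_mem_erase hi) (Finset.ne_of_mem_erase hi) ?_ h
    ext j
    simp only [Finset.mem_insert, Finset.mem_singleton]
    constructor
    · intro hj
      by_contra hn
      push Not at hn
      have : j ∈ (J.erase i0).erase i := Finset.mem_erase.2 ⟨hn.2, Finset.mem_erase.2 ⟨hn.1, hj⟩⟩
      rw [h8] at this
      exact absurd this (Finset.notMem_empty j)
    · rintro (rfl | rfl)
      · exact h0
      · exact Finset.mem_of_mem_erase hi
  set J' := J.erase i0 with hJ'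
  set N := fun k : Fin 5 => J'.filter (fun i => (f i).symm z = v k) with hN
  have hcard : ∀ k, (N k).card ≤ 1 := by
    intro k
    rw [Finset.card_le_one]
    intro a ha b hb
    by_contra hab
    rw [hN] at ha hb
    simp only [Finset.mem_filter] at ha hb
    exact hc1 a (Finset.mem_of_mem_erase ha.1) b (Finset.mem_of_mem_erase hb.1) hab k ha.2 hb.2
  have hsum : ∑ i ∈ J', densT (f i) z = ∑ i ∈ N 0, densT (f i) z + ∑ i ∈ N 1, densT (f i) z + ∑ i ∈ N 3, densT (f i) z := by
    have hd01 : Disjoint (N 0) (N 1) := by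
      rw [Finset.disjoint_filter]; intro x _ h h'; rw [h] at h'; exact absurd (v_inj h') (by decide)
    have hd3 : Disjoint (N 0 ∪ N 1) (N 3) := by
      rw [Finset.disjoint_union_left]
      constructor
      · rw [Finset.disjoint_filter]; intro x _ h h'; rw [h] at h'; exact absurd (v_inj h') (by decide)
      · rw [Finset.disjoint_filter]; intro x _ h h'; rw [h] at h'; exact absurd (v_inj h') (by decide)
    rw [← Finset.sum_union hd01, ← Finset.sum_union hd3]
    congr 1
    ext i
    simp only [hN, Finset.mem_union, Finset.mem_filter]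
    constructor
    · intro hi
      rcases hlab i hi with h | h | h | h
      · exact Or.inl (Or.inl ⟨hi, h⟩)
      · exact Or.inl (Or.inr ⟨hi, h⟩)
      · exact Or.inr ⟨hi, h⟩
      · exact absurd h (h4 i hi)
    · rintro ((h | h) | h) <;> exact h.1
  have hconst : ∀ k, ∑ i ∈ N k, densT (f i) z = (N k).card * dv k := by
    intro k
    rw [Finset.sum_congr rfl (g := fun _ => dv k), Finset.sum_const, nsmul_eq_mul]
    intro i hi
    simp only [hN, Finset.mem_filter] at hi
    rw [densT, hi.2, dens_v]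
  rw [hconst, hconst, hconst, hrest] at hsum
  exact u_arith (hcard 0) (hcard 1) hsum.symm

theorem seg_of_dir {j : Fin 5} {z : ℂ} {k : Fin 5} (hz : z ∈ O k) (hj : z ∈ segment ℝ (v j) (v (j + 1))) : k = j := by
  rcases mem_closedSide.1 hj with h | h | h
  · rw [h] at hz; exact absurd hz v_not_O
  · exact O_disj hz h
  · rw [h] at hz; exact absurd hz v_not_O

theorem no_proper_isohedral (𝒯 : Set (Set ℂ)) (hT : IsTiling P 𝒯) (hI : IsIsohedral 𝒯) : ¬ IsProper v P 𝒯 := by
  classical
  intro hprop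
  obtain ⟨-, hcong, hcov, hdisj, -, -, -⟩ := hT
  choose! F hF using hcong
  let f : 𝒯 → ℂ ≃ᵢ ℂ := fun i => F i.1
  have hf : ∀ i : 𝒯, T f i = i.1 := fun i => (hF i.1 i.2).symm
  have hd : DisjInt f := by
    intro i j hij
    show Disjoint (interior (T f i)) (interior (T f j))
    rw [hf, hf]
    exact hdisj _ i.2 _ j.2 (fun h => hij (Subtype.ext h))
  have hc : ∀ z, ∃ i, z ∈ T f i := by
    intro z
    have : z ∈ ⋃₀ 𝒯 := by rw [hcov]; trivial
    obtain ⟨S, hS, hz⟩ := this
    exact ⟨⟨S, hS⟩, by rw [hf]; exact hz⟩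
  obtain ⟨i0, -⟩ := hc 0
  set w := f i0 (v 2) with hw
  have hi0 : (f i0).symm w = v 2 := by rw [hw]; simp
  obtain ⟨J, hJ, hs⟩ := sum_dens f hd hc w
  have h0J : i0 ∈ J := (hJ i0).2 ⟨v 2, v_mem_P 2, rfl⟩
  rcases corner_cases f w J i0 h0J (fun i hi => (hJ i).1 hi) hs hi0 with ⟨i, hi, j, hj, hij, k, hik, hjk⟩ | ⟨i1, hi1, hne, hJe, h4⟩
  · -- two tiles with the same corner at w
    obtain ⟨g, hg1, hg2⟩ := hI i.1 i.2 j.1 j.2
    have hgf : ∀ z, g (f i z) = f j z := by
      apply rigid' (f := (f i).trans g) (g := f j)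
      have h1 : (((f i).trans g : ℂ ≃ᵢ ℂ) : ℂ → ℂ) = g ∘ f i := rfl
      rw [h1, image_comp]
      have h2 : f i '' P = i.1 := hf i
      have h3 : f j '' P = j.1 := hf j
      rw [h2, h3, hg2]
    have hgw : g w = w := by
      have h1 : f i (v k) = w := by rw [← hik]; simp
      have h2 : f j (v k) = w := by rw [← hjk]; simp
      rw [← h1, hgf, h2, h1]
    -- the image of the C-tile
    have hmem : g '' i0.1 ∈ 𝒯 := hg1.subset ⟨i0.1, i0.2, rfl⟩
    set i1 : 𝒯 := ⟨g '' i0.1, hmem⟩ with hi1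
    have hw1 : w ∈ T f i1 := by
      rw [hf, hi1]
      exact ⟨w, by rw [← hf i0]; exact ⟨v 2, v_mem_P 2, rfl⟩, hgw⟩
    have hden : densT (f i1) w = dv 2 := by
      have h1 : HasDens i0.1 w (dv 2) := by
        have := hasDensT (f i0) w
        rw [show f i0 '' P = i0.1 from hf i0, densT, hi0, dens_v] at this
        exact this
      have h2 := h1.image g
      rw [hgw] at h2
      have h3 := hasDensT (f i1) w
      rw [show f i1 '' P = i1.1 from hf i1] at h3
      exact h3.unique h2 (densT_nonneg _ _) (dv_pos 2).le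
    have h01 : i1 = i0 := by
      by_contra hne
      have h1 : ({i1, i0} : Finset 𝒯) ⊆ J := by
        intro x hx
        rcases Finset.mem_insert.1 hx with rfl | hx
        · exact (hJ _).2 hw1
        · rw [Finset.mem_singleton.1 hx]; exact h0J
      have h2 := Finset.sum_le_sum_of_subset_of_nonneg h1 (f := fun i => densT (f i) w) (fun i _ _ => densT_nonneg _ _)
      rw [Finset.sum_pair hne, hs, hden, densT, hi0, dens_v] at h2
      change (Real.pi + 2 * u) / 2 + (Real.pi + 2 * u) / 2 ≤ Real.pi at h2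
      linarith [u_pos]
    have h02 : g '' i0.1 = i0.1 := congrArg Subtype.val h01
    have hgid : ∀ z, g (f i0 z) = f i0 z := by
      apply rigid' (f := (f i0).trans g) (g := f i0)
      have h1 : (((f i0).trans g : ℂ ≃ᵢ ℂ) : ℂ → ℂ) = g ∘ f i0 := rfl
      rw [h1, image_comp]
      have h2 : f i0 '' P = i0.1 := hf i0
      rw [h2, h02]
    have hid : ∀ z, g z = z := by
      intro z
      have := hgid ((f i0).symm z)
      simpa using this
    apply hij
    apply Subtype.ext
    rw [← hg2]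
    ext z
    constructor
    · intro hz; exact ⟨z, hz, hid z⟩
    · rintro ⟨y, hy, rfl⟩; rw [hid]; exact hy
  · -- the C-corner is filled by a single E-corner
    have hlf := locFin f hd
    have hev := hlf.eventually_subset (isClosed_Ti f) w
    have hJm : ∀ i, w ∈ T f i → i = i0 ∨ i = i1 := by
      intro i hi
      have := (hJ i).2 hi
      rw [hJe] at this
      simpa using this
    have hnear : ∀ a : ℂ, ∀ᶠ t : ℝ in 𝓝[>] (0:ℝ), ∀ i, f i0 (v 2 + t * (a - v 2)) ∈ T f i → i = i0 ∨ i = i1 := by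
      intro a
      have h1 : Tendsto (fun t : ℝ => f i0 (v 2 + t * (a - v 2))) (𝓝[>] 0) (𝓝 w) := by
        have h2 : Continuous (fun t : ℝ => f i0 (v 2 + t * (a - v 2))) := (f i0).continuous.comp (by fun_prop)
        have := h2.tendsto 0
        simp only [Complex.ofReal_zero, zero_mul, add_zero] at this
        exact this.mono_left nhdsWithin_le_nhds
      filter_upwards [h1.eventually hev] with t ht i hi
      exact hJm i (ht hi)
    have hlt : ∀ᶠ t in 𝓝[>] (0:ℝ), t < 1 := by
      apply eventually_nhdsWithin_of_eventually_nhds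
      exact gt_mem_nhds one_pos
    obtain ⟨t, ht1, ht3, ht4, ht5⟩ := ((hnear (v 3)).and ((hnear (v 1)).and (ev_pos_ε.and hlt))).exists
    have hO2 : v 2 + t * (v 3 - v 2) ∈ O 2 := mem_O.2 ⟨t, ht4, ht5, by rw [f23]⟩
    have hO1 : v 2 + t * (v 1 - v 2) ∈ O 1 := mem_O.2 ⟨(1 - t : ℝ), sub_pos.2 ht5, by linarith, by rw [f12]; push_cast; ring⟩
    have hboth : ∀ y k, y ∈ O k → (∀ i, f i0 y ∈ T f i → i = i0 ∨ i = i1) → f i0 y ∈ i0.1 ∩ i1.1 := by
      intro y k hy hyi
      obtain ⟨K, hK, hKs⟩ := sum_dens f hd hc (f i0 y)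
      have h1 : f i0 y ∈ T f i0 := ⟨y, O_sub_P hy, rfl⟩
      have h2 : densT (f i0) (f i0 y) = Real.pi / 2 := by
        rw [densT]; simp [dens_O hy]
      have h3 : i1 ∈ K := by
        by_contra hn
        have h4 : K = {i0} := by
          ext x
          rw [Finset.mem_singleton]
          constructor
          · intro hx
            rcases hyi x ((hK x).1 hx) with h | h
            · exact h
            · rw [h] at hx; exact absurd hx hn
          · rintro rfl; exact (hK _).2 h1
        rw [h4, Finset.sum_singleton, h2] at hKs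
        linarith [Real.pi_pos]
      refine ⟨by rw [← hf i0]; exact h1, by rw [← hf i1]; exact (hK i1).1 h3⟩
    have hp := hboth _ 2 hO2 ht1
    have hq := hboth _ 1 hO1 ht3
    obtain ⟨⟨S, ⟨g, hgP, j, rfl⟩, hsub⟩, -⟩ := hprop i0.1 i0.2 i1.1 i1.2 (fun h => hne (Subtype.ext h).symm)
    have hgf : ∀ z, g z = f i0 z := rigid' (by rw [hgP]; exact (hf i0).symm)
    have hin : ∀ y, f i0 y ∈ i0.1 ∩ i1.1 → y ∈ segment ℝ (v j) (v (j + 1)) := by
      intro y hy
      obtain ⟨x, hx, hxy⟩ := hsub hy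
      rw [hgf] at hxy
      rw [← (f i0).injective hxy]; exact hx
    have e2 := seg_of_dir hO2 (hin _ hp)
    have e1 := seg_of_dir hO1 (hin _ hq)
    rw [← e2] at e1
    exact absurd e1 (by decide)

end Pool.Agent.Helper72.Pent
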