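import Pool.Agent.Helper72.Pent.Topo
import Pool.Agent.Helper72.Pent.Defs

set_option linter.all false

namespace Pool.Agent.Helper72.Pent

open MeasureTheory Set Metric Filter Topology
open scoped ENNReal

theorem simple_v : IsSimplePolygon v := by
  refine ⟨by norm_num, v_inj, ?_⟩
  rintro i j hij z ⟨hi, hj⟩
  rcases mem_closedSide.1 hi with h1 | h1 | h1 <;> rcases mem_closedSide.1 hj with h2 | h2 | h2
  · exact absurd (v_inj (h1.symm.trans h2)) hij
  · rw [h1] at h2; exact absurd h2 v_not_O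
  · exact Or.inr ⟨h1, v_inj (h1.symm.trans h2)⟩
  · rw [h2] at h1; exact absurd h1 v_not_O
  · exact absurd (O_disj h1 h2) hij
  · rw [h2] at h1; exact absurd h1 v_not_O
  · exact Or.inl ⟨h2, v_inj (h2.symm.trans h1)⟩
  · rw [h1] at h2; exact absurd h2 v_not_O
  · exact absurd (add_right_cancel (v_inj (h1.symm.trans h2))) hij

theorem turn_ne (i : Fin 5) : L i (v (i + 1 + 1)) ≠ 0 := by
  have hc := c_pos; have hs := s_pos; have hh := h_pos; have a1 := k1; have a2 := k2; have a3 := k3; have a4 := k4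
  fin_cases i
  · show L 0 (v 2) ≠ 0; rw [T02]; exact a2.ne'
  · show L 1 (v 3) ≠ 0; rw [T13]; exact (neg_neg_of_pos a1).ne
  · show L 2 (v 4) ≠ 0; rw [T24]; exact a4.ne'
  · show L 3 (v 0) ≠ 0; rw [T30]; exact a1.ne'
  · show L 4 (v 1) ≠ 0; rw [T41]; exact hc.ne'

theorem not_coll (i : Fin 5) : ¬ Collinear ℝ {v i, v (i + 1), v (i + 1 + 1)} := by
  intro hcol
  apply turn_ne i
  rw [collinear_iff_of_mem (p₀ := v i) (by simp)] at hcol
  obtain ⟨w, hw⟩ := hcol
  obtain ⟨r1, h1⟩ := hw (v (i + 1)) (by simp)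
  obtain ⟨r2, h2⟩ := hw (v (i + 1 + 1)) (by simp)
  rw [L, h2, h1]
  simp [cross]
  ring

theorem polygon_P : IsPolygon v P := by
  refine ⟨simple_v, not_coll, isCompact_P, ?_, frontier_P⟩
  rw [interior_P]
  exact ⟨ctr, L_ctr 0, L_ctr 3, L_ctr 4, Or.inl (L_ctr 1)⟩

end Pool.Agent.Helper72.Pent
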