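import Pool.Agent.Helper72.Pent.Star

set_option linter.all false

namespace Pool.Agent.Helper72.Pent

open MeasureTheory Set Metric Filter Topology
open scoped ENNReal

/-- the isometry z ↦ a z + b or z ↦ a conj z + b -/
noncomputable def mkIso (a : Circle) (b : ℂ) (o : Bool) : ℂ ≃ᵢ ℂ :=
  ((if o then LinearIsometryEquiv.refl ℝ ℂ else Complex.conjLIE).trans (rotation a)).toIsometryEquiv.trans (IsometryEquiv.addRight b)

theorem mkIso_apply (a : Circle) (b : ℂ) (o : Bool) (z : ℂ) :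
    mkIso a b o z = (a : ℂ) * (if o then z else (starRingEnd ℂ) z) + b := by
  cases o <;> rfl

theorem mkIso_oriented (a : Circle) (b : ℂ) (o : Bool) : Oriented (mkIso a b o) o := by
  refine ⟨a, Circle.norm_coe a, fun z => ?_⟩
  rw [mkIso_apply, mkIso_apply]
  cases o <;> simp

variable {K C : ℕ} {w1 w2 : ℂ} {g : Fin K → ℂ ≃ᵢ ℂ} {o : Fin K → Bool} {R : Fin C → ℂ}
  {cls : Fin K → Fin 5 → Fin C} {off : Fin K → Fin 5 → ℤ × ℤ} {δ : Fin K → Fin 5 → (ℤ × ℤ) × Fin K × Fin 5}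

/-- source and target index of the oriented side -/
def src (o : Bool) (s : Fin 5) : Fin 5 := if o then s else s + 1
def tgt (o : Bool) (s : Fin 5) : Fin 5 := if o then s + 1 else s

theorem edge_fst (g : ℂ ≃ᵢ ℂ) (o : Bool) (s : Fin 5) : (edge g o s).1 = g (v (src o s)) := by
  cases o <;> rfl
theorem edge_snd (g : ℂ ≃ᵢ ℂ) (o : Bool) (s : Fin 5) : (edge g o s).2 = g (v (tgt o s)) := by
  cases o <;> rfl

/-- combinatorial data of a periodic edge-to-edge pattern -/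
structure Comb (K C : ℕ) (o : Fin K → Bool) (cls : Fin K → Fin 5 → Fin C) (off : Fin K → Fin 5 → ℤ × ℤ)
    (δ : Fin K → Fin 5 → (ℤ × ℤ) × Fin K × Fin 5) : Prop where
  inv : ∀ k s, δ (δ k s).2.1 (δ k s).2.2 = (-(δ k s).1, k, s)
  e1 : ∀ k s, cls (δ k s).2.1 (src (o (δ k s).2.1) (δ k s).2.2) = cls k (tgt (o k) s) ∧
    off (δ k s).2.1 (src (o (δ k s).2.1) (δ k s).2.2) + (δ k s).1 = off k (tgt (o k) s)
  e2 : ∀ k s, cls (δ k s).2.1 (tgt (o (δ k s).2.1) (δ k s).2.2) = cls k (src (o k) s) ∧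
    off (δ k s).2.1 (tgt (o (δ k s).2.1) (δ k s).2.2) + (δ k s).1 = off k (src (o k) s)
  ne : ∀ k s, ((δ k s).1, (δ k s).2.1) ≠ (0, k)

def starOf (cls : Fin K → Fin 5 → Fin C) (off : Fin K → Fin 5 → ℤ × ℤ) (k : Fin K) (s : Fin 5) :
    Finset ((ℤ × ℤ) × Fin K × Fin 5) :=
  (Finset.univ.filter (fun x : Fin K × Fin 5 => cls x.1 x.2 = cls k s)).image (fun x => (off k s - off x.1 x.2, x.1, x.2))

theorem mem_starOf {k : Fin K} {s : Fin 5} {x : (ℤ × ℤ) × Fin K × Fin 5} :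
    x ∈ starOf cls off k s ↔ cls x.2.1 x.2.2 = cls k s ∧ x.1 = off k s - off x.2.1 x.2.2 := by
  simp only [starOf, Finset.mem_image, Finset.mem_filter, Finset.mem_univ, true_and]
  constructor
  · rintro ⟨y, hy, rfl⟩; exact ⟨hy, rfl⟩
  · rintro ⟨h1, h2⟩; exact ⟨x.2, h1, by rw [← h2]⟩

theorem table_of_comb (hcomb : Comb K C o cls off δ) (hpos : ∀ k s, g k (v s) = R (cls k s) + tr w1 w2 (off k s)) :
    Table w1 w2 g o δ where
  inv := hcomb.inv
  e1 := by
    intro k s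
    obtain ⟨h1, h2⟩ := hcomb.e1 k s
    rw [edge_fst, edge_snd, hpos, hpos, h1, ← h2, tr_add]; ring
  e2 := by
    intro k s
    obtain ⟨h1, h2⟩ := hcomb.e2 k s
    rw [edge_fst, edge_snd, hpos, hpos, h1, ← h2, tr_add]; ring

theorem star_of_pos (hpos : ∀ k s, g k (v s) = R (cls k s) + tr w1 w2 (off k s))
    (hinj : ∀ k s, ∀ s', cls k s = cls k s' → off k s = off k s' → s = s')
    (hsum : ∀ k s, ∑ x ∈ Finset.univ.filter (fun x : Fin K × Fin 5 => cls x.1 x.2 = cls k s), dv x.2 = Real.pi) :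
    StarTable w1 w2 g (starOf cls off) where
  eq := by
    intro k s x hx
    obtain ⟨h1, h2⟩ := mem_starOf.1 hx
    rw [hpos, hpos, h1, h2]
    have : tr w1 w2 (off x.2.1 x.2.2) + tr w1 w2 (off k s - off x.2.1 x.2.2) = tr w1 w2 (off k s) := by
      rw [← tr_add]; congr 1; abel
    rw [add_assoc, this]
  inj := by
    intro k s x hx y hy h1 h2
    obtain ⟨a1, a2⟩ := mem_starOf.1 hx
    obtain ⟨b1, b2⟩ := mem_starOf.1 hy
    have h3 : x.2.2 = y.2.2 := by
      apply hinj x.2.1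
      · rw [a1, ← b1, h2]
      · rw [a2, b2, h2] at h1
        have := sub_right_injective h1
        rw [h2]
        exact this
    ext1
    · exact h1
    · exact Prod.ext h2 h3
  sum := by
    intro k s
    rw [starOf, Finset.sum_image, ← hsum k s]
    intro x _ y _ hxy
    simp only [Prod.mk.injEq] at hxy
    exact Prod.ext hxy.2.1 hxy.2.2

end Pool.Agent.Helper72.Pent
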