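import Pool.Agent.Helper72.Pent.Basic
import Pool.Agent.Helper72.Pent.Cone

namespace Pool.Agent.Helper72.Pent

open MeasureTheory Set Metric Filter Topology
open scoped ENNReal

/-- vertices A,B,C,D,E of the pentagon, counterclockwise -/
noncomputable def v : Fin 5 → ℂ := ![0, 1, ⟨1/2 + s, h - c⟩, ⟨1/2, h⟩, ⟨s, c⟩]

theorem v0 : v 0 = 0 := rfl
theorem v1 : v 1 = 1 := rfl
theorem v2 : v 2 = ⟨1/2 + s, h - c⟩ := rfl
theorem v3 : v 3 = ⟨1/2, h⟩ := rfl
theorem v4 : v 4 = ⟨s, c⟩ := rfl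

/-- oriented line forms -/
noncomputable def L (k : Fin 5) (z : ℂ) : ℝ := cross (v (k + 1) - v k) (z - v k)

theorem f01 : (0 : Fin 5) + 1 = 1 := rfl
theorem f12 : (1 : Fin 5) + 1 = 2 := rfl
theorem f23 : (2 : Fin 5) + 1 = 3 := rfl
theorem f34 : (3 : Fin 5) + 1 = 4 := rfl
theorem f40 : (4 : Fin 5) + 1 = 0 := rfl

theorem L0 (z : ℂ) : L 0 z = z.im := by
  simp [L, cross, v]
theorem L1 (z : ℂ) : L 1 z = (s - 1/2) * z.im - (h - c) * (z.re - 1) := by
  simp only [L, f12, v1, v2, cross, Complex.sub_re, Complex.sub_im, Complex.one_re, Complex.one_im]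
  ring
theorem L2 (z : ℂ) : L 2 z = - s * (z.im - (h - c)) - c * (z.re - 1/2 - s) := by
  simp only [L, f23, v2, v3, cross, Complex.sub_re, Complex.sub_im]
  ring
theorem L3 (z : ℂ) : L 3 z = (s - 1/2) * (z.im - h) + (h - c) * (z.re - 1/2) := by
  simp only [L, f34, v3, v4, cross, Complex.sub_re, Complex.sub_im]
  ring
theorem L4 (z : ℂ) : L 4 z = c * z.re - s * z.im := by
  simp only [L, f40, v4, v0, cross, Complex.sub_re, Complex.sub_im, Complex.zero_re, Complex.zero_im]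
  ring

theorem continuous_L (k : Fin 5) : Continuous (L k) := (continuous_cross _).comp (by fun_prop)

theorem L_affine (k : Fin 5) (a b : ℂ) (t : ℝ) : L k (a + t * (b - a)) = (1 - t) * L k a + t * L k b := by
  simp only [L, cross, Complex.sub_re, Complex.sub_im, Complex.add_re, Complex.add_im, Complex.mul_re, Complex.mul_im,
    Complex.ofReal_re, Complex.ofReal_im]
  ring

theorem ev_pos {k : Fin 5} {z : ℂ} (hz : 0 < L k z) : ∀ᶠ y in 𝓝 z, 0 < L k y :=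
  (continuous_L k).continuousAt.eventually (lt_mem_nhds hz)
theorem ev_neg {k : Fin 5} {z : ℂ} (hz : L k z < 0) : ∀ᶠ y in 𝓝 z, L k y < 0 :=
  (continuous_L k).continuousAt.eventually (gt_mem_nhds hz)

/-- the pentagon -/
def P : Set ℂ := {z | 0 ≤ L 0 z ∧ 0 ≤ L 3 z ∧ 0 ≤ L 4 z ∧ (0 ≤ L 1 z ∨ 0 ≤ L 2 z)}

/-- its interior -/
def sP : Set ℂ := {z | 0 < L 0 z ∧ 0 < L 3 z ∧ 0 < L 4 z ∧ (0 < L 1 z ∨ 0 < L 2 z)}

theorem mem_P {z : ℂ} : z ∈ P ↔ 0 ≤ L 0 z ∧ 0 ≤ L 3 z ∧ 0 ≤ L 4 z ∧ (0 ≤ L 1 z ∨ 0 ≤ L 2 z) := Iff.rfl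
theorem mem_sP {z : ℂ} : z ∈ sP ↔ 0 < L 0 z ∧ 0 < L 3 z ∧ 0 < L 4 z ∧ (0 < L 1 z ∨ 0 < L 2 z) := Iff.rfl

theorem sP_subset : sP ⊆ P := fun _ h => ⟨h.1.le, h.2.1.le, h.2.2.1.le, h.2.2.2.imp le_of_lt le_of_lt⟩

theorem isOpen_sP : IsOpen sP := by
  have := fun k => isOpen_lt (continuous_const (y := (0:ℝ))) (continuous_L k)
  exact (this 0).inter ((this 3).inter ((this 4).inter ((this 1).union (this 2))))

theorem isClosed_P : IsClosed P := by
  have := fun k => isClosed_le (continuous_const (y := (0:ℝ))) (continuous_L k)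
  exact (this 0).inter ((this 3).inter ((this 4).inter ((this 1).union (this 2))))

/-- open sides -/
def O (k : Fin 5) : Set ℂ := openSegment ℝ (v k) (v (k + 1))

theorem mem_O {k : Fin 5} {z : ℂ} : z ∈ O k ↔ ∃ t : ℝ, 0 < t ∧ t < 1 ∧ z = v k + t * (v (k + 1) - v k) := by
  rw [O, openSegment_eq_image']
  constructor
  · rintro ⟨t, ⟨h1, h2⟩, rfl⟩
    exact ⟨t, h1, h2, by simp⟩
  · rintro ⟨t, h1, h2, rfl⟩
    exact ⟨t, ⟨h1, h2⟩, by simp⟩

/-- numeric facts about the parameters -/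
theorem k1 : 0 < c / 2 - s * h := by nlinarith [s_lb, s_ub, c_lb, c_ub, h_lb, h_ub, s_pos, c_pos]
theorem k2 : 0 < h - c := by linarith [c_ub, h_lb]
theorem k3 : 0 < 1 / 2 - s := by linarith [s_ub]
theorem k4 : 0 < c / 2 - 2 * c * s + s * h := by nlinarith only [s_lb, s_ub, c_lb, c_ub, h_lb, h_ub, s_pos, c_pos]
theorem k5 : 0 < h - s * h - c / 2 := by nlinarith [s_lb, s_ub, c_lb, c_ub, h_lb, h_ub, s_pos, c_pos]
theorem k6 : 0 < (s - 1/2) * c + (h - c) * (1 - s) := by nlinarith [s_lb, s_ub, c_lb, c_ub, h_lb, h_ub, s_pos, c_pos]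
theorem k7 : 0 < s * (h - c) + c * (1/2 + s) := by
  have := k2; have := s_pos; have := c_pos; positivity
theorem h_pos : 0 < h := by linarith [h_lb]

theorem T00 : L 0 (v 0) = 0 := by
  rw [L0, v0]; (try simp only [Complex.zero_re, Complex.zero_im, Complex.one_re, Complex.one_im]) <;> (try ring)
theorem T01 : L 0 (v 1) = 0 := by
  rw [L0, v1]; (try simp only [Complex.zero_re, Complex.zero_im, Complex.one_re, Complex.one_im]) <;> (try ring)
theorem T02 : L 0 (v 2) = h - c := by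
  rw [L0, v2]
theorem T03 : L 0 (v 3) = h := by
  rw [L0, v3]
theorem T04 : L 0 (v 4) = c := by
  rw [L0, v4]
theorem T10 : L 1 (v 0) = h - c := by
  rw [L1, v0]; (try simp only [Complex.zero_re, Complex.zero_im, Complex.one_re, Complex.one_im]) <;> (try ring)
theorem T11 : L 1 (v 1) = 0 := by
  rw [L1, v1]; (try simp only [Complex.zero_re, Complex.zero_im, Complex.one_re, Complex.one_im]) <;> (try ring)
theorem T12 : L 1 (v 2) = 0 := by
  rw [L1, v2]; (try simp only [Complex.zero_re, Complex.zero_im, Complex.one_re, Complex.one_im]) <;> (try ring)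
theorem T13 : L 1 (v 3) = -(c / 2 - s * h) := by
  rw [L1, v3]; (try simp only [Complex.zero_re, Complex.zero_im, Complex.one_re, Complex.one_im]) <;> (try ring)
theorem T14 : L 1 (v 4) = (s - 1/2) * c + (h - c) * (1 - s) := by
  rw [L1, v4]; (try simp only [Complex.zero_re, Complex.zero_im, Complex.one_re, Complex.one_im]) <;> (try ring)
theorem T20 : L 2 (v 0) = s * (h - c) + c * (1/2 + s) := by
  rw [L2, v0]; (try simp only [Complex.zero_re, Complex.zero_im, Complex.one_re, Complex.one_im]) <;> (try ring)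
theorem T21 : L 2 (v 1) = -(c / 2 - s * h) := by
  rw [L2, v1]; (try simp only [Complex.zero_re, Complex.zero_im, Complex.one_re, Complex.one_im]) <;> (try ring)
theorem T22 : L 2 (v 2) = 0 := by
  rw [L2, v2]; (try simp only [Complex.zero_re, Complex.zero_im, Complex.one_re, Complex.one_im]) <;> (try ring)
theorem T23 : L 2 (v 3) = 0 := by
  rw [L2, v3]; (try simp only [Complex.zero_re, Complex.zero_im, Complex.one_re, Complex.one_im]) <;> (try ring)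
theorem T24 : L 2 (v 4) = c / 2 - 2 * c * s + s * h := by
  rw [L2, v4]; (try simp only [Complex.zero_re, Complex.zero_im, Complex.one_re, Complex.one_im]) <;> (try ring)
theorem T30 : L 3 (v 0) = c / 2 - s * h := by
  rw [L3, v0]; (try simp only [Complex.zero_re, Complex.zero_im, Complex.one_re, Complex.one_im]) <;> (try ring)
theorem T31 : L 3 (v 1) = h - s * h - c / 2 := by
  rw [L3, v1]; (try simp only [Complex.zero_re, Complex.zero_im, Complex.one_re, Complex.one_im]) <;> (try ring)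
theorem T32 : L 3 (v 2) = c / 2 - 2 * c * s + s * h := by
  rw [L3, v2]; (try simp only [Complex.zero_re, Complex.zero_im, Complex.one_re, Complex.one_im]) <;> (try ring)
theorem T33 : L 3 (v 3) = 0 := by
  rw [L3, v3]; (try simp only [Complex.zero_re, Complex.zero_im, Complex.one_re, Complex.one_im]) <;> (try ring)
theorem T34 : L 3 (v 4) = 0 := by
  rw [L3, v4]; (try simp only [Complex.zero_re, Complex.zero_im, Complex.one_re, Complex.one_im]) <;> (try ring)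
theorem T40 : L 4 (v 0) = 0 := by
  rw [L4, v0]; (try simp only [Complex.zero_re, Complex.zero_im, Complex.one_re, Complex.one_im]) <;> (try ring)
theorem T41 : L 4 (v 1) = c := by
  rw [L4, v1]; (try simp only [Complex.zero_re, Complex.zero_im, Complex.one_re, Complex.one_im]) <;> (try ring)
theorem T42 : L 4 (v 2) = c / 2 - s * h + 2 * c * s := by
  rw [L4, v2]; (try simp only [Complex.zero_re, Complex.zero_im, Complex.one_re, Complex.one_im]) <;> (try ring)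
theorem T43 : L 4 (v 3) = c / 2 - s * h := by
  rw [L4, v3]; (try simp only [Complex.zero_re, Complex.zero_im, Complex.one_re, Complex.one_im]) <;> (try ring)
theorem T44 : L 4 (v 4) = 0 := by
  rw [L4, v4]; (try simp only [Complex.zero_re, Complex.zero_im, Complex.one_re, Complex.one_im]) <;> (try ring)

theorem O0 {z : ℂ} (hz : z ∈ O 0) : L 0 z = 0 ∧ 0 < L 3 z ∧ 0 < L 4 z ∧ 0 < L 1 z := by
  obtain ⟨t, h0, h1, rfl⟩ := mem_O.1 hz
  have h7 : 0 < 1 - t := by linarith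
  have := s_pos; have := c_pos; have := h_pos
  have a1 := k1; have a2 := k2; have a3 := k3; have a4 := k4; have a5 := k5; have a6 := k6; have a7 := k7
  refine ⟨?_, ?_, ?_, ?_⟩
  · rw [L_affine, f01, T00, T01]
    ring
  · rw [L_affine, f01, T30, T31]
    linarith only [a1, h0, a2, mul_pos h0 a1, mul_pos h0 a2, mul_pos h0 a3, mul_pos h0 a4, mul_pos h0 a5, mul_pos h0 a6, mul_pos h0 a7, mul_pos h7 a1, mul_pos h7 a2, mul_pos h7 a3, mul_pos h7 a4, mul_pos h7 a5, mul_pos h7 a6, mul_pos h7 a7, mul_pos h0 c_pos, mul_pos h7 c_pos, mul_pos h0 h_pos, mul_pos h7 h_pos, mul_pos h0 (mul_pos c_pos s_pos), mul_pos h7 (mul_pos c_pos s_pos)]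
  · rw [L_affine, f01, T40, T41]
    linarith only [h0, a1, a7, mul_pos h0 a1, mul_pos h0 a2, mul_pos h0 a3, mul_pos h0 a4, mul_pos h0 a5, mul_pos h0 a6, mul_pos h0 a7, mul_pos h7 a1, mul_pos h7 a2, mul_pos h7 a3, mul_pos h7 a4, mul_pos h7 a5, mul_pos h7 a6, mul_pos h7 a7, mul_pos h0 c_pos, mul_pos h7 c_pos, mul_pos h0 h_pos, mul_pos h7 h_pos, mul_pos h0 (mul_pos c_pos s_pos), mul_pos h7 (mul_pos c_pos s_pos)]
  · rw [L_affine, f01, T10, T11]
    linarith only [h7, a2, mul_pos h0 a1, mul_pos h0 a2, mul_pos h0 a3, mul_pos h0 a4, mul_pos h0 a5, mul_pos h0 a6, mul_pos h0 a7, mul_pos h7 a1, mul_pos h7 a2, mul_pos h7 a3, mul_pos h7 a4, mul_pos h7 a5, mul_pos h7 a6, mul_pos h7 a7, mul_pos h0 c_pos, mul_pos h7 c_pos, mul_pos h0 h_pos, mul_pos h7 h_pos, mul_pos h0 (mul_pos c_pos s_pos), mul_pos h7 (mul_pos c_pos s_pos)]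

theorem O1 {z : ℂ} (hz : z ∈ O 1) : L 1 z = 0 ∧ 0 < L 0 z ∧ 0 < L 3 z ∧ 0 < L 4 z ∧ L 2 z < 0 := by
  obtain ⟨t, h0, h1, rfl⟩ := mem_O.1 hz
  have h7 : 0 < 1 - t := by linarith
  have := s_pos; have := c_pos; have := h_pos
  have a1 := k1; have a2 := k2; have a3 := k3; have a4 := k4; have a5 := k5; have a6 := k6; have a7 := k7
  refine ⟨?_, ?_, ?_, ?_, ?_⟩
  · rw [L_affine, f12, T11, T12]
    ring
  · rw [L_affine, f12, T01, T02]
    linarith only [h0, a2, mul_pos h0 a1, mul_pos h0 a2, mul_pos h0 a3, mul_pos h0 a4, mul_pos h0 a5, mul_pos h0 a6, mul_pos h0 a7, mul_pos h7 a1, mul_pos h7 a2, mul_pos h7 a3, mul_pos h7 a4, mul_pos h7 a5, mul_pos h7 a6, mul_pos h7 a7, mul_pos h0 c_pos, mul_pos h7 c_pos, mul_pos h0 h_pos, mul_pos h7 h_pos, mul_pos h0 (mul_pos c_pos s_pos), mul_pos h7 (mul_pos c_pos s_pos)]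
  · rw [L_affine, f12, T31, T32]
    linarith only [h0, a4, h7, a1, a2, mul_pos h0 a1, mul_pos h0 a2, mul_pos h0 a3, mul_pos h0 a4, mul_pos h0 a5, mul_pos h0 a6, mul_pos h0 a7, mul_pos h7 a1, mul_pos h7 a2, mul_pos h7 a3, mul_pos h7 a4, mul_pos h7 a5, mul_pos h7 a6, mul_pos h7 a7, mul_pos h0 c_pos, mul_pos h7 c_pos, mul_pos h0 h_pos, mul_pos h7 h_pos, mul_pos h0 (mul_pos c_pos s_pos), mul_pos h7 (mul_pos c_pos s_pos)]
  · rw [L_affine, f12, T41, T42]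
    linarith only [h0, a1, h7, a7, mul_pos h0 a1, mul_pos h0 a2, mul_pos h0 a3, mul_pos h0 a4, mul_pos h0 a5, mul_pos h0 a6, mul_pos h0 a7, mul_pos h7 a1, mul_pos h7 a2, mul_pos h7 a3, mul_pos h7 a4, mul_pos h7 a5, mul_pos h7 a6, mul_pos h7 a7, mul_pos h0 c_pos, mul_pos h7 c_pos, mul_pos h0 h_pos, mul_pos h7 h_pos, mul_pos h0 (mul_pos c_pos s_pos), mul_pos h7 (mul_pos c_pos s_pos)]
  · rw [L_affine, f12, T21, T22]
    linarith only [h7, a1, mul_pos h0 a1, mul_pos h7 a1]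

theorem O2 {z : ℂ} (hz : z ∈ O 2) : L 2 z = 0 ∧ 0 < L 0 z ∧ 0 < L 3 z ∧ 0 < L 4 z ∧ L 1 z < 0 := by
  obtain ⟨t, h0, h1, rfl⟩ := mem_O.1 hz
  have h7 : 0 < 1 - t := by linarith
  have := s_pos; have := c_pos; have := h_pos
  have a1 := k1; have a2 := k2; have a3 := k3; have a4 := k4; have a5 := k5; have a6 := k6; have a7 := k7
  refine ⟨?_, ?_, ?_, ?_, ?_⟩
  · rw [L_affine, f23, T22, T23]
    ring
  · rw [L_affine, f23, T02, T03]
    linarith only [a2, h0, a1, a7, mul_pos h0 a1, mul_pos h0 a2, mul_pos h0 a3, mul_pos h0 a4, mul_pos h0 a5, mul_pos h0 a6, mul_pos h0 a7, mul_pos h7 a1, mul_pos h7 a2, mul_pos h7 a3, mul_pos h7 a4, mul_pos h7 a5, mul_pos h7 a6, mul_pos h7 a7, mul_pos h0 c_pos, mul_pos h7 c_pos, mul_pos h0 h_pos, mul_pos h7 h_pos, mul_pos h0 (mul_pos c_pos s_pos), mul_pos h7 (mul_pos c_pos s_pos)]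
  · rw [L_affine, f23, T32, T33]
    linarith only [h7, a4, mul_pos h0 a1, mul_pos h0 a2, mul_pos h0 a3, mul_pos h0 a4, mul_pos h0 a5, mul_pos h0 a6, mul_pos h0 a7, mul_pos h7 a1, mul_pos h7 a2, mul_pos h7 a3, mul_pos h7 a4, mul_pos h7 a5, mul_pos h7 a6, mul_pos h7 a7, mul_pos h0 c_pos, mul_pos h7 c_pos, mul_pos h0 h_pos, mul_pos h7 h_pos, mul_pos h0 (mul_pos c_pos s_pos), mul_pos h7 (mul_pos c_pos s_pos)]
  · rw [L_affine, f23, T42, T43]
    linarith only [h0, a1, h7, mul_pos h0 a1, mul_pos h0 a2, mul_pos h0 a3, mul_pos h0 a4, mul_pos h0 a5, mul_pos h0 a6, mul_pos h0 a7, mul_pos h7 a1, mul_pos h7 a2, mul_pos h7 a3, mul_pos h7 a4, mul_pos h7 a5, mul_pos h7 a6, mul_pos h7 a7, mul_pos h0 c_pos, mul_pos h7 c_pos, mul_pos h0 h_pos, mul_pos h7 h_pos, mul_pos h0 (mul_pos c_pos s_pos), mul_pos h7 (mul_pos c_pos s_pos)]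
  · rw [L_affine, f23, T12, T13]
    linarith only [h0, a1, mul_pos h0 a1, mul_pos h7 a1]

theorem O3 {z : ℂ} (hz : z ∈ O 3) : L 3 z = 0 ∧ 0 < L 0 z ∧ 0 < L 4 z ∧ 0 < L 2 z := by
  obtain ⟨t, h0, h1, rfl⟩ := mem_O.1 hz
  have h7 : 0 < 1 - t := by linarith
  have := s_pos; have := c_pos; have := h_pos
  have a1 := k1; have a2 := k2; have a3 := k3; have a4 := k4; have a5 := k5; have a6 := k6; have a7 := k7
  refine ⟨?_, ?_, ?_, ?_⟩
  · rw [L_affine, f34, T33, T34]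
    ring
  · rw [L_affine, f34, T03, T04]
    linarith only [a7, h0, a1, h7, a2, mul_pos h0 a1, mul_pos h0 a2, mul_pos h0 a3, mul_pos h0 a4, mul_pos h0 a5, mul_pos h0 a6, mul_pos h0 a7, mul_pos h7 a1, mul_pos h7 a2, mul_pos h7 a3, mul_pos h7 a4, mul_pos h7 a5, mul_pos h7 a6, mul_pos h7 a7, mul_pos h0 c_pos, mul_pos h7 c_pos, mul_pos h0 h_pos, mul_pos h7 h_pos, mul_pos h0 (mul_pos c_pos s_pos), mul_pos h7 (mul_pos c_pos s_pos)]
  · rw [L_affine, f34, T43, T44]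
    linarith only [h7, a1, mul_pos h0 a1, mul_pos h0 a2, mul_pos h0 a3, mul_pos h0 a4, mul_pos h0 a5, mul_pos h0 a6, mul_pos h0 a7, mul_pos h7 a1, mul_pos h7 a2, mul_pos h7 a3, mul_pos h7 a4, mul_pos h7 a5, mul_pos h7 a6, mul_pos h7 a7, mul_pos h0 c_pos, mul_pos h7 c_pos, mul_pos h0 h_pos, mul_pos h7 h_pos, mul_pos h0 (mul_pos c_pos s_pos), mul_pos h7 (mul_pos c_pos s_pos)]
  · rw [L_affine, f34, T23, T24]
    linarith only [h0, a4, mul_pos h0 a1, mul_pos h0 a2, mul_pos h0 a3, mul_pos h0 a4, mul_pos h0 a5, mul_pos h0 a6, mul_pos h0 a7, mul_pos h7 a1, mul_pos h7 a2, mul_pos h7 a3, mul_pos h7 a4, mul_pos h7 a5, mul_pos h7 a6, mul_pos h7 a7, mul_pos h0 c_pos, mul_pos h7 c_pos, mul_pos h0 h_pos, mul_pos h7 h_pos, mul_pos h0 (mul_pos c_pos s_pos), mul_pos h7 (mul_pos c_pos s_pos)]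

theorem O4 {z : ℂ} (hz : z ∈ O 4) : L 4 z = 0 ∧ 0 < L 0 z ∧ 0 < L 3 z ∧ 0 < L 1 z ∧ 0 < L 2 z := by
  obtain ⟨t, h0, h1, rfl⟩ := mem_O.1 hz
  have h7 : 0 < 1 - t := by linarith
  have := s_pos; have := c_pos; have := h_pos
  have a1 := k1; have a2 := k2; have a3 := k3; have a4 := k4; have a5 := k5; have a6 := k6; have a7 := k7
  refine ⟨?_, ?_, ?_, ?_, ?_⟩
  · rw [L_affine, f40, T44, T40]
    ring
  · rw [L_affine, f40, T04, T00]
    linarith only [h7, a1, a7, mul_pos h0 a1, mul_pos h0 a2, mul_pos h0 a3, mul_pos h0 a4, mul_pos h0 a5, mul_pos h0 a6, mul_pos h0 a7, mul_pos h7 a1, mul_pos h7 a2, mul_pos h7 a3, mul_pos h7 a4, mul_pos h7 a5, mul_pos h7 a6, mul_pos h7 a7, mul_pos h0 c_pos, mul_pos h7 c_pos, mul_pos h0 h_pos, mul_pos h7 h_pos, mul_pos h0 (mul_pos c_pos s_pos), mul_pos h7 (mul_pos c_pos s_pos)]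
  · rw [L_affine, f40, T34, T30]
    linarith only [h0, a1, mul_pos h0 a1, mul_pos h0 a2, mul_pos h0 a3, mul_pos h0 a4, mul_pos h0 a5, mul_pos h0 a6, mul_pos h0 a7, mul_pos h7 a1, mul_pos h7 a2, mul_pos h7 a3, mul_pos h7 a4, mul_pos h7 a5, mul_pos h7 a6, mul_pos h7 a7, mul_pos h0 c_pos, mul_pos h7 c_pos, mul_pos h0 h_pos, mul_pos h7 h_pos, mul_pos h0 (mul_pos c_pos s_pos), mul_pos h7 (mul_pos c_pos s_pos)]
  · rw [L_affine, f40, T14, T10]
    linarith only [a6, h0, a4, mul_pos h0 a1, mul_pos h0 a2, mul_pos h0 a3, mul_pos h0 a4, mul_pos h0 a5, mul_pos h0 a6, mul_pos h0 a7, mul_pos h7 a1, mul_pos h7 a2, mul_pos h7 a3, mul_pos h7 a4, mul_pos h7 a5, mul_pos h7 a6, mul_pos h7 a7, mul_pos h0 c_pos, mul_pos h7 c_pos, mul_pos h0 h_pos, mul_pos h7 h_pos, mul_pos h0 (mul_pos c_pos s_pos), mul_pos h7 (mul_pos c_pos s_pos)]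
  · rw [L_affine, f40, T24, T20]
    linarith only [h0, a7, h7, a4, mul_pos h0 a1, mul_pos h0 a2, mul_pos h0 a3, mul_pos h0 a4, mul_pos h0 a5, mul_pos h0 a6, mul_pos h0 a7, mul_pos h7 a1, mul_pos h7 a2, mul_pos h7 a3, mul_pos h7 a4, mul_pos h7 a5, mul_pos h7 a6, mul_pos h7 a7, mul_pos h0 c_pos, mul_pos h7 c_pos, mul_pos h0 h_pos, mul_pos h7 h_pos, mul_pos h0 (mul_pos c_pos s_pos), mul_pos h7 (mul_pos c_pos s_pos)]

end Pool.Agent.Helper72.Pent
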