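import Pool.Agent.Helper72.Pent.Shape

set_option linter.all false

namespace Pool.Agent.Helper72.Pent

open MeasureTheory Set Metric Filter Topology
open scoped ENNReal

/-- converse criteria for the open sides -/
theorem O0' {z : ℂ} (h0 : L 0 z = 0) (h1 : 0 < L 4 z) (h2 : 0 < L 1 z) : z ∈ O 0 := by
  rw [L0] at h0; rw [L4, h0] at h1; rw [L1, h0] at h2
  have := c_pos; have := k2
  have hx : 0 < z.re := by
    by_contra hc; push Not at hc; nlinarith
  have hx1 : z.re < 1 := by
    by_contra hc; push Not at hc; nlinarith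
  refine mem_O.2 ⟨z.re, hx, hx1, ?_⟩
  rw [f01, v0, v1]
  apply Complex.ext <;> simp [h0]

theorem O4' {z : ℂ} (h4 : L 4 z = 0) (h1 : 0 < L 0 z) (h2 : 0 < L 3 z) : z ∈ O 4 := by
  rw [L4] at h4; rw [L0] at h1; rw [L3] at h2
  have hc := c_pos; have hs := s_pos; have a1 := k1
  have hx : z.re = s * (z.im / c) := by field_simp; linarith
  have e1 : (s - 1/2) * (z.im - h) + (h - c) * (z.re - 1/2) = (1 - z.im / c) * (c / 2 - s * h) := by
    rw [hx]; field_simp; ring
  rw [e1] at h2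
  have h3 : z.im / c < 1 := by
    by_contra hcc; push Not at hcc; nlinarith
  have h5 : 0 < z.im / c := by positivity
  refine mem_O.2 ⟨1 - z.im / c, by linarith, by linarith, ?_⟩
  rw [f40, v4, v0]
  apply Complex.ext
  · simp [hx]; ring
  · simp; field_simp; ring

theorem O3' {z : ℂ} (h3 : L 3 z = 0) (h1 : 0 < L 4 z) (h2 : 0 < L 2 z) : z ∈ O 3 := by
  rw [L3] at h3; rw [L4] at h1; rw [L2] at h2
  have hc := c_pos; have hs := s_pos; have a1 := k1; have a2 := k2; have a3 := k3; have a4 := k4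
  set t := (h - z.im) / (h - c) with ht
  have hy : z.im = h + t * (c - h) := by rw [ht]; field_simp; ring
  have hx : z.re = 1/2 + t * (s - 1/2) := by
    have : (h - c) * (z.re - 1/2) = (h - c) * (t * (s - 1/2)) := by
      rw [hy] at h3; linarith
    have := mul_left_cancel₀ (ne_of_gt a2) this
    linarith
  rw [hy, hx] at h1 h2
  have e1 : c * (1/2 + t * (s - 1/2)) - s * (h + t * (c - h)) = (1 - t) * (c / 2 - s * h) := by ring
  have e2 : - s * (h + t * (c - h) - (h - c)) - c * (1/2 + t * (s - 1/2) - 1/2 - s) = t * (c / 2 - 2 * c * s + s * h) := by ring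
  rw [e1] at h1; rw [e2] at h2
  refine mem_O.2 ⟨t, ?_, ?_, ?_⟩
  · by_contra hcc; push Not at hcc; nlinarith
  · by_contra hcc; push Not at hcc; nlinarith
  · rw [f34, v3, v4]
    apply Complex.ext
    · simp [hx]
    · simp [hy]

theorem O2' {z : ℂ} (h3 : L 2 z = 0) (h1 : 0 < L 3 z) (h2 : L 1 z < 0) : z ∈ O 2 := by
  rw [L2] at h3; rw [L3] at h1; rw [L1] at h2
  have hc := c_pos; have hs := s_pos; have a1 := k1; have a2 := k2; have a3 := k3; have a4 := k4
  set t := (z.im - (h - c)) / c with ht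
  have hy : z.im = (h - c) + t * c := by rw [ht]; field_simp; ring
  have hx : z.re = 1/2 + s - t * s := by
    have : c * z.re = c * (1/2 + s - t * s) := by
      rw [hy] at h3; linarith
    exact mul_left_cancel₀ (ne_of_gt hc) this
  rw [hy, hx] at h1 h2
  have e1 : (s - 1/2) * (h - c + t * c - h) + (h - c) * (1/2 + s - t * s - 1/2) = (1 - t) * (c / 2 - 2 * c * s + s * h) := by ring
  have e2 : (s - 1/2) * (h - c + t * c) - (h - c) * (1/2 + s - t * s - 1) = t * -(c / 2 - s * h) := by ring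
  rw [e1] at h1; rw [e2] at h2
  refine mem_O.2 ⟨t, ?_, ?_, ?_⟩
  · by_contra hcc; push Not at hcc; nlinarith
  · by_contra hcc; push Not at hcc; nlinarith
  · rw [f23, v2, v3]
    apply Complex.ext
    · simp [hx]; ring
    · simp [hy]

theorem O1' {z : ℂ} (h3 : L 1 z = 0) (h1 : 0 < L 0 z) (h2 : L 2 z < 0) : z ∈ O 1 := by
  rw [L1] at h3; rw [L0] at h1; rw [L2] at h2
  have hc := c_pos; have hs := s_pos; have a1 := k1; have a2 := k2; have a3 := k3; have a4 := k4
  set t := z.im / (h - c) with ht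
  have hy : z.im = t * (h - c) := by rw [ht]; field_simp
  have hx : z.re = 1 + t * (s - 1/2) := by
    have : (h - c) * z.re = (h - c) * (1 + t * (s - 1/2)) := by
      rw [hy] at h3; linarith
    exact mul_left_cancel₀ (ne_of_gt a2) this
  rw [hy, hx] at h2
  have e2 : - s * (t * (h - c) - (h - c)) - c * (1 + t * (s - 1/2) - 1/2 - s) = (1 - t) * -(c / 2 - s * h) := by ring
  rw [e2] at h2
  refine mem_O.2 ⟨t, by positivity, ?_, ?_⟩
  · by_contra hcc; push Not at hcc; nlinarith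
  · rw [f12, v1, v2]
    apply Complex.ext
    · simp only [hx, Complex.add_re, Complex.one_re, Complex.mul_re, Complex.ofReal_re, Complex.ofReal_im, Complex.sub_re, Complex.sub_im]; ring
    · simp [hy]

/-- point determined by two lines -/
theorem eq_v0 {z : ℂ} (h0 : L 0 z = 0) (h4 : L 4 z = 0) : z = v 0 := by
  rw [L0] at h0; rw [L4, h0] at h4
  have : z.re = 0 := by
    have := c_pos
    have h5 : c * z.re = 0 := by linarith
    exact (mul_eq_zero.1 h5).resolve_left this.ne'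
  rw [v0]; exact Complex.ext this h0

theorem eq_v1 {z : ℂ} (h0 : L 0 z = 0) (h1 : L 1 z = 0) : z = v 1 := by
  rw [L0] at h0; rw [L1, h0] at h1
  have : z.re = 1 := by
    have := k2
    have h5 : (h - c) * (z.re - 1) = 0 := by linarith
    have := (mul_eq_zero.1 h5).resolve_left this.ne'
    linarith
  rw [v1]; exact Complex.ext this h0

theorem eq_v4 {z : ℂ} (h3 : L 3 z = 0) (h4 : L 4 z = 0) : z = v 4 := by
  rw [L3] at h3; rw [L4] at h4
  have hc := c_pos; have hs := s_pos; have a1 := k1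
  have hx : z.re = s * (z.im / c) := by field_simp; linarith
  have e1 : (s - 1/2) * (z.im - h) + (h - c) * (z.re - 1/2) = (1 - z.im / c) * (c / 2 - s * h) := by
    rw [hx]; field_simp; ring
  rw [e1] at h3
  have h6 : 1 - z.im / c = 0 := (mul_eq_zero.1 h3).resolve_right a1.ne'
  have h7 : z.im / c = 1 := by linarith
  rw [v4]; apply Complex.ext
  · simp [hx, h7]
  · simp; field_simp at h7; exact h7

theorem eq_v3 {z : ℂ} (h3 : L 3 z = 0) (h2 : L 2 z = 0) : z = v 3 := by
  rw [L3] at h3; rw [L2] at h2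
  have hc := c_pos; have hs := s_pos; have a1 := k1; have a2 := k2; have a4 := k4
  set t := (h - z.im) / (h - c) with ht
  have hy : z.im = h + t * (c - h) := by rw [ht]; field_simp; ring
  have hx : z.re = 1/2 + t * (s - 1/2) := by
    have : (h - c) * (z.re - 1/2) = (h - c) * (t * (s - 1/2)) := by
      rw [hy] at h3; linarith
    have := mul_left_cancel₀ (ne_of_gt a2) this
    linarith
  rw [hy, hx] at h2
  have e2 : - s * (h + t * (c - h) - (h - c)) - c * (1/2 + t * (s - 1/2) - 1/2 - s) = t * (c / 2 - 2 * c * s + s * h) := by ring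
  rw [e2] at h2
  have ht0 : t = 0 := (mul_eq_zero.1 h2).resolve_right a4.ne'
  rw [v3]; apply Complex.ext
  · simp [hx, ht0]
  · simp [hy, ht0]

theorem eq_v2 {z : ℂ} (h1 : L 1 z = 0) (h2 : L 2 z = 0) : z = v 2 := by
  rw [L1] at h1; rw [L2] at h2
  have hc := c_pos; have hs := s_pos; have a1 := k1; have a2 := k2; have a4 := k4
  set t := z.im / (h - c) with ht
  have hy : z.im = t * (h - c) := by rw [ht]; field_simp
  have hx : z.re = 1 + t * (s - 1/2) := by
    have : (h - c) * z.re = (h - c) * (1 + t * (s - 1/2)) := by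
      rw [hy] at h1; linarith
    exact mul_left_cancel₀ (ne_of_gt a2) this
  rw [hy, hx] at h2
  have e2 : - s * (t * (h - c) - (h - c)) - c * (1 + t * (s - 1/2) - 1/2 - s) = (1 - t) * -(c / 2 - s * h) := by ring
  rw [e2] at h2
  have ht0 : 1 - t = 0 := (mul_eq_zero.1 h2).resolve_right (by linarith)
  have ht1 : t = 1 := by linarith
  rw [v2]; apply Complex.ext
  · simp [hx, ht1]; ring
  · simp [hy, ht1]

/-- classification of the points of the pentagon -/
theorem P_cases {z : ℂ} (hz : z ∈ P) : z ∈ sP ∨ (∃ k, z ∈ O k) ∨ ∃ k, z = v k := by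
  obtain ⟨p0, p3, p4, p12⟩ := hz
  have hc := c_pos; have hs := s_pos; have hh := h_pos; have a1 := k1; have a2 := k2; have a3 := k3; have a4 := k4; have a5 := k5; have a6 := k6; have a7 := k7
  rcases p0.eq_or_lt with h0 | h0
  · -- L0 = 0
    have h0' := h0.symm
    rcases p4.eq_or_lt with h4 | h4
    · exact Or.inr (Or.inr ⟨0, eq_v0 h0' h4.symm⟩)
    · by_cases h1 : 0 < L 1 z
      · exact Or.inr (Or.inl ⟨0, O0' h0' h4 h1⟩)
      · push Not at h1
        rcases h1.eq_or_lt with h1 | h1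
        · exact Or.inr (Or.inr ⟨1, eq_v1 h0' h1⟩)
        · exfalso
          have h2 : 0 ≤ L 2 z := p12.resolve_left (by linarith)
          rw [L0] at h0'; rw [L1, h0'] at h1; rw [L2, h0'] at h2
          have : z.re > 1 := by
            by_contra hcc; push Not at hcc; nlinarith
          nlinarith
  rcases p4.eq_or_lt with h4 | h4
  · rcases p3.eq_or_lt with h3 | h3
    · exact Or.inr (Or.inr ⟨4, eq_v4 h3.symm h4.symm⟩)
    · exact Or.inr (Or.inl ⟨4, O4' h4.symm h0 h3⟩)
  rcases p3.eq_or_lt with h3 | h3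
  · by_cases h2 : 0 < L 2 z
    · exact Or.inr (Or.inl ⟨3, O3' h3.symm h4 h2⟩)
    · push Not at h2
      rcases h2.eq_or_lt with h2 | h2
      · exact Or.inr (Or.inr ⟨3, eq_v3 h3.symm h2⟩)
      · exfalso
        have h1 : 0 ≤ L 1 z := p12.resolve_right (by linarith)
        have h3' := h3.symm
        rw [L3] at h3'; rw [L2] at h2; rw [L1] at h1
        set t := (h - z.im) / (h - c) with ht
        have hy : z.im = h + t * (c - h) := by rw [ht]; field_simp; ring
        have hx : z.re = 1/2 + t * (s - 1/2) := by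
          have : (h - c) * (z.re - 1/2) = (h - c) * (t * (s - 1/2)) := by
            rw [hy] at h3'; linarith
          have := mul_left_cancel₀ (ne_of_gt a2) this
          linarith
        rw [hy, hx] at h2 h1
        have e2 : - s * (h + t * (c - h) - (h - c)) - c * (1/2 + t * (s - 1/2) - 1/2 - s) = t * (c / 2 - 2 * c * s + s * h) := by ring
        have e1 : (s - 1/2) * (h + t * (c - h)) - (h - c) * (1/2 + t * (s - 1/2) - 1) = -(c / 2 - s * h) + t * (((s - 1/2) * c + (h - c) * (1 - s)) + (c / 2 - s * h)) := by ring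
        rw [e2] at h2; rw [e1] at h1
        have : t < 0 := by
          by_contra hcc; push Not at hcc; nlinarith
        nlinarith
  by_cases hs' : 0 < L 1 z ∨ 0 < L 2 z
  · exact Or.inl ⟨h0, h3, h4, hs'⟩
  · push Not at hs'
    obtain ⟨h1, h2⟩ := hs'
    rcases h1.eq_or_lt with h1 | h1
    · rcases h2.eq_or_lt with h2 | h2
      · exact Or.inr (Or.inr ⟨2, eq_v2 h1 h2⟩)
      · exact Or.inr (Or.inl ⟨1, O1' h1 h0 h2⟩)
    · have h2' : L 2 z = 0 := le_antisymm h2 (p12.resolve_left (by linarith))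
      exact Or.inr (Or.inl ⟨2, O2' h2' h3 h1⟩)

theorem v_mem_P (k : Fin 5) : v k ∈ P := by
  have hc := c_pos; have hs := s_pos; have hh := h_pos; have a1 := k1; have a2 := k2; have a3 := k3; have a4 := k4; have a5 := k5; have a6 := k6; have a7 := k7
  fin_cases k
  · exact ⟨T00.ge, by rw [Fin.zero_eta, T30]; exact a1.le, T40.ge, Or.inl (by rw [Fin.zero_eta, T10]; exact a2.le)⟩
  · exact ⟨T01.ge, by rw [Fin.mk_one, T31]; exact a5.le, by rw [Fin.mk_one, T41]; exact hc.le, Or.inl T11.ge⟩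
  · exact ⟨T02 ▸ a2.le, T32 ▸ a4.le, by rw [show (⟨2, by norm_num⟩ : Fin 5) = 2 from rfl, T42]; nlinarith, Or.inl T12.ge⟩
  · exact ⟨T03 ▸ hh.le, T33.ge, T43 ▸ a1.le, Or.inr T23.ge⟩
  · exact ⟨T04 ▸ hc.le, T34.ge, T44.ge, Or.inl (T14 ▸ a6.le)⟩

theorem O_sub_P {k : Fin 5} : O k ⊆ P := by
  intro z hz
  fin_cases k
  · obtain ⟨h0, h3, h4, h1⟩ := O0 hz
    exact ⟨h0.ge, h3.le, h4.le, Or.inl h1.le⟩
  · obtain ⟨h1, h0, h3, h4, h2⟩ := O1 hz
    exact ⟨h0.le, h3.le, h4.le, Or.inl h1.ge⟩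
  · obtain ⟨h2, h0, h3, h4, h1⟩ := O2 hz
    exact ⟨h0.le, h3.le, h4.le, Or.inr h2.ge⟩
  · obtain ⟨h3, h0, h4, h2⟩ := O3 hz
    exact ⟨h0.le, h3.ge, h4.le, Or.inr h2.le⟩
  · obtain ⟨h4, h0, h3, h1, h2⟩ := O4 hz
    exact ⟨h0.le, h3.le, h4.ge, Or.inr h2.le⟩

theorem O_not_sP {k : Fin 5} {z : ℂ} (hz : z ∈ O k) : z ∉ sP := by
  rintro ⟨q0, q3, q4, q12⟩
  fin_cases k
  · obtain ⟨h0, h3, h4, h1⟩ := O0 hz
    linarith
  · obtain ⟨h1, h0, h3, h4, h2⟩ := O1 hz
    rcases q12 with q | q <;> linarith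
  · obtain ⟨h2, h0, h3, h4, h1⟩ := O2 hz
    rcases q12 with q | q <;> linarith
  · obtain ⟨h3, h0, h4, h2⟩ := O3 hz
    linarith
  · obtain ⟨h4, h0, h3, h1, h2⟩ := O4 hz
    linarith

theorem v_not_sP (k : Fin 5) : v k ∉ sP := by
  rintro ⟨q0, q3, q4, q12⟩
  fin_cases k
  · have := T00; simp only [Fin.zero_eta] at q0; linarith
  · have := T01; simp only [Fin.mk_one] at q0; linarith
  · have := T12; have := T22
    rcases q12 with q | q
    · exact absurd q (not_lt.2 T12.le)
    · exact absurd q (not_lt.2 T22.le)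
  · exact absurd q3 (not_lt.2 T33.le)
  · exact absurd q3 (not_lt.2 T34.le)

theorem OL0 {k : Fin 5} {z : ℂ} (hk : k ≠ 0) (hz : z ∈ O k) : 0 < L 0 z := by
  fin_cases k
  · exact absurd rfl hk
  · exact (O1 hz).2.1
  · exact (O2 hz).2.1
  · exact (O3 hz).2.1
  · exact (O4 hz).2.1

theorem OL4 {k : Fin 5} {z : ℂ} (hk : k ≠ 0) (hk4 : k ≠ 4) (hz : z ∈ O k) : 0 < L 4 z := by
  fin_cases k
  · exact absurd rfl hk
  · exact (O1 hz).2.2.2.1
  · exact (O2 hz).2.2.2.1
  · exact (O3 hz).2.2.1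
  · exact absurd rfl hk4

theorem OL3 {k : Fin 5} {z : ℂ} (hk : k ≠ 3) (hz : z ∈ O k) : 0 < L 3 z := by
  fin_cases k
  · exact (O0 hz).2.1
  · exact (O1 hz).2.2.1
  · exact (O2 hz).2.2.1
  · exact absurd rfl hk
  · exact (O4 hz).2.2.1

theorem O_disj {j k : Fin 5} {z : ℂ} (hj : z ∈ O j) (hk : z ∈ O k) : j = k := by
  by_cases j0 : j = 0
  · subst j0
    by_contra hne
    have := OL0 (Ne.symm hne) hk
    have := (O0 hj).1
    linarith
  by_cases k0 : k = 0
  · subst k0
    have := OL0 j0 hj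
    have := (O0 hk).1
    linarith
  by_cases j4 : j = 4
  · subst j4
    by_contra hne
    have := OL4 k0 (Ne.symm hne) hk
    have := (O4 hj).1
    linarith
  by_cases k4 : k = 4
  · subst k4
    have := OL4 j0 j4 hj
    have := (O4 hk).1
    linarith
  by_cases j3 : j = 3
  · subst j3
    by_contra hne
    have := OL3 (Ne.symm hne) hk
    have := (O3 hj).1
    linarith
  by_cases k3 : k = 3
  · subst k3
    have := OL3 j3 hj
    have := (O3 hk).1
    linarith
  have hj' : j = 1 ∨ j = 2 := by omega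
  have hk' : k = 1 ∨ k = 2 := by omega
  rcases hj' with rfl | rfl <;> rcases hk' with rfl | rfl
  · rfl
  · exfalso; have := (O1 hj).2.2.2.2; have := (O2 hk).1; linarith
  · exfalso; have := (O2 hj).1; have := (O1 hk).2.2.2.2; linarith
  · rfl

theorem v_not_O {j k : Fin 5} : v j ∉ O k := by
  intro hz
  have hc := c_pos; have hs := s_pos; have hh := h_pos; have a1 := k1; have a2 := k2; have a3 := k3; have a4 := k4; have a5 := k5; have a6 := k6; have a7 := k7
  fin_cases k
  · have b := O0 hz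
    fin_cases j
    · linarith [b.2.2.1, show L 4 (v 0) = 0 from T40, show L 4 (v (⟨0, by norm_num⟩ : Fin 5)) = L 4 (v 0) from rfl]
    · linarith [b.2.2.2, show L 1 (v (⟨1, by norm_num⟩ : Fin 5)) = 0 from T11]
    · linarith [b.1, show L 0 (v (⟨2, by norm_num⟩ : Fin 5)) = h - c from T02]
    · linarith [b.1, show L 0 (v (⟨3, by norm_num⟩ : Fin 5)) = h from T03]
    · linarith [b.1, show L 0 (v (⟨4, by norm_num⟩ : Fin 5)) = c from T04]
  · have b := O1 hz
    fin_cases j
    · linarith [b.2.1, show L 0 (v (⟨0, by norm_num⟩ : Fin 5)) = 0 from T00]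
    · linarith [b.2.1, show L 0 (v (⟨1, by norm_num⟩ : Fin 5)) = 0 from T01]
    · linarith [b.2.2.2.2, show L 2 (v (⟨2, by norm_num⟩ : Fin 5)) = 0 from T22]
    · linarith [b.2.2.2.2, show L 2 (v (⟨3, by norm_num⟩ : Fin 5)) = 0 from T23]
    · linarith [b.2.2.2.1, show L 4 (v (⟨4, by norm_num⟩ : Fin 5)) = 0 from T44]
  · have b := O2 hz
    fin_cases j
    · linarith [b.2.1, show L 0 (v (⟨0, by norm_num⟩ : Fin 5)) = 0 from T00]
    · linarith [b.2.1, show L 0 (v (⟨1, by norm_num⟩ : Fin 5)) = 0 from T01]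
    · linarith [b.2.2.2.2, show L 1 (v (⟨2, by norm_num⟩ : Fin 5)) = 0 from T12]
    · linarith [b.2.2.1, show L 3 (v (⟨3, by norm_num⟩ : Fin 5)) = 0 from T33]
    · linarith [b.2.2.1, show L 3 (v (⟨4, by norm_num⟩ : Fin 5)) = 0 from T34]
  · have b := O3 hz
    fin_cases j
    · linarith [b.2.1, show L 0 (v (⟨0, by norm_num⟩ : Fin 5)) = 0 from T00]
    · linarith [b.2.1, show L 0 (v (⟨1, by norm_num⟩ : Fin 5)) = 0 from T01]
    · linarith [b.2.2.2, show L 2 (v (⟨2, by norm_num⟩ : Fin 5)) = 0 from T22]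
    · linarith [b.2.2.2, show L 2 (v (⟨3, by norm_num⟩ : Fin 5)) = 0 from T23]
    · linarith [b.2.2.1, show L 4 (v (⟨4, by norm_num⟩ : Fin 5)) = 0 from T44]
  · have b := O4 hz
    fin_cases j
    · linarith [b.2.1, show L 0 (v (⟨0, by norm_num⟩ : Fin 5)) = 0 from T00]
    · linarith [b.2.1, show L 0 (v (⟨1, by norm_num⟩ : Fin 5)) = 0 from T01]
    · linarith [b.2.2.2.1, show L 1 (v (⟨2, by norm_num⟩ : Fin 5)) = 0 from T12]
    · linarith [b.2.2.1, show L 3 (v (⟨3, by norm_num⟩ : Fin 5)) = 0 from T33]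
    · linarith [b.2.2.1, show L 3 (v (⟨4, by norm_num⟩ : Fin 5)) = 0 from T34]

end Pool.Agent.Helper72.Pent
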