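import Pool.Agent.Helper72.Pent.Area

set_option linter.all false

namespace Pool.Agent.Helper72.Pent

open MeasureTheory Set Metric Filter Topology
open scoped ENNReal

variable {K : ℕ} {w1 w2 : ℂ} {g : Fin K → ℂ ≃ᵢ ℂ} {o : Fin K → Bool}

/-- table of the tiles around each vertex -/
structure StarTable (w1 w2 : ℂ) (g : Fin K → ℂ ≃ᵢ ℂ) (st : Fin K → Fin 5 → Finset ((ℤ × ℤ) × Fin K × Fin 5)) : Prop where
  eq : ∀ k s x, x ∈ st k s → g x.2.1 (v x.2.2) + tr w1 w2 x.1 = g k (v s)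
  inj : ∀ k s x, x ∈ st k s → ∀ y, y ∈ st k s → x.1 = y.1 → x.2.1 = y.2.1 → x = y
  sum : ∀ k s, ∑ x ∈ st k s, dv x.2.2 = Real.pi

theorem star_mem {st : Fin K → Fin 5 → Finset ((ℤ × ℤ) × Fin K × Fin 5)} (hst : StarTable w1 w2 g st)
    (hd : DisjInt (fam w1 w2 g)) (hc : ∀ z, ∃ i, z ∈ T (fam w1 w2 g) i) {p q : ℤ × ℤ} {k l : Fin K} {s : Fin 5}
    (h : fam w1 w2 g (p, k) (v s) ∈ T (fam w1 w2 g) (q, l)) : ∃ x ∈ st k s, q = p + x.1 ∧ l = x.2.1 := by
  classical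
  set z := fam w1 w2 g (p, k) (v s) with hz
  have hv : ∀ x ∈ st k s, fam w1 w2 g (p + x.1, x.2.1) (v x.2.2) = z := by
    intro x hx
    rw [hz, fam_apply, fam_apply, tr_add, ← hst.eq k s x hx]; ring
  have h1 := star_complete (fam w1 w2 g) hd hc z ((st k s).image (fun x => (p + x.1, x.2.1))) (by
      intro i hi
      obtain ⟨x, hx, rfl⟩ := Finset.mem_image.1 hi
      exact ⟨v x.2.2, v_mem_P _, hv x hx⟩) (by
      rw [Finset.sum_image]
      · rw [← hst.sum k s]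
        apply Finset.sum_congr rfl
        intro x hx
        rw [densT, ← hv x hx]
        simp [dens_v]
      · intro x hx y hy hxy
        simp only [Prod.mk.injEq, add_right_inj] at hxy
        exact hst.inj k s x hx y hy hxy.1 hxy.2) h
  obtain ⟨x, hx, hx2⟩ := Finset.mem_image.1 h1
  simp only [Prod.mk.injEq] at hx2
  exact ⟨x, hx, hx2.1.symm, hx2.2.symm⟩

theorem shared_side {δ : Fin K → Fin 5 → (ℤ × ℤ) × Fin K × Fin 5} (h : Table w1 w2 g o δ) (p : ℤ × ℤ) (k : Fin K) (s : Fin 5) :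
    (edge (fam w1 w2 g (p + (δ k s).1, (δ k s).2.1)) (o (δ k s).2.1) (δ k s).2.2) = (edge (fam w1 w2 g (p, k)) (o k) s).swap := by
  rw [edge_fam, edge_fam]
  have h1 := h.e1 k s
  have h2 := h.e2 k s
  ext1
  · simp only [Prod.fst_swap]
    rw [← h1, tr_add]; ring
  · simp only [Prod.snd_swap]
    rw [← h2, tr_add]; ring

theorem image_O_eq {f f' : ℂ ≃ᵢ ℂ} {b b' : Bool} {s s' : Fin 5} (h : edge f' b' s' = (edge f b s).swap) :
    f' '' O s' = f '' O s := by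
  have key : ∀ (f : ℂ ≃ᵢ ℂ) (b : Bool) (s : Fin 5), f '' O s = openSegment ℝ (edge f b s).1 (edge f b s).2 := by
    intro f b s
    ext y
    rw [mem_edge_iff, mem_image_iff]
  rw [key f' b' s', key f b s, h, Prod.fst_swap, Prod.snd_swap, openSegment_symm]

theorem image_side_eq {f f' : ℂ ≃ᵢ ℂ} {b b' : Bool} {s s' : Fin 5} (h : edge f' b' s' = (edge f b s).swap) :
    f' '' segment ℝ (v s') (v (s' + 1)) = f '' segment ℝ (v s) (v (s + 1)) := by
  have key : ∀ (f : ℂ ≃ᵢ ℂ) (b : Bool) (s : Fin 5), f '' segment ℝ (v s) (v (s + 1)) = segment ℝ (edge f b s).1 (edge f b s).2 := by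
    intro f b s
    rw [image_seg]
    cases b
    · simp only [edge, Bool.false_eq_true, if_false]; exact segment_symm _ _ _
    · simp only [edge, if_true]
  rw [key f' b' s', key f b s, h, Prod.fst_swap, Prod.snd_swap, segment_symm]

theorem seg_sub_P (s : Fin 5) : segment ℝ (v s) (v (s + 1)) ⊆ P := by
  intro z hz
  rcases mem_closedSide.1 hz with rfl | h | rfl
  · exact v_mem_P _
  · exact O_sub_P h
  · exact v_mem_P _

theorem side_mem {δ : Fin K → Fin 5 → (ℤ × ℤ) × Fin K × Fin 5} (h : Table w1 w2 g o δ)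
    (hne : ∀ k s, ((δ k s).1, (δ k s).2.1) ≠ (0, k))
    (hd : DisjInt (fam w1 w2 g)) (hc : ∀ z, ∃ i, z ∈ T (fam w1 w2 g) i) {p : ℤ × ℤ} {j : (ℤ × ℤ) × Fin K} {k : Fin K} {s : Fin 5}
    {z : ℂ} (hz : z ∈ fam w1 w2 g (p, k) '' O s) (hj : z ∈ T (fam w1 w2 g) j) :
    j = (p, k) ∨ j = (p + (δ k s).1, (δ k s).2.1) := by
  classical
  have hz2 : z ∈ fam w1 w2 g (p + (δ k s).1, (δ k s).2.1) '' O (δ k s).2.2 := by
    rw [image_O_eq (shared_side h p k s)]; exact hz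
  have hne' : ((p, k) : (ℤ × ℤ) × Fin K) ≠ (p + (δ k s).1, (δ k s).2.1) := by
    intro he
    simp only [Prod.mk.injEq] at he
    apply hne k s
    rw [← he.2]
    have : (δ k s).1 = 0 := by
      have := he.1
      exact left_eq_add.1 this
    rw [this]
  have hdens : ∀ (f : ℂ ≃ᵢ ℂ) (s : Fin 5), z ∈ f '' O s → densT f z = Real.pi / 2 := by
    intro f s hf
    rw [mem_image_iff] at hf
    exact dens_O hf
  have h1 := star_complete (fam w1 w2 g) hd hc z {(p, k), (p + (δ k s).1, (δ k s).2.1)} (by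
      intro i hi
      rcases Finset.mem_insert.1 hi with rfl | hi
      · exact image_mono O_sub_P hz
      · rw [Finset.mem_singleton.1 hi]; exact image_mono O_sub_P hz2) (by
      rw [Finset.sum_pair hne', hdens _ _ hz, hdens _ _ hz2]; ring) hj
  simpa using h1

theorem pair_cases {δ : Fin K → Fin 5 → (ℤ × ℤ) × Fin K × Fin 5} (h : Table w1 w2 g o δ)
    (hne : ∀ k s, ((δ k s).1, (δ k s).2.1) ≠ (0, k))
    {st : Fin K → Fin 5 → Finset ((ℤ × ℤ) × Fin K × Fin 5)} (hst : StarTable w1 w2 g st)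
    (hd : DisjInt (fam w1 w2 g)) (hc : ∀ z, ∃ i, z ∈ T (fam w1 w2 g) i) {p : ℤ × ℤ} {k : Fin K} {j : (ℤ × ℤ) × Fin K}
    (hij : j ≠ (p, k)) {z : ℂ} (hi : z ∈ T (fam w1 w2 g) (p, k)) (hj : z ∈ T (fam w1 w2 g) j) :
    (∃ s, z ∈ fam w1 w2 g (p, k) '' O s ∧ j = (p + (δ k s).1, (δ k s).2.1)) ∨
    (∃ s, z = fam w1 w2 g (p, k) (v s) ∧ ∃ x ∈ st k s, j = (p + x.1, x.2.1)) := by
  obtain ⟨y, hy, rfl⟩ := hi
  rcases P_cases hy with hy | ⟨s, hy⟩ | ⟨s, rfl⟩
  · exfalso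
    have h1 : fam w1 w2 g (p, k) y ∈ interior (T (fam w1 w2 g) (p, k)) := by
      rw [T, interior_T]; exact ⟨y, hy, rfl⟩
    have h2 : fam w1 w2 g (p, k) y ∈ closure (interior (T (fam w1 w2 g) j)) := by
      rw [T, closure_int_T]; exact hj
    obtain ⟨x, hx1, hx2⟩ := mem_closure_iff.1 h2 _ isOpen_interior h1
    exact Set.disjoint_left.1 (hd hij.symm) hx1 hx2
  · left
    exact ⟨s, ⟨y, hy, rfl⟩, (side_mem h hne hd hc ⟨y, hy, rfl⟩ hj).resolve_left hij⟩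
  · right
    obtain ⟨q, l⟩ := j
    obtain ⟨x, hx, h1, h2⟩ := star_mem hst hd hc hj
    exact ⟨s, rfl, x, hx, by rw [h1, h2]⟩

/-- the tile across a side contains both its endpoints -/
theorem across_mem {δ : Fin K → Fin 5 → (ℤ × ℤ) × Fin K × Fin 5} (h : Table w1 w2 g o δ) (p : ℤ × ℤ) (k : Fin K) (s : Fin 5) :
    fam w1 w2 g (p, k) '' segment ℝ (v s) (v (s + 1)) ⊆ T (fam w1 w2 g) (p + (δ k s).1, (δ k s).2.1) := by
  rw [← image_side_eq (shared_side h p k s)]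
  exact image_mono (seg_sub_P _)

theorem fin5_adj : ∀ X : Finset (Fin 5), (∀ a ∈ X, ∀ b ∈ X, a ≠ b → b = a + 1 ∨ a = b + 1) → ∃ s0, X ⊆ {s0, s0 + 1} := by
  decide

end Pool.Agent.Helper72.Pent
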