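import Pool.Agent.Helper72.Pent.TilingII

set_option linter.all false

namespace Pool.Agent.Helper72.Pent

open MeasureTheory Set Metric Filter Topology
open scoped ENNReal

theorem forall8 {p : Fin 8 → Prop} (h0 : p 0) (h1 : p 1) (h2 : p 2) (h3 : p 3) (h4 : p 4) (h5 : p 5) (h6 : p 6) (h7 : p 7) :
    ∀ i, p i := by
  intro i; fin_cases i <;> assumption

/-- a unit complex number as an element of the circle -/
def mkC (a : ℂ) (ha : ‖a‖ = 1) : Circle := ⟨a, mem_sphere_zero_iff_norm.2 ha⟩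

theorem mkC_coe (a : ℂ) (ha : ‖a‖ = 1) : ((mkC a ha : Circle) : ℂ) = a := rfl

noncomputable def ω : ℂ := ⟨s, c⟩
noncomputable def W : ℂ := (starRingEnd ℂ) ω

theorem conj_ω : (starRingEnd ℂ) ω = W := rfl
theorem conj_W : (starRingEnd ℂ) W = ω := Complex.conj_conj _

theorem hω : ω * W = 1 := by
  have := c_sq
  rw [W, Complex.mul_conj]
  have : Complex.normSq ω = 1 := by rw [Complex.normSq_apply, ω]; nlinarith
  rw [this]; norm_num

theorem norm_ω : ‖ω‖ = 1 := by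
  have h1 : ‖ω * W‖ = 1 := by rw [hω, norm_one]
  rw [norm_mul, W, RCLike.norm_conj] at h1
  nlinarith [norm_nonneg ω]

theorem norm_W : ‖W‖ = 1 := by rw [W, RCLike.norm_conj, norm_ω]

theorem h3_eq : ω - ω ^ 3 = ⟨1/2, h⟩ := by
  have h1 := c_sq; have h2 := s_eq
  apply Complex.ext
  · simp only [pow_succ, pow_zero, one_mul, Complex.sub_re, Complex.mul_re, Complex.mul_im, ω]
    have : c * c = 1 - s * s := by nlinarith
    linear_combination (3 * s) * this - (1/2) * h2 + 0 * h1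
  · simp only [pow_succ, pow_zero, one_mul, Complex.sub_im, Complex.mul_re, Complex.mul_im, ω]
    have : c * c = 1 - s * s := by nlinarith
    rw [h_eq]
    linear_combination c * this

theorem hrel : ω - ω ^ 3 + W - W ^ 3 = 1 := by
  have h1 : W - W ^ 3 = (starRingEnd ℂ) (ω - ω ^ 3) := by
    rw [map_sub, map_pow, conj_ω]
  have h2 : ω - ω ^ 3 + (starRingEnd ℂ) (ω - ω ^ 3) = 1 := by
    rw [h3_eq]; apply Complex.ext <;> simp <;> norm_num
  rw [← h2, ← h1]; ring

theorem v4_eq : v 4 = ω := rfl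
theorem v3_eq : v 3 = ω - ω ^ 3 := h3_eq.symm
theorem v2_eq : v 2 = ω - ω ^ 3 + W := by
  rw [h3_eq, W, ω, v2]
  apply Complex.ext <;> simp <;> ring

noncomputable def ww1 : ℂ := ω - ω^2 - ω^3
noncomputable def ww2 : ℂ := 1 - 4 * ω + 4 * ω^2 - 2 * ω^3 - 2 * ω^4 + 3 * ω^5

theorem cross_ww : cross ww1 ww2 = 4 * h := by
  have h1 : cross ww1 ww2 = ((starRingEnd ℂ) ww1 * ww2).im := by
    simp only [cross, Complex.mul_im, Complex.conj_re, Complex.conj_im]; ring
  have h2 : (starRingEnd ℂ) ww1 = W - W^2 - W^3 := by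
    rw [ww1]; simp only [map_sub, map_pow, map_add, map_neg, conj_ω]
  have h3 : (starRingEnd ℂ) ww1 * ww2 = 2 * ((ω - ω ^ 3) - (starRingEnd ℂ) (ω - ω ^ 3)) := by
    rw [h2, ww2, map_sub, map_pow, conj_ω]
    linear_combination (-3 + W^2 + 8 * ω - 2 * ω * W - 4 * ω * W^2 - 3 * ω^2 + 4 * ω^2 * W + 2 * ω^2 * W^2 - 5 * ω^3 - ω^3 * W + 2 * ω^3 * W^2 + 3 * ω^4 - 3 * ω^4 * W - 3 * ω^4 * W^2) * hω + (3 - 3 * ω) * hrel
  rw [h1, h3, h3_eq]
  simp; ring

theorem cross_ww_ne : cross ww1 ww2 ≠ 0 := by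
  rw [cross_ww]; have := h_pos; positivity

noncomputable def aa0 : ℂ := 1
noncomputable def bb0 : ℂ := 0
theorem na0 : ‖aa0‖ = 1 := by
  rw [aa0]; simp [norm_ω, norm_W]
noncomputable def aa1 : ℂ := -W
noncomputable def bb1 : ℂ := 2 * ω - ω^2 - ω^5
theorem na1 : ‖aa1‖ = 1 := by
  rw [aa1]; simp [norm_ω, norm_W]
noncomputable def aa2 : ℂ := -W^3
noncomputable def bb2 : ℂ := 2 * ω - ω^2 - ω^5
theorem na2 : ‖aa2‖ = 1 := by
  rw [aa2]; simp [norm_ω, norm_W]
noncomputable def aa3 : ℂ := ω^2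
noncomputable def bb3 : ℂ := 0
theorem na3 : ‖aa3‖ = 1 := by
  rw [aa3]; simp [norm_ω, norm_W]
noncomputable def aa4 : ℂ := -1
noncomputable def bb4 : ℂ := -1 + 4 * ω - 2 * ω^2 + 2 * ω^3 + 2 * ω^4 - 2 * ω^5
theorem na4 : ‖aa4‖ = 1 := by
  rw [aa4]; simp [norm_ω, norm_W]
noncomputable def aa5 : ℂ := W
noncomputable def bb5 : ℂ := -1 + 2 * ω - ω^2 + 2 * ω^3 + 2 * ω^4 - ω^5
theorem na5 : ‖aa5‖ = 1 := by
  rw [aa5]; simp [norm_ω, norm_W]
noncomputable def aa6 : ℂ := W^3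
noncomputable def bb6 : ℂ := -1 + 2 * ω - ω^2 + 2 * ω^3 + 2 * ω^4 - ω^5
theorem na6 : ‖aa6‖ = 1 := by
  rw [aa6]; simp [norm_ω, norm_W]
noncomputable def aa7 : ℂ := -ω^2
noncomputable def bb7 : ℂ := -1 + 4 * ω - 2 * ω^2 + 2 * ω^3 + 2 * ω^4 - 2 * ω^5
theorem na7 : ‖aa7‖ = 1 := by
  rw [aa7]; simp [norm_ω, norm_W]

noncomputable def g8 : Fin 8 → ℂ ≃ᵢ ℂ := ![mkIso (mkC aa0 na0) bb0 true, mkIso (mkC aa1 na1) bb1 false, mkIso (mkC aa2 na2) bb2 true, mkIso (mkC aa3 na3) bb3 false, mkIso (mkC aa4 na4) bb4 true, mkIso (mkC aa5 na5) bb5 false, mkIso (mkC aa6 na6) bb6 true, mkIso (mkC aa7 na7) bb7 false]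
def o8 : Fin 8 → Bool := ![true, false, true, false, true, false, true, false]

theorem ho8 : ∀ k, Oriented (g8 k) (o8 k) := by
  apply forall8 <;> exact mkIso_oriented _ _ _

def δ8 : Fin 8 → Fin 5 → (ℤ × ℤ) × Fin 8 × Fin 5 :=
  ![![((-1, 0), 1, 2), ((0, 0), 2, 0), ((0, 0), 1, 0), ((1, 1), 7, 2), ((0, 0), 3, 4)],
    ![((0, 0), 0, 2), ((1, 0), 3, 0), ((1, 0), 0, 0), ((2, 0), 6, 2), ((0, 0), 2, 4)],
    ![((0, 0), 0, 1), ((1, 0), 6, 1), ((2, 0), 5, 3), ((2, 0), 6, 3), ((0, 0), 1, 4)],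
    ![((-1, 0), 1, 1), ((0, 1), 7, 1), ((1, 1), 4, 3), ((1, 1), 7, 3), ((0, 0), 0, 4)],
    ![((1, 0), 5, 2), ((0, 0), 6, 0), ((0, 0), 5, 0), ((-1, -1), 3, 2), ((0, 0), 7, 4)],
    ![((0, 0), 4, 2), ((-1, 0), 7, 0), ((-1, 0), 4, 0), ((-2, 0), 2, 2), ((0, 0), 6, 4)],
    ![((0, 0), 4, 1), ((-1, 0), 2, 1), ((-2, 0), 1, 3), ((-2, 0), 2, 3), ((0, 0), 5, 4)],
    ![((1, 0), 5, 1), ((0, -1), 3, 1), ((-1, -1), 0, 3), ((-1, -1), 3, 3), ((0, 0), 4, 4)]]
def cls8 : Fin 8 → Fin 5 → Fin 12 :=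
  ![![0, 1, 2, 3, 4],
    ![2, 3, 0, 1, 5],
    ![2, 1, 6, 7, 5],
    ![0, 3, 8, 9, 4],
    ![10, 6, 11, 8, 9],
    ![11, 8, 10, 6, 7],
    ![11, 6, 1, 5, 7],
    ![10, 8, 3, 4, 9]]
def off8 : Fin 8 → Fin 5 → ℤ × ℤ :=
  ![![(0, 0), (0, 0), (0, 0), (0, 0), (0, 0)],
    ![(0, 0), (0, 0), (1, 0), (1, 0), (0, 0)],
    ![(0, 0), (0, 0), (0, 0), (0, 0), (0, 0)],
    ![(0, 0), (-1, 0), (0, 0), (0, 0), (0, 0)],
    ![(0, 0), (-1, 0), (0, 0), (-1, -1), (-1, -1)],
    ![(0, 0), (-1, -1), (-1, 0), (-2, 0), (-2, 0)],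
    ![(0, 0), (-1, 0), (-1, 0), (-2, 0), (-2, 0)],
    ![(0, 0), (0, -1), (-1, -1), (-1, -1), (-1, -1)]]
noncomputable def rr0 : ℂ := 0
noncomputable def rr1 : ℂ := 1
noncomputable def rr2 : ℂ := 2 * ω - ω^2 - ω^5
noncomputable def rr3 : ℂ := ω - ω^3
noncomputable def rr4 : ℂ := ω
noncomputable def rr5 : ℂ := -1 + 3 * ω - 2 * ω^2 + ω^4 - ω^5
noncomputable def rr6 : ℂ := -2 + 5 * ω - 3 * ω^2 + ω^3 + 2 * ω^4 - 2 * ω^5
noncomputable def rr7 : ℂ := 3 * ω - 2 * ω^2 + ω^4 - ω^5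
noncomputable def rr8 : ℂ := ω^2 + ω^5
noncomputable def rr9 : ℂ := ω^2 - ω^3 + ω^5
noncomputable def rr10 : ℂ := -1 + 4 * ω - 2 * ω^2 + 2 * ω^3 + 2 * ω^4 - 2 * ω^5
noncomputable def rr11 : ℂ := -1 + 2 * ω - ω^2 + 2 * ω^3 + 2 * ω^4 - ω^5
noncomputable def R8 : Fin 12 → ℂ := ![rr0, rr1, rr2, rr3, rr4, rr5, rr6, rr7, rr8, rr9, rr10, rr11]

theorem comb8 : Comb 8 12 o8 cls8 off8 δ8 where
  inv := by decide +kernel
  e1 := by decide +kernel
  e2 := by decide +kernel
  ne := by decide +kernel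

theorem hinj8 : ∀ k s, ∀ s', cls8 k s = cls8 k s' → off8 k s = off8 k s' → s = s' := by decide +kernel

theorem conn8 : ConnCond cls8 off8 δ8 := by decide +kernel

theorem prop8 : PropCond cls8 off8 δ8 := by decide +kernel

theorem hp00 : mkIso (mkC aa0 na0) bb0 true (v 0) = rr0 + tr ww1 ww2 (0, 0) := by
  rw [mkIso_apply, mkC_coe, aa0, bb0, rr0, tr, ww1, ww2, v0]
  simp only [if_true, map_add, map_sub, map_pow, map_zero, map_one, conj_ω, conj_W]
  push_cast
  linear_combination (0) * hω + (0) * hrel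
theorem hp01 : mkIso (mkC aa0 na0) bb0 true (v 1) = rr1 + tr ww1 ww2 (0, 0) := by
  rw [mkIso_apply, mkC_coe, aa0, bb0, rr1, tr, ww1, ww2, v1]
  simp only [if_true, map_add, map_sub, map_pow, map_zero, map_one, conj_ω, conj_W]
  push_cast
  linear_combination (0) * hω + (0) * hrel
theorem hp02 : mkIso (mkC aa0 na0) bb0 true (v 2) = rr2 + tr ww1 ww2 (0, 0) := by
  rw [mkIso_apply, mkC_coe, aa0, bb0, rr2, tr, ww1, ww2, v2_eq]
  simp only [if_true, map_add, map_sub, map_pow, map_zero, map_one, conj_ω, conj_W]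
  push_cast
  linear_combination (-W + ω - ω * W^2) * hω + (-ω^2) * hrel
theorem hp03 : mkIso (mkC aa0 na0) bb0 true (v 3) = rr3 + tr ww1 ww2 (0, 0) := by
  rw [mkIso_apply, mkC_coe, aa0, bb0, rr3, tr, ww1, ww2, v3_eq]
  simp only [if_true, map_add, map_sub, map_pow, map_zero, map_one, conj_ω, conj_W]
  push_cast
  linear_combination (0) * hω + (0) * hrel
theorem hp04 : mkIso (mkC aa0 na0) bb0 true (v 4) = rr4 + tr ww1 ww2 (0, 0) := by
  rw [mkIso_apply, mkC_coe, aa0, bb0, rr4, tr, ww1, ww2, v4_eq]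
  simp only [if_true, map_add, map_sub, map_pow, map_zero, map_one, conj_ω, conj_W]
  push_cast
  linear_combination (0) * hω + (0) * hrel
theorem hp10 : mkIso (mkC aa1 na1) bb1 false (v 0) = rr2 + tr ww1 ww2 (0, 0) := by
  rw [mkIso_apply, mkC_coe, aa1, bb1, rr2, tr, ww1, ww2, v0]
  simp only [Bool.false_eq_true, if_false, map_add, map_sub, map_pow, map_zero, map_one, conj_ω, conj_W]
  push_cast
  linear_combination (0) * hω + (0) * hrel
theorem hp11 : mkIso (mkC aa1 na1) bb1 false (v 1) = rr3 + tr ww1 ww2 (0, 0) := by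
  rw [mkIso_apply, mkC_coe, aa1, bb1, rr3, tr, ww1, ww2, v1]
  simp only [Bool.false_eq_true, if_false, map_add, map_sub, map_pow, map_zero, map_one, conj_ω, conj_W]
  push_cast
  linear_combination (W - ω + ω * W^2) * hω + (ω^2) * hrel
theorem hp12 : mkIso (mkC aa1 na1) bb1 false (v 2) = rr0 + tr ww1 ww2 (1, 0) := by
  rw [mkIso_apply, mkC_coe, aa1, bb1, rr0, tr, ww1, ww2, v2_eq]
  simp only [Bool.false_eq_true, if_false, map_add, map_sub, map_pow, map_zero, map_one, conj_ω, conj_W]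
  push_cast
  linear_combination (W - ω + ω * W^2 - ω^2) * hω + (-W + ω^2) * hrel
theorem hp13 : mkIso (mkC aa1 na1) bb1 false (v 3) = rr1 + tr ww1 ww2 (1, 0) := by
  rw [mkIso_apply, mkC_coe, aa1, bb1, rr1, tr, ww1, ww2, v3_eq]
  simp only [Bool.false_eq_true, if_false, map_add, map_sub, map_pow, map_zero, map_one, conj_ω, conj_W]
  push_cast
  linear_combination (1 + W - ω + ω * W^2 - ω^2) * hω + (-W + ω^2) * hrel
theorem hp14 : mkIso (mkC aa1 na1) bb1 false (v 4) = rr5 + tr ww1 ww2 (0, 0) := by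
  rw [mkIso_apply, mkC_coe, aa1, bb1, rr5, tr, ww1, ww2, v4_eq]
  simp only [Bool.false_eq_true, if_false, map_add, map_sub, map_pow, map_zero, map_one, conj_ω, conj_W]
  push_cast
  linear_combination (-1 + W^2) * hω + (ω) * hrel
theorem hp20 : mkIso (mkC aa2 na2) bb2 true (v 0) = rr2 + tr ww1 ww2 (0, 0) := by
  rw [mkIso_apply, mkC_coe, aa2, bb2, rr2, tr, ww1, ww2, v0]
  simp only [if_true, map_add, map_sub, map_pow, map_zero, map_one, conj_ω, conj_W]
  push_cast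
  linear_combination (0) * hω + (0) * hrel
theorem hp21 : mkIso (mkC aa2 na2) bb2 true (v 1) = rr1 + tr ww1 ww2 (0, 0) := by
  rw [mkIso_apply, mkC_coe, aa2, bb2, rr1, tr, ww1, ww2, v1]
  simp only [if_true, map_add, map_sub, map_pow, map_zero, map_one, conj_ω, conj_W]
  push_cast
  linear_combination (W - ω + ω * W^2) * hω + (1 + ω^2) * hrel
theorem hp22 : mkIso (mkC aa2 na2) bb2 true (v 2) = rr6 + tr ww1 ww2 (0, 0) := by
  rw [mkIso_apply, mkC_coe, aa2, bb2, rr6, tr, ww1, ww2, v2_eq]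
  simp only [if_true, map_add, map_sub, map_pow, map_zero, map_one, conj_ω, conj_W]
  push_cast
  linear_combination (-2 - W + W^2 + ω + ω * W - ω * W^2 + ω^2 + ω^2 * W^2) * hω + (W + 2 * ω - ω^2) * hrel
theorem hp23 : mkIso (mkC aa2 na2) bb2 true (v 3) = rr7 + tr ww1 ww2 (0, 0) := by
  rw [mkIso_apply, mkC_coe, aa2, bb2, rr7, tr, ww1, ww2, v3_eq]
  simp only [if_true, map_add, map_sub, map_pow, map_zero, map_one, conj_ω, conj_W]
  push_cast
  linear_combination (ω * W + ω^2 * W^2) * hω + (ω) * hrel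
theorem hp24 : mkIso (mkC aa2 na2) bb2 true (v 4) = rr5 + tr ww1 ww2 (0, 0) := by
  rw [mkIso_apply, mkC_coe, aa2, bb2, rr5, tr, ww1, ww2, v4_eq]
  simp only [if_true, map_add, map_sub, map_pow, map_zero, map_one, conj_ω, conj_W]
  push_cast
  linear_combination (-1) * hω + (ω) * hrel
theorem hp30 : mkIso (mkC aa3 na3) bb3 false (v 0) = rr0 + tr ww1 ww2 (0, 0) := by
  rw [mkIso_apply, mkC_coe, aa3, bb3, rr0, tr, ww1, ww2, v0]
  simp only [Bool.false_eq_true, if_false, map_add, map_sub, map_pow, map_zero, map_one, conj_ω, conj_W]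
  push_cast
  linear_combination (0) * hω + (0) * hrel
theorem hp31 : mkIso (mkC aa3 na3) bb3 false (v 1) = rr3 + tr ww1 ww2 (-1, 0) := by
  rw [mkIso_apply, mkC_coe, aa3, bb3, rr3, tr, ww1, ww2, v1]
  simp only [Bool.false_eq_true, if_false, map_add, map_sub, map_pow, map_zero, map_one, conj_ω, conj_W]
  push_cast
  linear_combination (0) * hω + (0) * hrel
theorem hp32 : mkIso (mkC aa3 na3) bb3 false (v 2) = rr8 + tr ww1 ww2 (0, 0) := by
  rw [mkIso_apply, mkC_coe, aa3, bb3, rr8, tr, ww1, ww2, v2_eq]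
  simp only [Bool.false_eq_true, if_false, map_add, map_sub, map_pow, map_zero, map_one, conj_ω, conj_W]
  push_cast
  linear_combination (0) * hω + (ω^2) * hrel
theorem hp33 : mkIso (mkC aa3 na3) bb3 false (v 3) = rr9 + tr ww1 ww2 (0, 0) := by
  rw [mkIso_apply, mkC_coe, aa3, bb3, rr9, tr, ww1, ww2, v3_eq]
  simp only [Bool.false_eq_true, if_false, map_add, map_sub, map_pow, map_zero, map_one, conj_ω, conj_W]
  push_cast
  linear_combination (0) * hω + (ω^2) * hrel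
theorem hp34 : mkIso (mkC aa3 na3) bb3 false (v 4) = rr4 + tr ww1 ww2 (0, 0) := by
  rw [mkIso_apply, mkC_coe, aa3, bb3, rr4, tr, ww1, ww2, v4_eq]
  simp only [Bool.false_eq_true, if_false, map_add, map_sub, map_pow, map_zero, map_one, conj_ω, conj_W]
  push_cast
  linear_combination (ω) * hω + (0) * hrel
theorem hp40 : mkIso (mkC aa4 na4) bb4 true (v 0) = rr10 + tr ww1 ww2 (0, 0) := by
  rw [mkIso_apply, mkC_coe, aa4, bb4, rr10, tr, ww1, ww2, v0]
  simp only [if_true, map_add, map_sub, map_pow, map_zero, map_one, conj_ω, conj_W]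
  push_cast
  linear_combination (0) * hω + (0) * hrel
theorem hp41 : mkIso (mkC aa4 na4) bb4 true (v 1) = rr6 + tr ww1 ww2 (-1, 0) := by
  rw [mkIso_apply, mkC_coe, aa4, bb4, rr6, tr, ww1, ww2, v1]
  simp only [if_true, map_add, map_sub, map_pow, map_zero, map_one, conj_ω, conj_W]
  push_cast
  linear_combination (0) * hω + (0) * hrel
theorem hp42 : mkIso (mkC aa4 na4) bb4 true (v 2) = rr11 + tr ww1 ww2 (0, 0) := by
  rw [mkIso_apply, mkC_coe, aa4, bb4, rr11, tr, ww1, ww2, v2_eq]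
  simp only [if_true, map_add, map_sub, map_pow, map_zero, map_one, conj_ω, conj_W]
  push_cast
  linear_combination (W - ω + ω * W^2) * hω + (ω^2) * hrel
theorem hp43 : mkIso (mkC aa4 na4) bb4 true (v 3) = rr8 + tr ww1 ww2 (-1, -1) := by
  rw [mkIso_apply, mkC_coe, aa4, bb4, rr8, tr, ww1, ww2, v3_eq]
  simp only [if_true, map_add, map_sub, map_pow, map_zero, map_one, conj_ω, conj_W]
  push_cast
  linear_combination (0) * hω + (0) * hrel
theorem hp44 : mkIso (mkC aa4 na4) bb4 true (v 4) = rr9 + tr ww1 ww2 (-1, -1) := by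
  rw [mkIso_apply, mkC_coe, aa4, bb4, rr9, tr, ww1, ww2, v4_eq]
  simp only [if_true, map_add, map_sub, map_pow, map_zero, map_one, conj_ω, conj_W]
  push_cast
  linear_combination (0) * hω + (0) * hrel
theorem hp50 : mkIso (mkC aa5 na5) bb5 false (v 0) = rr11 + tr ww1 ww2 (0, 0) := by
  rw [mkIso_apply, mkC_coe, aa5, bb5, rr11, tr, ww1, ww2, v0]
  simp only [Bool.false_eq_true, if_false, map_add, map_sub, map_pow, map_zero, map_one, conj_ω, conj_W]
  push_cast
  linear_combination (0) * hω + (0) * hrel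
theorem hp51 : mkIso (mkC aa5 na5) bb5 false (v 1) = rr8 + tr ww1 ww2 (-1, -1) := by
  rw [mkIso_apply, mkC_coe, aa5, bb5, rr8, tr, ww1, ww2, v1]
  simp only [Bool.false_eq_true, if_false, map_add, map_sub, map_pow, map_zero, map_one, conj_ω, conj_W]
  push_cast
  linear_combination (-W + ω - ω * W^2) * hω + (-ω^2) * hrel
theorem hp52 : mkIso (mkC aa5 na5) bb5 false (v 2) = rr10 + tr ww1 ww2 (-1, 0) := by
  rw [mkIso_apply, mkC_coe, aa5, bb5, rr10, tr, ww1, ww2, v2_eq]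
  simp only [Bool.false_eq_true, if_false, map_add, map_sub, map_pow, map_zero, map_one, conj_ω, conj_W]
  push_cast
  linear_combination (-W + ω - ω * W^2 + ω^2) * hω + (W - ω^2) * hrel
theorem hp53 : mkIso (mkC aa5 na5) bb5 false (v 3) = rr6 + tr ww1 ww2 (-2, 0) := by
  rw [mkIso_apply, mkC_coe, aa5, bb5, rr6, tr, ww1, ww2, v3_eq]
  simp only [Bool.false_eq_true, if_false, map_add, map_sub, map_pow, map_zero, map_one, conj_ω, conj_W]
  push_cast
  linear_combination (-1 - W + ω - ω * W^2 + ω^2) * hω + (W - ω^2) * hrel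
theorem hp54 : mkIso (mkC aa5 na5) bb5 false (v 4) = rr7 + tr ww1 ww2 (-2, 0) := by
  rw [mkIso_apply, mkC_coe, aa5, bb5, rr7, tr, ww1, ww2, v4_eq]
  simp only [Bool.false_eq_true, if_false, map_add, map_sub, map_pow, map_zero, map_one, conj_ω, conj_W]
  push_cast
  linear_combination (1 - W^2) * hω + (-ω) * hrel
theorem hp60 : mkIso (mkC aa6 na6) bb6 true (v 0) = rr11 + tr ww1 ww2 (0, 0) := by
  rw [mkIso_apply, mkC_coe, aa6, bb6, rr11, tr, ww1, ww2, v0]
  simp only [if_true, map_add, map_sub, map_pow, map_zero, map_one, conj_ω, conj_W]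
  push_cast
  linear_combination (0) * hω + (0) * hrel
theorem hp61 : mkIso (mkC aa6 na6) bb6 true (v 1) = rr6 + tr ww1 ww2 (-1, 0) := by
  rw [mkIso_apply, mkC_coe, aa6, bb6, rr6, tr, ww1, ww2, v1]
  simp only [if_true, map_add, map_sub, map_pow, map_zero, map_one, conj_ω, conj_W]
  push_cast
  linear_combination (-W + ω - ω * W^2) * hω + (-1 - ω^2) * hrel
theorem hp62 : mkIso (mkC aa6 na6) bb6 true (v 2) = rr1 + tr ww1 ww2 (-1, 0) := by
  rw [mkIso_apply, mkC_coe, aa6, bb6, rr1, tr, ww1, ww2, v2_eq]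
  simp only [if_true, map_add, map_sub, map_pow, map_zero, map_one, conj_ω, conj_W]
  push_cast
  linear_combination (2 + W - W^2 - ω - ω * W + ω * W^2 - ω^2 - ω^2 * W^2) * hω + (-W - 2 * ω + ω^2) * hrel
theorem hp63 : mkIso (mkC aa6 na6) bb6 true (v 3) = rr5 + tr ww1 ww2 (-2, 0) := by
  rw [mkIso_apply, mkC_coe, aa6, bb6, rr5, tr, ww1, ww2, v3_eq]
  simp only [if_true, map_add, map_sub, map_pow, map_zero, map_one, conj_ω, conj_W]
  push_cast
  linear_combination (-ω * W - ω^2 * W^2) * hω + (-ω) * hrel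
theorem hp64 : mkIso (mkC aa6 na6) bb6 true (v 4) = rr7 + tr ww1 ww2 (-2, 0) := by
  rw [mkIso_apply, mkC_coe, aa6, bb6, rr7, tr, ww1, ww2, v4_eq]
  simp only [if_true, map_add, map_sub, map_pow, map_zero, map_one, conj_ω, conj_W]
  push_cast
  linear_combination (1) * hω + (-ω) * hrel
theorem hp70 : mkIso (mkC aa7 na7) bb7 false (v 0) = rr10 + tr ww1 ww2 (0, 0) := by
  rw [mkIso_apply, mkC_coe, aa7, bb7, rr10, tr, ww1, ww2, v0]
  simp only [Bool.false_eq_true, if_false, map_add, map_sub, map_pow, map_zero, map_one, conj_ω, conj_W]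
  push_cast
  linear_combination (0) * hω + (0) * hrel
theorem hp71 : mkIso (mkC aa7 na7) bb7 false (v 1) = rr8 + tr ww1 ww2 (0, -1) := by
  rw [mkIso_apply, mkC_coe, aa7, bb7, rr8, tr, ww1, ww2, v1]
  simp only [Bool.false_eq_true, if_false, map_add, map_sub, map_pow, map_zero, map_one, conj_ω, conj_W]
  push_cast
  linear_combination (0) * hω + (0) * hrel
theorem hp72 : mkIso (mkC aa7 na7) bb7 false (v 2) = rr3 + tr ww1 ww2 (-1, -1) := by
  rw [mkIso_apply, mkC_coe, aa7, bb7, rr3, tr, ww1, ww2, v2_eq]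
  simp only [Bool.false_eq_true, if_false, map_add, map_sub, map_pow, map_zero, map_one, conj_ω, conj_W]
  push_cast
  linear_combination (0) * hω + (-ω^2) * hrel
theorem hp73 : mkIso (mkC aa7 na7) bb7 false (v 3) = rr4 + tr ww1 ww2 (-1, -1) := by
  rw [mkIso_apply, mkC_coe, aa7, bb7, rr4, tr, ww1, ww2, v3_eq]
  simp only [Bool.false_eq_true, if_false, map_add, map_sub, map_pow, map_zero, map_one, conj_ω, conj_W]
  push_cast
  linear_combination (0) * hω + (-ω^2) * hrel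
theorem hp74 : mkIso (mkC aa7 na7) bb7 false (v 4) = rr9 + tr ww1 ww2 (-1, -1) := by
  rw [mkIso_apply, mkC_coe, aa7, bb7, rr9, tr, ww1, ww2, v4_eq]
  simp only [Bool.false_eq_true, if_false, map_add, map_sub, map_pow, map_zero, map_one, conj_ω, conj_W]
  push_cast
  linear_combination (-ω) * hω + (0) * hrel

theorem hpos8 : ∀ k s, g8 k (v s) = R8 (cls8 k s) + tr ww1 ww2 (off8 k s) := by
  apply forall8
  · exact forall5 hp00 hp01 hp02 hp03 hp04
  · exact forall5 hp10 hp11 hp12 hp13 hp14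
  · exact forall5 hp20 hp21 hp22 hp23 hp24
  · exact forall5 hp30 hp31 hp32 hp33 hp34
  · exact forall5 hp40 hp41 hp42 hp43 hp44
  · exact forall5 hp50 hp51 hp52 hp53 hp54
  · exact forall5 hp60 hp61 hp62 hp63 hp64
  · exact forall5 hp70 hp71 hp72 hp73 hp74

theorem hsum8 : ∀ k s, ∑ x ∈ Finset.univ.filter (fun x : Fin 8 × Fin 5 => cls8 x.1 x.2 = cls8 k s), dv x.2 = Real.pi := by
  have key : ∀ q : Fin 12, ∑ x ∈ Finset.univ.filter (fun x : Fin 8 × Fin 5 => cls8 x.1 x.2 = q), dv x.2 = Real.pi := by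
    intro q
    fin_cases q
    · rw [sum_filter_eq {(0,0),(1,2),(3,0)} (by decide +kernel)]
      rw [Finset.sum_insert (by decide), Finset.sum_insert (by decide), Finset.sum_singleton]
      simp only [dv0, dv2]; ring
    · rw [sum_filter_eq {(0,1),(1,3),(2,1),(6,2)} (by decide +kernel)]
      rw [Finset.sum_insert (by decide), Finset.sum_insert (by decide), Finset.sum_insert (by decide), Finset.sum_singleton]
      simp only [dv1, dv2, dv3]; ring
    · rw [sum_filter_eq {(0,2),(1,0),(2,0)} (by decide +kernel)]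
      rw [Finset.sum_insert (by decide), Finset.sum_insert (by decide), Finset.sum_singleton]
      simp only [dv0, dv2]; ring
    · rw [sum_filter_eq {(0,3),(1,1),(3,1),(7,2)} (by decide +kernel)]
      rw [Finset.sum_insert (by decide), Finset.sum_insert (by decide), Finset.sum_insert (by decide), Finset.sum_singleton]
      simp only [dv1, dv2, dv3]; ring
    · rw [sum_filter_eq {(0,4),(3,4),(7,3)} (by decide +kernel)]
      rw [Finset.sum_insert (by decide), Finset.sum_insert (by decide), Finset.sum_singleton]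
      simp only [dv3, dv4]; ring
    · rw [sum_filter_eq {(1,4),(2,4),(6,3)} (by decide +kernel)]
      rw [Finset.sum_insert (by decide), Finset.sum_insert (by decide), Finset.sum_singleton]
      simp only [dv3, dv4]; ring
    · rw [sum_filter_eq {(2,2),(4,1),(5,3),(6,1)} (by decide +kernel)]
      rw [Finset.sum_insert (by decide), Finset.sum_insert (by decide), Finset.sum_insert (by decide), Finset.sum_singleton]
      simp only [dv1, dv2, dv3]; ring
    · rw [sum_filter_eq {(2,3),(5,4),(6,4)} (by decide +kernel)]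
      rw [Finset.sum_insert (by decide), Finset.sum_insert (by decide), Finset.sum_singleton]
      simp only [dv3, dv4]; ring
    · rw [sum_filter_eq {(3,2),(4,3),(5,1),(7,1)} (by decide +kernel)]
      rw [Finset.sum_insert (by decide), Finset.sum_insert (by decide), Finset.sum_insert (by decide), Finset.sum_singleton]
      simp only [dv1, dv2, dv3]; ring
    · rw [sum_filter_eq {(3,3),(4,4),(7,4)} (by decide +kernel)]
      rw [Finset.sum_insert (by decide), Finset.sum_insert (by decide), Finset.sum_singleton]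
      simp only [dv3, dv4]; ring
    · rw [sum_filter_eq {(4,0),(5,2),(7,0)} (by decide +kernel)]
      rw [Finset.sum_insert (by decide), Finset.sum_insert (by decide), Finset.sum_singleton]
      simp only [dv0, dv2]; ring
    · rw [sum_filter_eq {(4,2),(5,0),(6,0)} (by decide +kernel)]
      rw [Finset.sum_insert (by decide), Finset.sum_insert (by decide), Finset.sum_singleton]
      simp only [dv0, dv2]; ring
  intro k s
  exact key _

theorem table8 : Table ww1 ww2 g8 o8 δ8 := table_of_comb comb8 hpos8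
theorem star8 : StarTable ww1 ww2 g8 (starOf cls8 off8) := star_of_pos hpos8 hinj8 hsum8

theorem S8 : ∀ z, z ∉ Vset (fam ww1 ww2 g8) → S (fam ww1 ww2 g8) z = Real.pi := by
  intro z hz
  have h1 := area_fam cross_ww_ne ho8 table8 hz (m := S (fam ww1 ww2 g8) z / Real.pi) (by field_simp)
  have h2 := area2
  rw [cross_ww, abs_of_pos (by have := h_pos; positivity), ENNReal.ofReal_mul (by norm_num)] at h1
  have h3 : ENNReal.ofReal 4 = 4 := by norm_num
  rw [h3] at h1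
  have h4 : (((8 : ℕ) : ℝ≥0∞)) * volume P = 4 * (ENNReal.ofReal h * V0) := by
    rw [h2, ← mul_assoc]; norm_num
  rw [h4] at h1
  have h5 : ENNReal.ofReal (S (fam ww1 ww2 g8) z / Real.pi) * (4 * (ENNReal.ofReal h * V0)) = 1 * (4 * (ENNReal.ofReal h * V0)) := by
    rw [one_mul]; rw [mul_assoc (4:ℝ≥0∞)] at h1; exact h1
  have h6 : (4 * (ENNReal.ofReal h * V0)) ≠ 0 := by
    apply mul_ne_zero (by norm_num)
    apply mul_ne_zero _ V0_ne
    exact (ENNReal.ofReal_pos.2 h_pos).ne'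
  have h7 : (4 * (ENNReal.ofReal h * V0)) ≠ ⊤ :=
    ENNReal.mul_ne_top (by norm_num) (ENNReal.mul_ne_top ENNReal.ofReal_ne_top V0_top)
  have h8 := (ENNReal.mul_left_inj h6 h7).1 h5
  rw [ENNReal.ofReal_eq_one] at h8
  field_simp at h8
  exact h8

theorem dj8 : DisjInt (fam ww1 ww2 g8) := (tiling_of_S cross_ww_ne S8).1
theorem hc8 : ∀ z, ∃ i, z ∈ T (fam ww1 ww2 g8) i := (tiling_of_S cross_ww_ne S8).2

theorem tiling1 (hP : Nonempty (P ≃ₜ Metric.closedBall (0 : ℂ) 1)) :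
    ∃ 𝒯, IsTiling P 𝒯 ∧ IsProper v P 𝒯 :=
  ⟨_, isTiling_of_fam dj8 hc8 hP (conn_of_cond comb8 hpos8 star8 dj8 hc8 conn8),
    proper_of_cond comb8 hpos8 star8 dj8 hc8 prop8⟩

end Pool.Agent.Helper72.Pent
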