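import Pool.Agent.Helper72.Pent.Conn

set_option linter.all false

namespace Pool.Agent.Helper72.Pent

open MeasureTheory Set Metric Filter Topology
open scoped ENNReal

theorem forall5 {p : Fin 5 → Prop} (h0 : p 0) (h1 : p 1) (h2 : p 2) (h3 : p 3) (h4 : p 4) : ∀ i, p i := by
  intro i; fin_cases i <;> assumption

theorem forall2 {p : Fin 2 → Prop} (h0 : p 0) (h1 : p 1) : ∀ i, p i := by
  intro i; fin_cases i <;> assumption

noncomputable def τ1 : ℂ := ⟨1/2, h⟩
noncomputable def τ2 : ℂ := ⟨1/2, -h⟩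

noncomputable def g2 : Fin 2 → ℂ ≃ᵢ ℂ := ![mkIso 1 0 true, mkIso 1 0 false]
def o2 : Fin 2 → Bool := ![true, false]

theorem cross_τ : cross τ1 τ2 = -h := by
  simp only [cross, τ1, τ2]; ring

theorem cross_τ_ne : cross τ1 τ2 ≠ 0 := by
  rw [cross_τ]; exact neg_ne_zero.2 h_pos.ne'

theorem ho2 : ∀ k, Oriented (g2 k) (o2 k) := by
  apply forall2
  · exact mkIso_oriented _ _ _
  · exact mkIso_oriented _ _ _

def δ2 : Fin 2 → Fin 5 → (ℤ × ℤ) × Fin 2 × Fin 5 :=
  ![![((0, 0), 1, 0), ((1, 0), 1, 3), ((1, 0), 1, 4), ((0, -1), 1, 1), ((0, -1), 1, 2)],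
    ![((0, 0), 0, 0), ((0, 1), 0, 3), ((0, 1), 0, 4), ((-1, 0), 0, 1), ((-1, 0), 0, 2)]]

def cls2 : Fin 2 → Fin 5 → Fin 3 := ![![0, 0, 1, 0, 2], ![0, 0, 2, 0, 1]]
def off2 : Fin 2 → Fin 5 → ℤ × ℤ :=
  ![![(0, 0), (1, 1), (0, 0), (1, 0), (0, 0)], ![(0, 0), (1, 1), (0, 1), (0, 1), (-1, 0)]]
noncomputable def R2 : Fin 3 → ℂ := ![0, v 2, v 4]

theorem comb2 : Comb 2 3 o2 cls2 off2 δ2 where
  inv := by decide
  e1 := by decide
  e2 := by decide
  ne := by decide

theorem hinj2 : ∀ k s, ∀ s', cls2 k s = cls2 k s' → off2 k s = off2 k s' → s = s' := by decide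

theorem hpos2 : ∀ k s, g2 k (v s) = R2 (cls2 k s) + tr τ1 τ2 (off2 k s) := by
  apply forall2
  · apply forall5
    · show mkIso 1 0 true (v 0) = (0:ℂ) + tr τ1 τ2 (0, 0)
      rw [mkIso_apply]; apply Complex.ext <;> simp [tr, v0, τ1, τ2]
    · show mkIso 1 0 true (v 1) = (0:ℂ) + tr τ1 τ2 (1, 1)
      rw [mkIso_apply]; apply Complex.ext <;> simp [tr, v1, τ1, τ2] <;> ring
    · show mkIso 1 0 true (v 2) = v 2 + tr τ1 τ2 (0, 0)
      rw [mkIso_apply]; apply Complex.ext <;> simp [tr, v2, τ1, τ2] <;> ring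
    · show mkIso 1 0 true (v 3) = (0:ℂ) + tr τ1 τ2 (1, 0)
      rw [mkIso_apply]; apply Complex.ext <;> simp [tr, v3, τ1, τ2] <;> ring
    · show mkIso 1 0 true (v 4) = v 4 + tr τ1 τ2 (0, 0)
      rw [mkIso_apply]; apply Complex.ext <;> simp [tr, v4, τ1, τ2] <;> ring
  · apply forall5
    · show mkIso 1 0 false (v 0) = (0:ℂ) + tr τ1 τ2 (0, 0)
      rw [mkIso_apply]; apply Complex.ext <;> simp [tr, v0, τ1, τ2] <;> ring
    · show mkIso 1 0 false (v 1) = (0:ℂ) + tr τ1 τ2 (1, 1)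
      rw [mkIso_apply]; apply Complex.ext <;> simp [tr, v1, τ1, τ2] <;> ring
    · show mkIso 1 0 false (v 2) = v 4 + tr τ1 τ2 (0, 1)
      rw [mkIso_apply]; apply Complex.ext <;> simp [tr, v2, v4, τ1, τ2] <;> ring
    · show mkIso 1 0 false (v 3) = (0:ℂ) + tr τ1 τ2 (0, 1)
      rw [mkIso_apply]; apply Complex.ext <;> simp [tr, v3, τ1, τ2] <;> ring
    · show mkIso 1 0 false (v 4) = v 2 + tr τ1 τ2 (-1, 0)
      rw [mkIso_apply]; apply Complex.ext <;> simp [tr, v2, v4, τ1, τ2] <;> ring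

theorem dv0 : dv 0 = (Real.pi / 2 - u) / 2 := rfl
theorem dv1 : dv 1 = (Real.pi / 2 - 3 * u) / 2 := rfl
theorem dv2 : dv 2 = (Real.pi + 2 * u) / 2 := rfl
theorem dv3 : dv 3 = 2 * u := rfl
theorem dv4 : dv 4 = (Real.pi - 2 * u) / 2 := rfl

theorem sum_filter_eq {K : ℕ} {q : Fin K × Fin 5 → Prop} [DecidablePred q] (F : Finset (Fin K × Fin 5)) (hF : Finset.univ.filter q = F) :
    ∑ x ∈ Finset.univ.filter q, dv x.2 = ∑ x ∈ F, dv x.2 := by rw [hF]

theorem hsum2 : ∀ k s, ∑ x ∈ Finset.univ.filter (fun x : Fin 2 × Fin 5 => cls2 x.1 x.2 = cls2 k s), dv x.2 = Real.pi := by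
  have key : ∀ q : Fin 3, ∑ x ∈ Finset.univ.filter (fun x : Fin 2 × Fin 5 => cls2 x.1 x.2 = q), dv x.2 = Real.pi := by
    intro q
    have h3 : q = 0 ∨ q = 1 ∨ q = 2 := by revert q; decide
    rcases h3 with rfl | rfl | rfl
    · rw [sum_filter_eq {(0,0),(0,1),(0,3),(1,0),(1,1),(1,3)} (by decide)]
      rw [Finset.sum_insert (by decide), Finset.sum_insert (by decide), Finset.sum_insert (by decide), Finset.sum_insert (by decide), Finset.sum_insert (by decide), Finset.sum_singleton]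
      simp only [dv0, dv1, dv3]; ring
    · rw [sum_filter_eq {(0,2),(1,4)} (by decide)]
      rw [Finset.sum_insert (by decide), Finset.sum_singleton]
      simp only [dv2, dv4]; ring
    · rw [sum_filter_eq {(0,4),(1,2)} (by decide)]
      rw [Finset.sum_insert (by decide), Finset.sum_singleton]
      simp only [dv2, dv4]; ring
  intro k s
  exact key _

theorem table2 : Table τ1 τ2 g2 o2 δ2 := table_of_comb comb2 hpos2
theorem star2 : StarTable τ1 τ2 g2 (starOf cls2 off2) := star_of_pos hpos2 hinj2 hsum2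

theorem conn2 : ConnCond cls2 off2 δ2 := by decide +kernel

/-- test point -/
noncomputable def z2 : ℂ := ⟨1/2, 1/2⟩

theorem z2_mem : z2 ∈ sP := by
  have h1 := s_lb; have h2 := s_ub; have h3 := c_lb; have h4 := c_ub; have h5 := h_lb; have h6 := h_ub
  refine ⟨?_, ?_, ?_, Or.inr ?_⟩
  · rw [L0, z2]; norm_num
  · rw [L3, z2]; norm_num; nlinarith
  · rw [L4, z2]; norm_num; nlinarith
  · rw [L2, z2]; norm_num; nlinarith

theorem z2_only {i : (ℤ × ℤ) × Fin 2} (hi : z2 ∈ T (fam τ1 τ2 g2) i) : i = ((0, 0), 0) := by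
  have h1 := s_lb; have h2 := s_ub; have h3 := c_lb; have h4 := c_ub; have h5 := h_lb; have h6 := h_ub
  obtain ⟨⟨p, q⟩, k⟩ := i
  obtain ⟨x, hx, hxz⟩ := hi
  obtain ⟨b1, b2, b3, b4⟩ := P_bounds hx
  rw [fam_apply] at hxz
  have hk : k = 0 ∨ k = 1 := by omega
  rcases hk with rfl | rfl
  · have hg : g2 0 x = x := by
      show mkIso 1 0 true x = x
      rw [mkIso_apply]; simp
    rw [hg] at hxz
    have e1 : x.re + ((p:ℝ) + q) / 2 = 1 / 2 := by
      have := congrArg Complex.re hxz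
      simp [tr, τ1, τ2, z2] at this
      linarith
    have e2 : x.im + ((p:ℝ) - q) * h = 1 / 2 := by
      have := congrArg Complex.im hxz
      simp [tr, τ1, τ2, z2] at this
      linarith
    have h7 : p - q < 1 := by
      by_contra hcc; push Not at hcc
      have : (1:ℝ) ≤ (p:ℝ) - q := by exact_mod_cast hcc
      nlinarith
    have h8 : -1 < p - q := by
      by_contra hcc; push Not at hcc
      have : (p:ℝ) - q ≤ -1 := by exact_mod_cast hcc
      nlinarith
    have h9 : p + q < 2 := by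
      by_contra hcc; push Not at hcc
      have : (2:ℝ) ≤ (p:ℝ) + q := by exact_mod_cast hcc
      linarith
    have h10 : -2 < p + q := by
      by_contra hcc; push Not at hcc
      have : (p:ℝ) + q ≤ -2 := by exact_mod_cast hcc
      linarith
    have h11 : p = 0 := by omega
    have h12 : q = 0 := by omega
    rw [h11, h12]
  · exfalso
    have hg : g2 1 x = (starRingEnd ℂ) x := by
      show mkIso 1 0 false x = _
      rw [mkIso_apply]; simp
    rw [hg] at hxz
    have e1 : x.re + ((p:ℝ) + q) / 2 = 1 / 2 := by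
      have := congrArg Complex.re hxz
      simp [tr, τ1, τ2, z2] at this
      linarith
    have e2 : -x.im + ((p:ℝ) - q) * h = 1 / 2 := by
      have := congrArg Complex.im hxz
      simp [tr, τ1, τ2, z2] at this
      linarith
    have h7 : p - q < 2 := by
      by_contra hcc; push Not at hcc
      have : (2:ℝ) ≤ (p:ℝ) - q := by exact_mod_cast hcc
      nlinarith
    have h8 : 0 < p - q := by
      by_contra hcc; push Not at hcc
      have : (p:ℝ) - q ≤ 0 := by exact_mod_cast hcc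
      nlinarith
    have h9 : p + q < 2 := by
      by_contra hcc; push Not at hcc
      have : (2:ℝ) ≤ (p:ℝ) + q := by exact_mod_cast hcc
      linarith
    have h10 : -2 < p + q := by
      by_contra hcc; push Not at hcc
      have : (p:ℝ) + q ≤ -2 := by exact_mod_cast hcc
      linarith
    have h11 : p - q = 1 := by omega
    have h12 : p + q = 1 ∨ p + q = -1 := by omega
    have h13 : (p:ℝ) - q = 1 := by exact_mod_cast h11
    have h14 : x.im = h - 1/2 := by rw [h13] at e2; linarith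
    obtain ⟨p0, p3, p4, p12⟩ := hx
    rw [L4] at p4; rw [L1, L2] at p12
    rcases h12 with h12 | h12
    · have h15 : (p:ℝ) + q = 1 := by exact_mod_cast h12
      have h16 : x.re = 0 := by rw [h15] at e1; linarith
      rw [h16, h14] at p4
      nlinarith
    · have h15 : (p:ℝ) + q = -1 := by exact_mod_cast h12
      have h16 : x.re = 1 := by rw [h15] at e1; linarith
      rw [h16, h14] at p12
      rcases p12 with p | p <;> nlinarith

theorem z2_not_V : z2 ∉ Vset (fam τ1 τ2 g2) := by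
  rintro ⟨i, k, hk⟩
  have h1 := z2_only (i := i) ⟨v k, v_mem_P k, hk.symm⟩
  rw [h1] at hk
  have h2 : fam τ1 τ2 g2 ((0, 0), 0) (v k) = v k := by
    rw [fam_apply]
    show mkIso 1 0 true (v k) + _ = _
    rw [mkIso_apply]; simp [tr]
  rw [h2] at hk
  exact v_not_sP k (hk ▸ z2_mem)

theorem fam00 (z : ℂ) : fam τ1 τ2 g2 ((0, 0), 0) z = z := by
  rw [fam_apply]
  show mkIso 1 0 true z + _ = _
  rw [mkIso_apply]; simp [tr]

theorem S_z2 : S (fam τ1 τ2 g2) z2 = Real.pi := by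
  rw [S, finsum_eq_single _ ((0, 0), 0)]
  · rw [densT]
    have : (fam τ1 τ2 g2 ((0, 0), 0)).symm z2 = z2 := by
      rw [IsometryEquiv.symm_apply_eq, fam00]
    rw [this, dens_sP z2_mem]
  · intro i hi
    exact densT_out (fun h => hi (z2_only h))

theorem S2 : ∀ z, z ∉ Vset (fam τ1 τ2 g2) → S (fam τ1 τ2 g2) z = Real.pi := by
  intro z hz
  rw [← S_z2]
  exact S_const_fam cross_τ_ne ho2 table2 hz z2_not_V

theorem dj2 : DisjInt (fam τ1 τ2 g2) := (tiling_of_S cross_τ_ne S2).1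
theorem hc2 : ∀ z, ∃ i, z ∈ T (fam τ1 τ2 g2) i := (tiling_of_S cross_τ_ne S2).2

theorem area2 : ENNReal.ofReal h * V0 = 2 * volume P := by
  have := area_fam cross_τ_ne ho2 table2 z2_not_V (m := 1) (by rw [S_z2]; ring)
  rw [ENNReal.ofReal_one, one_mul, cross_τ, abs_neg, abs_of_pos h_pos] at this
  exact this

/-- composition law -/
def mulI (i j : (ℤ × ℤ) × Fin 2) : (ℤ × ℤ) × Fin 2 := if i.2 = 0 then (i.1 + j.1, j.2) else (i.1 + j.1.swap, 1 - j.2)

theorem g2_0 (z : ℂ) : g2 0 z = z := by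
  show mkIso 1 0 true z = z
  rw [mkIso_apply]; simp

theorem g2_1 (z : ℂ) : g2 1 z = (starRingEnd ℂ) z := by
  show mkIso 1 0 false z = _
  rw [mkIso_apply]; simp

theorem tr_conj (p : ℤ × ℤ) : (starRingEnd ℂ) (tr τ1 τ2 p) = tr τ1 τ2 p.swap := by
  apply Complex.ext
  · simp [tr, τ1, τ2]; ring
  · simp [tr, τ1, τ2]; ring

theorem fam_comp (i j : (ℤ × ℤ) × Fin 2) (z : ℂ) : fam τ1 τ2 g2 i (fam τ1 τ2 g2 j z) = fam τ1 τ2 g2 (mulI i j) z := by
  obtain ⟨p, k⟩ := i
  obtain ⟨q, l⟩ := j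
  have hk : k = 0 ∨ k = 1 := by omega
  have hl : l = 0 ∨ l = 1 := by omega
  rcases hk with rfl | rfl
  · simp only [mulI, if_true, fam_apply, g2_0, tr_add]; ring
  · rcases hl with rfl | rfl
    · simp only [mulI, one_ne_zero, if_false, fam_apply, g2_0, g2_1, tr_add, sub_zero, map_add, tr_conj]; ring
    · simp only [mulI, one_ne_zero, if_false, fam_apply, g2_0, g2_1, tr_add, sub_self, map_add, tr_conj, Complex.conj_conj]; ring

theorem mulI_surj (i m : (ℤ × ℤ) × Fin 2) : ∃ k, mulI i k = m := by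
  obtain ⟨p, a⟩ := i
  obtain ⟨q, b⟩ := m
  have hk : a = 0 ∨ a = 1 := by omega
  rcases hk with rfl | rfl
  · exact ⟨(q - p, b), by simp [mulI]⟩
  · exact ⟨((q - p).swap, 1 - b), by simp [mulI]⟩

theorem fam_pres (i : (ℤ × ℤ) × Fin 2) :
    (fun S : Set ℂ => fam τ1 τ2 g2 i '' S) '' (Set.range (T (fam τ1 τ2 g2))) = Set.range (T (fam τ1 τ2 g2)) := by
  have key : ∀ j, fam τ1 τ2 g2 i '' (T (fam τ1 τ2 g2) j) = T (fam τ1 τ2 g2) (mulI i j) := by
    intro j
    rw [T, T, image_image]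
    exact image_congr fun z _ => fam_comp i j z
  apply Subset.antisymm
  · rintro _ ⟨_, ⟨j, rfl⟩, rfl⟩
    exact ⟨mulI i j, (key j).symm⟩
  · rintro _ ⟨m, rfl⟩
    obtain ⟨k, hk⟩ := mulI_surj i m
    exact ⟨T (fam τ1 τ2 g2) k, ⟨k, rfl⟩, by rw [← hk]; exact key k⟩

theorem isohedral2 : IsIsohedral (Set.range (T (fam τ1 τ2 g2))) := by
  rintro _ ⟨i, rfl⟩ _ ⟨j, rfl⟩
  refine ⟨(fam τ1 τ2 g2 i).symm.trans (fam τ1 τ2 g2 j), ?_, ?_⟩
  · have h1 : (fun S : Set ℂ => ((fam τ1 τ2 g2 i).symm.trans (fam τ1 τ2 g2 j)) '' S) '' (Set.range (T (fam τ1 τ2 g2)))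
        = (fun S : Set ℂ => (fam τ1 τ2 g2 j) '' S) '' ((fun S : Set ℂ => (fam τ1 τ2 g2 i).symm '' S) '' (Set.range (T (fam τ1 τ2 g2)))) := by
      rw [image_image]
      apply image_congr
      intro S _
      rw [image_image]; rfl
    have h2 : (fun S : Set ℂ => (fam τ1 τ2 g2 i).symm '' S) '' (Set.range (T (fam τ1 τ2 g2))) = Set.range (T (fam τ1 τ2 g2)) := by
      conv_lhs => rw [← fam_pres i]
      rw [image_image]
      conv_rhs => rw [← image_id (Set.range (T (fam τ1 τ2 g2)))]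
      apply image_congr
      intro S _
      rw [image_image]
      simp
    rw [h1, h2, fam_pres]
  · rw [T, T, image_image]
    apply image_congr
    intro z _
    simp

theorem tiling2 (hP : Nonempty (P ≃ₜ Metric.closedBall (0 : ℂ) 1)) :
    ∃ 𝒯, IsTiling P 𝒯 ∧ IsIsohedral 𝒯 :=
  ⟨_, isTiling_of_fam dj2 hc2 hP (conn_of_cond comb2 hpos2 star2 dj2 hc2 conn2), isohedral2⟩

end Pool.Agent.Helper72.Pent
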