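import Pool.Agent.Helper72.Pent.Dens

set_option linter.all false

namespace Pool.Agent.Helper72.Pent

open MeasureTheory Set Metric Filter Topology
open scoped ENNReal

theorem dv_pos (k : Fin 5) : 0 < dv k := by
  have := u_pos; have := u_lt; have := Real.pi_pos
  fin_cases k
  · show 0 < (Real.pi / 2 - u) / 2; linarith
  · show 0 < (Real.pi / 2 - 3 * u) / 2; linarith
  · show 0 < (Real.pi + 2 * u) / 2; linarith
  · show 0 < 2 * u; linarith
  · show 0 < (Real.pi - 2 * u) / 2; linarith

theorem dv_lt (k : Fin 5) : dv k < Real.pi := by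
  have := u_pos; have := u_lt; have := Real.pi_pos
  fin_cases k
  · show (Real.pi / 2 - u) / 2 < _; linarith
  · show (Real.pi / 2 - 3 * u) / 2 < _; linarith
  · show (Real.pi + 2 * u) / 2 < _; linarith
  · show 2 * u < _; linarith
  · show (Real.pi - 2 * u) / 2 < _; linarith

theorem dv_ne_half (k : Fin 5) : dv k ≠ Real.pi / 2 := by
  have := u_pos; have := u_lt; have := Real.pi_pos
  intro hk
  fin_cases k
  · change (Real.pi / 2 - u) / 2 = _ at hk; linarith
  · change (Real.pi / 2 - 3 * u) / 2 = _ at hk; linarith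
  · change (Real.pi + 2 * u) / 2 = _ at hk; linarith
  · change 2 * u = _ at hk; linarith
  · change (Real.pi - 2 * u) / 2 = _ at hk; linarith

theorem dv_inj : Function.Injective dv := by
  have h1 := u_pos; have h2 := u_lt; have h3 := Real.pi_pos; have h4 := u_ub; have h5 := u_lb
  intro j k hjk
  fin_cases j <;> fin_cases k <;> first
    | rfl
    | (exfalso; simp [dv] at hjk; linarith)

theorem dens_nonneg (z : ℂ) : 0 ≤ dens z := by
  by_cases hz : z ∈ P
  · rcases P_cases hz with h | ⟨k, h⟩ | ⟨k, rfl⟩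
    · rw [dens_sP h]; exact Real.pi_pos.le
    · rw [dens_O h]; positivity
    · rw [dens_v]; exact (dv_pos k).le
  · rw [dens_out hz]

theorem dens_pos {z : ℂ} (hz : z ∈ P) : 0 < dens z := by
  rcases P_cases hz with h | ⟨k, h⟩ | ⟨k, rfl⟩
  · rw [dens_sP h]; exact Real.pi_pos
  · rw [dens_O h]; positivity
  · rw [dens_v]; exact (dv_pos k)

theorem dens_le (z : ℂ) : dens z ≤ Real.pi := by
  by_cases hz : z ∈ P
  · rcases P_cases hz with h | ⟨k, h⟩ | ⟨k, rfl⟩
    · rw [dens_sP h]
    · rw [dens_O h]; linarith [Real.pi_pos]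
    · rw [dens_v]; exact (dv_lt k).le
  · rw [dens_out hz]; exact Real.pi_pos.le

theorem hasDens_interior {S : Set ℂ} {z : ℂ} (hz : z ∈ interior S) : HasDens S z Real.pi := by
  apply HasDens.congr (S' := univ)
  · filter_upwards [isOpen_interior.mem_nhds hz] with y hy
    simp [interior_subset hy]
  · filter_upwards [ev_pos_ε] with ε hε
    rw [univ_inter, (ball_area z ε).resolve_right (by linarith)]

theorem interior_P : interior P = sP := by
  apply Subset.antisymm _ (interior_maximal sP_subset isOpen_sP)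
  intro z hz
  have h1 := (hasDens_interior hz).unique (hasDens_P z) Real.pi_pos.le (dens_nonneg z)
  rcases P_cases (interior_subset hz) with h | ⟨k, h⟩ | ⟨k, rfl⟩
  · exact h
  · rw [dens_O h] at h1; linarith [Real.pi_pos]
  · rw [dens_v] at h1; exact absurd h1 (dv_lt k).ne'

/-- a point of the kernel -/
noncomputable def ctr : ℂ := ⟨0.45, 0.5⟩

theorem L_ctr (k : Fin 5) : 0 < L k ctr := by
  have h1 := s_lb; have h2 := s_ub; have h3 := c_lb; have h4 := c_ub; have h5 := h_lb; have h6 := h_ub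
  fin_cases k
  · show 0 < L 0 ctr; rw [L0, ctr]; norm_num
  · show 0 < L 1 ctr; rw [L1, ctr]; norm_num; nlinarith
  · show 0 < L 2 ctr; rw [L2, ctr]; norm_num; nlinarith
  · show 0 < L 3 ctr; rw [L3, ctr]; norm_num; nlinarith
  · show 0 < L 4 ctr; rw [L4, ctr]; norm_num; nlinarith

theorem star_P {z : ℂ} (hz : z ∈ P) {t : ℝ} (h0 : 0 < t) (h1 : t ≤ 1) : z + t * (ctr - z) ∈ sP := by
  have key : ∀ k, 0 ≤ L k z → 0 < L k (z + t * (ctr - z)) := by
    intro k hk
    rw [L_affine]
    have := L_ctr k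
    have : 0 ≤ (1 - t) * L k z := mul_nonneg (by linarith) hk
    have : 0 < t * L k ctr := mul_pos h0 (L_ctr k)
    linarith
  exact ⟨key 0 hz.1, key 3 hz.2.1, key 4 hz.2.2.1, hz.2.2.2.imp (key 1) (key 2)⟩

theorem closure_sP : closure sP = P := by
  apply Subset.antisymm (closure_minimal sP_subset isClosed_P)
  intro z hz
  have h1 : Tendsto (fun t : ℝ => z + t * (ctr - z)) (𝓝[>] 0) (𝓝 z) := by
    have : Continuous (fun t : ℝ => z + t * (ctr - z)) := by fun_prop
    have := this.tendsto 0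
    simp only [Complex.ofReal_zero, zero_mul, add_zero] at this
    exact this.mono_left nhdsWithin_le_nhds
  apply mem_closure_of_tendsto h1
  have : ∀ᶠ t in 𝓝[>] (0:ℝ), t < 1 := by
    apply eventually_nhdsWithin_of_eventually_nhds
    exact gt_mem_nhds one_pos
  filter_upwards [ev_pos_ε, this] with t h2 h3
  exact star_P hz h2 h3.le

theorem mem_closedSide {k : Fin 5} {z : ℂ} : z ∈ segment ℝ (v k) (v (k + 1)) ↔ z = v k ∨ z ∈ O k ∨ z = v (k + 1) := by
  rw [← insert_endpoints_openSegment, O]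
  simp only [mem_insert_iff]
  tauto

theorem frontier_P : frontier P = ⋃ k, segment ℝ (v k) (v (k + 1)) := by
  rw [frontier, isClosed_P.closure_eq, interior_P]
  ext z
  simp only [mem_diff, mem_iUnion, mem_closedSide]
  constructor
  · rintro ⟨h1, h2⟩
    rcases P_cases h1 with h | ⟨k, h⟩ | ⟨k, rfl⟩
    · exact absurd h h2
    · exact ⟨k, Or.inr (Or.inl h)⟩
    · exact ⟨k, Or.inl rfl⟩
  · rintro ⟨k, rfl | h | rfl⟩
    · exact ⟨v_mem_P k, v_not_sP k⟩
    · exact ⟨O_sub_P h, O_not_sP h⟩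
    · exact ⟨v_mem_P _, v_not_sP _⟩

theorem P_bounds {z : ℂ} (hz : z ∈ P) : 0 ≤ z.re ∧ z.re ≤ 1 ∧ 0 ≤ z.im ∧ z.im ≤ h := by
  obtain ⟨p0, p3, p4, p12⟩ := hz
  rw [L0] at p0; rw [L3] at p3; rw [L4] at p4; rw [L1, L2] at p12
  have h1 := s_lb; have h2 := s_ub; have h3 := c_lb; have h4 := c_ub; have h5 := h_lb; have h6 := h_ub
  have hc := c_pos; have hs := s_pos; have a2 := k2; have a3 := k3
  have hx0 : 0 ≤ z.re := by
    by_contra hcc; push Not at hcc; nlinarith
  refine ⟨hx0, ?_, p0, ?_⟩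
  · rcases p12 with p | p
    · by_contra hcc; push Not at hcc
      nlinarith [mul_nonneg a3.le p0, mul_pos a2 (sub_pos.2 hcc)]
    · by_contra hcc; push Not at hcc
      nlinarith [mul_nonneg hs.le p0, mul_pos hc (sub_pos.2 hcc)]
  · by_contra hcc; push Not at hcc
    rcases p12 with p | p
    · nlinarith
    · have e1 : (h - c) * (c * (z.re - 1/2)) ≤ (h - c) * (- s * (z.im - h)) := by
        apply mul_le_mul_of_nonneg_left _ a2.le; nlinarith
      have e2 : c * ((1/2 - s) * (z.im - h)) ≤ c * ((h - c) * (z.re - 1/2)) := by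
        apply mul_le_mul_of_nonneg_left _ hc.le; nlinarith
      have e3 : 0 < (c * (1/2 - s) + (h - c) * s) * (z.im - h) := by
        apply mul_pos _ (sub_pos.2 hcc); positivity
      nlinarith

theorem P_norm {z : ℂ} (hz : z ∈ P) : ‖z‖ ≤ 3 := by
  obtain ⟨h1, h2, h3, h4⟩ := P_bounds hz
  have := h_ub
  calc ‖z‖ ≤ |z.re| + |z.im| := Complex.norm_le_abs_re_add_abs_im z
    _ = z.re + z.im := by rw [abs_of_nonneg h1, abs_of_nonneg h3]
    _ ≤ 3 := by linarith

theorem isCompact_P : IsCompact P := by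
  apply Metric.isCompact_of_isClosed_isBounded isClosed_P
  apply (Metric.isBounded_closedBall (x := (0:ℂ)) (r := 3)).subset
  intro z hz
  rw [mem_closedBall_zero_iff]
  exact P_norm hz

end Pool.Agent.Helper72.Pent
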